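import Mathlib

/-!
Definitions for the Thomas-Fermi-Dirac-von Weizsaecker functional of an atom.
-/

open MeasureTheory

namespace Pool.Agent.W_b91f46_p2

/-- Three dimensional Euclidean space. -/
abbrev E3 : Type := EuclideanSpace ℝ (Fin 3)

/-- `g` is the weak gradient of `ψ`: integration by parts holds against every smooth compactly
supported test function. -/
def IsWeakGradient (ψ : E3 → ℝ) (g : E3 → E3) : Prop :=
  ∀ φ : E3 → ℝ, ContDiff ℝ (⊤ : ℕ∞) φ → HasCompactSupport φ → ∀ v : E3,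
    ∫ x, ψ x * fderiv ℝ φ x v = - ∫ x, inner ℝ (g x) v * φ x

/-- The admissible functions: `ψ ∈ L² ∩ L^{2p}` with weak gradient `g ∈ L²`. -/
structure IsAdmissible (p : ℝ) (ψ : E3 → ℝ) (g : E3 → E3) : Prop where
  memL2 : MemLp ψ 2
  memL2p : MemLp ψ (ENNReal.ofReal (2 * p))
  gradMem : MemLp g 2
  weakGradient : IsWeakGradient ψ g

/-- `J(t) = (γ / p) t^p - (3 C_e / 4) t^{4/3}`. -/
noncomputable def Jfun (γ Ce p t : ℝ) : ℝ := γ / p * t ^ p - 3 * Ce / 4 * t ^ (4 / 3 : ℝ)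

/-- The TFDW energy of `ψ` with weak gradient `g`, for a nucleus of charge `z` at the origin. -/
noncomputable def energy (A γ Ce p z : ℝ) (ψ : E3 → ℝ) (g : E3 → E3) : ℝ :=
  A * (∫ x, ‖g x‖ ^ 2) + (∫ x, Jfun γ Ce p (ψ x ^ 2)) - z * (∫ x, ψ x ^ 2 / ‖x‖)
    + 1 / 2 * ∫ x, ∫ y, ψ x ^ 2 * ψ y ^ 2 / ‖x - y‖

/-- `ψ` is a minimizer at mass `lam`: it is admissible, `∫ ψ² = lam`, and no admissible function of
the same mass has a smaller energy. -/
def IsMinimizer (A γ Ce p z lam : ℝ) (ψ : E3 → ℝ) : Prop :=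
  ∃ g : E3 → E3, IsAdmissible p ψ g ∧ ∫ x, ψ x ^ 2 = lam ∧
    ∀ (φ : E3 → ℝ) (h : E3 → E3), IsAdmissible p φ h → ∫ x, φ x ^ 2 = lam →
      energy A γ Ce p z ψ g ≤ energy A γ Ce p z φ h

/-- `ψ` is symmetric decreasing: it is (almost everywhere) of the form `f(|x|)` with `f ≥ 0`
nonincreasing on `(0, ∞)`. The value at the origin is irrelevant, so functions that are unbounded
near the origin are included. -/
def IsSymmDecreasing (ψ : E3 → ℝ) : Prop :=
  ∃ f : ℝ → ℝ, (∀ t, 0 < t → 0 ≤ f t) ∧ AntitoneOn f (Set.Ioi 0) ∧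
    ∀ᵐ x : E3, ψ x = f ‖x‖

end Pool.Agent.W_b91f46_p2
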