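import Mathlib
import Pool.Agent.W_b91f46_p2.Defs

/-!
The Newtonian kernel on three dimensional space: integrals over balls, potentials and their bounds.
-/

open MeasureTheory Metric Set

namespace Pool.Agent.W_b91f46_p2

/-- volume of the unit ball. -/
noncomputable def v1 : ℝ := (volume : Measure E3).real (ball 0 1)

/-- the area of the unit sphere. -/
noncomputable def c3 : ℝ := 3 * v1

lemma v1_pos : 0 < v1 := by
  unfold v1
  rw [measureReal_def]
  exact ENNReal.toReal_pos (measure_ball_pos _ _ one_pos).ne' measure_ball_lt_top.ne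

lemma c3_pos : 0 < c3 := by
  have := v1_pos
  unfold c3
  positivity

lemma vol_ball (x : E3) {r : ℝ} (hr : 0 ≤ r) : (volume : Measure E3).real (ball x r) = v1 * r ^ 3 := by
  rw [measureReal_def, Measure.addHaar_ball _ _ hr, ENNReal.toReal_mul, ENNReal.toReal_ofReal (by positivity)]
  simp [v1, measureReal_def, mul_comm]

/-- the truncated square of the kernel. -/
noncomputable def K2 (δ : ℝ) (y : E3) : ℝ := (ball (0 : E3) δ).indicator (fun y => (‖y‖⁻¹) ^ 2) y

lemma K2_nonneg (δ : ℝ) (y : E3) : 0 ≤ K2 δ y := by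
  unfold K2
  apply indicator_nonneg
  intro x _
  positivity

lemma K2_eq (δ : ℝ) (y : E3) : K2 δ y = (Iio δ).indicator (fun t : ℝ => (t⁻¹) ^ 2) ‖y‖ := by
  unfold K2
  by_cases h : ‖y‖ < δ
  · rw [indicator_of_mem (by simpa using h), indicator_of_mem (by simpa using h)]
  · rw [indicator_of_notMem (by simpa using h), indicator_of_notMem (by simpa using h)]

lemma aux_indic (δ : ℝ) : EqOn (fun y : ℝ => y ^ (Module.finrank ℝ E3 - 1) • (Iio δ).indicator (fun t : ℝ => (t⁻¹) ^ 2) y)
    ((Iio δ).indicator (fun _ => (1 : ℝ))) (Ioi 0) := by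
  intro y hy
  have hy' : (0 : ℝ) < y := hy
  simp only [finrank_euclideanSpace, Fintype.card_fin]
  by_cases h : y < δ
  · rw [indicator_of_mem (by simpa using h), indicator_of_mem (by simpa using h)]
    have h0 : y ≠ 0 := hy'.ne'
    simp only [smul_eq_mul]
    field_simp
  · rw [indicator_of_notMem (by simpa using h), indicator_of_notMem (by simpa using h)]
    simp

lemma K2_integrable (δ : ℝ) : Integrable (K2 δ) := by
  have : K2 δ = fun y => (Iio δ).indicator (fun t : ℝ => (t⁻¹) ^ 2) ‖y‖ := by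
    funext y; exact K2_eq δ y
  rw [this, integrable_fun_norm_addHaar volume (f := (Iio δ).indicator (fun t : ℝ => (t⁻¹) ^ 2)),
    integrableOn_congr_fun (aux_indic δ) measurableSet_Ioi]
  rw [IntegrableOn, integrable_indicator_iff measurableSet_Iio, IntegrableOn,
    Measure.restrict_restrict measurableSet_Iio]
  have : IntegrableOn (fun _ : ℝ => (1 : ℝ)) (Ioo 0 δ) := by
    exact integrableOn_const (by simp) (by simp)
  refine this.mono_set ?_
  intro y hy
  exact ⟨hy.2, hy.1⟩

lemma K2_integral {δ : ℝ} (hδ : 0 ≤ δ) : ∫ y, K2 δ y = c3 * δ := by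
  have : K2 δ = fun y => (Iio δ).indicator (fun t : ℝ => (t⁻¹) ^ 2) ‖y‖ := by
    funext y; exact K2_eq δ y
  rw [this, integral_fun_norm_addHaar volume ((Iio δ).indicator (fun t : ℝ => (t⁻¹) ^ 2)),
    setIntegral_congr_fun measurableSet_Ioi (aux_indic δ)]
  rw [integral_indicator measurableSet_Iio, Measure.restrict_restrict measurableSet_Iio]
  have e : Iio δ ∩ Ioi 0 = Ioo 0 δ := by
    ext y; simp [and_comm]
  rw [e]
  simp [c3, v1, hδ]
  ring

/-- the truncated kernel. -/
noncomputable def K1 (δ : ℝ) (y : E3) : ℝ := (ball (0 : E3) δ).indicator (fun y => ‖y‖⁻¹) y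

lemma K1_nonneg (δ : ℝ) (y : E3) : 0 ≤ K1 δ y := by
  unfold K1
  apply indicator_nonneg
  intro x _
  positivity

lemma K1_le (δ : ℝ) (y : E3) : K1 δ y ≤ δ * K2 δ y := by
  unfold K1 K2
  by_cases h : y ∈ ball (0 : E3) δ
  · rw [indicator_of_mem h, indicator_of_mem h]
    have h' : ‖y‖ < δ := by simpa using h
    rcases eq_or_lt_of_le (norm_nonneg y) with h0 | h0
    · rw [← h0]; simp
    · rw [sq, ← mul_assoc]
      have : 1 ≤ δ * ‖y‖⁻¹ := by
        rw [← div_eq_mul_inv, le_div_iff₀ h0]; linarith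
      have h2 : 0 ≤ ‖y‖⁻¹ := by positivity
      nlinarith
  · rw [indicator_of_notMem h, indicator_of_notMem h]; simp

lemma measurable_K1 (δ : ℝ) : Measurable (K1 δ) := by
  unfold K1
  exact (measurable_norm.inv).indicator measurableSet_ball

lemma K1_integrable (δ : ℝ) : Integrable (K1 δ) := by
  refine ((K2_integrable δ).const_mul δ).mono' (measurable_K1 δ).aestronglyMeasurable ?_
  filter_upwards with y
  rw [Real.norm_of_nonneg (K1_nonneg δ y)]
  exact K1_le δ y

lemma K1_integral_le {δ : ℝ} (hδ : 0 ≤ δ) : ∫ y, K1 δ y ≤ c3 * δ ^ 2 := by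
  calc ∫ y, K1 δ y ≤ ∫ y, δ * K2 δ y :=
        integral_mono (K1_integrable δ) ((K2_integrable δ).const_mul δ) (K1_le δ)
    _ = c3 * δ ^ 2 := by rw [integral_const_mul, K2_integral hδ]; ring

/-- the Newtonian potential. -/
noncomputable def pot (f : E3 → ℝ) (x : E3) : ℝ := ∫ y, f y / ‖x - y‖

lemma pot_pointwise (f : E3 → ℝ) (x y : E3) {t δ : ℝ} (ht : 0 < t) (hδ : 0 < δ) :
    |f y| / ‖x - y‖ ≤ t / 2 * f y ^ 2 + 1 / (2 * t) * K2 δ (x - y) + 1 / δ * |f y| := by
  by_cases h : ‖x - y‖ < δ
  · have h1 : K2 δ (x - y) = (‖x - y‖⁻¹) ^ 2 := by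
      unfold K2
      rw [indicator_of_mem (by simpa using h)]
    rw [h1, div_eq_mul_inv]
    have h2 : 0 ≤ 1 / δ * |f y| := by positivity
    have h3 : |f y| * ‖x - y‖⁻¹ ≤ t / 2 * f y ^ 2 + 1 / (2 * t) * (‖x - y‖⁻¹) ^ 2 := by
      have h4 : 0 ≤ (t * |f y| - ‖x - y‖⁻¹) ^ 2 / (2 * t) := by positivity
      have h5 : (t * |f y| - ‖x - y‖⁻¹) ^ 2 / (2 * t)
          = t / 2 * |f y| ^ 2 + 1 / (2 * t) * (‖x - y‖⁻¹) ^ 2 - |f y| * ‖x - y‖⁻¹ := by
        field_simp
        ring
      rw [h5, sq_abs] at h4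
      linarith
    linarith
  · push Not at h
    have h1 : |f y| / ‖x - y‖ ≤ 1 / δ * |f y| := by
      rw [div_eq_mul_one_div, mul_comm]
      apply mul_le_mul_of_nonneg_right _ (abs_nonneg _)
      exact one_div_le_one_div_of_le hδ h
    have h2 : 0 ≤ t / 2 * f y ^ 2 := by positivity
    have h3 : 0 ≤ 1 / (2 * t) * K2 δ (x - y) := mul_nonneg (by positivity) (K2_nonneg _ _)
    linarith

lemma K2_sub_integrable (δ : ℝ) (x : E3) : Integrable (fun y => K2 δ (x - y)) :=
  (K2_integrable δ).comp_sub_left x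

lemma K2_sub_integral {δ : ℝ} (hδ : 0 ≤ δ) (x : E3) : ∫ y, K2 δ (x - y) = c3 * δ := by
  rw [integral_sub_left_eq_self (fun y => K2 δ y) volume x, K2_integral hδ]

lemma pot_integrable {f : E3 → ℝ} (h1 : Integrable f) (h2 : Integrable (fun y => f y ^ 2)) (x : E3) :
    Integrable (fun y => f y / ‖x - y‖) := by
  have hm : AEStronglyMeasurable (fun y => f y / ‖x - y‖) volume := by
    have : Measurable (fun y : E3 => ‖x - y‖) := by fun_prop
    exact (h1.aestronglyMeasurable.aemeasurable.div this.aemeasurable).aestronglyMeasurable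
  have hb : Integrable (fun y => 1 / 2 * f y ^ 2 + 1 / (2 * 1) * K2 1 (x - y) + 1 / 1 * |f y|) :=
    ((h2.const_mul _).add ((K2_sub_integrable 1 x).const_mul _)).add (h1.abs.const_mul _)
  refine hb.mono' hm ?_
  filter_upwards with y
  rw [Real.norm_eq_abs, abs_div, abs_norm]
  exact pot_pointwise f x y one_pos one_pos

lemma pot_abs_le {f : E3 → ℝ} (h1 : Integrable f) (h2 : Integrable (fun y => f y ^ 2)) (x : E3)
    {t δ : ℝ} (ht : 0 < t) (hδ : 0 < δ) :
    ∫ y, |f y| / ‖x - y‖ ≤ t / 2 * (∫ y, f y ^ 2) + 1 / (2 * t) * (c3 * δ) + 1 / δ * ∫ y, |f y| := by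
  have hb : Integrable (fun y => t / 2 * f y ^ 2 + 1 / (2 * t) * K2 δ (x - y) + 1 / δ * |f y|) :=
    ((h2.const_mul _).add ((K2_sub_integrable δ x).const_mul _)).add (h1.abs.const_mul _)
  have hi : Integrable (fun y => |f y| / ‖x - y‖) := by
    have := pot_integrable h1.abs (by simpa using h2) x
    exact this
  calc ∫ y, |f y| / ‖x - y‖ ≤ ∫ y, (t / 2 * f y ^ 2 + 1 / (2 * t) * K2 δ (x - y) + 1 / δ * |f y|) :=
        integral_mono hi hb (fun y => pot_pointwise f x y ht hδ)
    _ = _ := by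
        have hA : Integrable (fun y => t / 2 * f y ^ 2 + 1 / (2 * t) * K2 δ (x - y)) :=
          (h2.const_mul _).add ((K2_sub_integrable δ x).const_mul _)
        have hB : Integrable (fun y => 1 / δ * |f y|) := h1.abs.const_mul _
        rw [integral_add hA hB,
          integral_add (h2.const_mul _) ((K2_sub_integrable δ x).const_mul _),
          integral_const_mul, integral_const_mul, integral_const_mul, K2_sub_integral hδ.le]

/-- uniform bound for potentials. -/
lemma abs_pot_le {f : E3 → ℝ} (h1 : Integrable f) (h2 : Integrable (fun y => f y ^ 2)) (x : E3) :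
    |pot f x| ≤ (∫ y, f y ^ 2) + c3 + ∫ y, |f y| := by
  have h3 := pot_abs_le h1 h2 x (t := 1) (δ := 1) one_pos one_pos
  have h4 : |pot f x| ≤ ∫ y, |f y| / ‖x - y‖ := by
    unfold pot
    calc |∫ y, f y / ‖x - y‖| ≤ ∫ y, |f y / ‖x - y‖| := abs_integral_le_integral_abs
      _ = _ := by
        congr 1; funext y; rw [abs_div, abs_norm]
  have h5 : 0 ≤ ∫ y, f y ^ 2 := integral_nonneg fun y => sq_nonneg _
  have h6 := c3_pos
  linarith

lemma aesm_kernel {f g : E3 → ℝ} (hf : AEStronglyMeasurable f) (hg : AEStronglyMeasurable g) :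
    AEStronglyMeasurable (fun p : E3 × E3 => f p.1 * (g p.2 / ‖p.1 - p.2‖))
      (volume.prod volume) := by
  have h1 : AEStronglyMeasurable (fun p : E3 × E3 => f p.1) (volume.prod volume) := hf.comp_fst
  have h2 : AEStronglyMeasurable (fun p : E3 × E3 => g p.2) (volume.prod volume) := hg.comp_snd
  have h3 : Measurable (fun p : E3 × E3 => ‖p.1 - p.2‖) := by fun_prop
  exact h1.mul (h2.aemeasurable.div h3.aemeasurable).aestronglyMeasurable

lemma aesm_pot {g : E3 → ℝ} (hg : AEStronglyMeasurable g) : AEStronglyMeasurable (pot g) := by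
  have h1 := aesm_kernel (f := fun _ => 1) (g := g) aestronglyMeasurable_const hg
  have h2 := h1.integral_prod_right'
  refine h2.congr ?_
  filter_upwards with x
  simp [pot]

lemma mul_pot_integrable {f g : E3 → ℝ} (hf : Integrable f) (h1 : Integrable g)
    (h2 : Integrable (fun y => g y ^ 2)) : Integrable (fun x => f x * pot g x) := by
  refine (hf.abs.const_mul ((∫ y, g y ^ 2) + c3 + ∫ y, |g y|)).mono'
    (hf.aestronglyMeasurable.mul (aesm_pot h1.aestronglyMeasurable)) ?_
  filter_upwards with x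
  rw [norm_mul, Real.norm_eq_abs, Real.norm_eq_abs, mul_comm]
  exact mul_le_mul_of_nonneg_right (abs_pot_le h1 h2 x) (abs_nonneg _)

/-- the bilinear Coulomb form. -/
noncomputable def BB (f g : E3 → ℝ) : ℝ := ∫ x, f x * pot g x

lemma kernel_integrable_prod {f g : E3 → ℝ} (hf : Integrable f) (h1 : Integrable g)
    (h2 : Integrable (fun y => g y ^ 2)) :
    Integrable (fun p : E3 × E3 => f p.1 * (g p.2 / ‖p.1 - p.2‖)) (volume.prod volume) := by
  rw [integrable_prod_iff (aesm_kernel hf.aestronglyMeasurable h1.aestronglyMeasurable)]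
  constructor
  · filter_upwards with x
    exact (pot_integrable h1 h2 x).const_mul _
  · have h3 := mul_pot_integrable hf.abs h1.abs (by simpa using h2)
    refine h3.congr ?_
    filter_upwards with x
    rw [pot, ← integral_const_mul]
    congr 1
    funext y
    rw [norm_mul, norm_div, norm_norm, Real.norm_eq_abs, Real.norm_eq_abs]

lemma BB_symm {f g : E3 → ℝ} (hf : Integrable f) (h1 : Integrable g)
    (h2 : Integrable (fun y => g y ^ 2)) : BB f g = BB g f := by
  have h3 := kernel_integrable_prod hf h1 h2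
  have e1 : BB f g = ∫ x, ∫ y, f x * (g y / ‖x - y‖) := by
    unfold BB pot
    congr 1; funext x
    rw [integral_const_mul]
  have e2 : BB g f = ∫ y, ∫ x, f x * (g y / ‖x - y‖) := by
    unfold BB pot
    congr 1; funext y
    rw [← integral_const_mul]
    congr 1; funext x
    rw [norm_sub_rev x y]
    ring
  rw [e1, e2]
  exact integral_integral_swap h3

lemma pot_add {f g : E3 → ℝ} (hf1 : Integrable f) (hf2 : Integrable (fun y => f y ^ 2))
    (hg1 : Integrable g) (hg2 : Integrable (fun y => g y ^ 2)) (x : E3) :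
    pot (fun y => f y + g y) x = pot f x + pot g x := by
  unfold pot
  rw [← integral_add (pot_integrable hf1 hf2 x) (pot_integrable hg1 hg2 x)]
  congr 1; funext y
  rw [add_div]

lemma pot_const_mul (c : ℝ) (f : E3 → ℝ) (x : E3) :
    pot (fun y => c * f y) x = c * pot f x := by
  unfold pot
  rw [← integral_const_mul]
  congr 1; funext y
  rw [mul_div_assoc]

lemma pot_nonneg {f : E3 → ℝ} (hf : ∀ y, 0 ≤ f y) (x : E3) : 0 ≤ pot f x :=
  integral_nonneg fun y => div_nonneg (hf y) (norm_nonneg _)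

lemma pot_mono {f g : E3 → ℝ} (hf1 : Integrable f) (hf2 : Integrable (fun y => f y ^ 2))
    (hg1 : Integrable g) (hg2 : Integrable (fun y => g y ^ 2)) (h : ∀ y, f y ≤ g y) (x : E3) :
    pot f x ≤ pot g x := by
  apply integral_mono (pot_integrable hf1 hf2 x) (pot_integrable hg1 hg2 x)
  intro y
  exact div_le_div_of_nonneg_right (h y) (norm_nonneg _)

end Pool.Agent.W_b91f46_p2
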