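import Mathlib
import Pool.Agent.W_b91f46_p2.Defs

/-!
Weak gradients: algebra, translations, smooth functions and the translation estimate.
-/

open MeasureTheory Metric Set Filter Topology
open scoped ENNReal

namespace Pool.Agent.W_b91f46_p2

/-- Admissible functions for `p = 2`. -/
structure Adm (ψ : E3 → ℝ) (g : E3 → E3) : Prop where
  l2 : MemLp ψ 2
  l4 : MemLp ψ 4
  g2 : MemLp g 2
  weak : IsWeakGradient ψ g

section sq
variable {α : Type*} [MeasurableSpace α] {μ : Measure α}
  {F : Type*} [NormedAddCommGroup F]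

lemma integral_sq_eq {f : α → F} (hf : MemLp f 2 μ) :
    ∫ x, ‖f x‖ ^ 2 ∂μ = (eLpNorm f 2 μ).toReal ^ 2 := by
  have h0 : 0 ≤ ∫ x, ‖f x‖ ^ 2 ∂μ := integral_nonneg fun x => by positivity
  rw [hf.eLpNorm_eq_integral_rpow_norm (by norm_num) (by norm_num)]
  simp only [ENNReal.toReal_ofNat, Real.rpow_ofNat]
  rw [ENNReal.toReal_ofReal (by positivity), ← Real.rpow_natCast, ← Real.rpow_mul h0]
  norm_num

lemma sq_integrable {f : α → F} (hf : MemLp f 2 μ) : Integrable (fun x => ‖f x‖ ^ 2) μ := by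
  have := hf.integrable_norm_rpow (by norm_num) (by norm_num)
  simpa using this

lemma sq_integrable' {f : α → ℝ} (hf : MemLp f 2 μ) : Integrable (fun x => f x ^ 2) μ := by
  have := sq_integrable hf
  simpa using this

lemma four_integrable {f : α → ℝ} (hf : MemLp f 4 μ) : Integrable (fun x => f x ^ 4) μ := by
  have := hf.integrable_norm_rpow (by norm_num) (by norm_num)
  have e : (fun x => ‖f x‖ ^ (4 : ℝ≥0∞).toReal) = fun x => f x ^ 4 := by
    funext x
    simp only [ENNReal.toReal_ofNat, Real.rpow_ofNat, Real.norm_eq_abs]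
    rw [← abs_pow, abs_of_nonneg (show (0 : ℝ) ≤ f x ^ 4 by positivity)]
  rwa [e] at this

lemma mul_integrable {f g : α → ℝ} (hf : MemLp f 2 μ) (hg : MemLp g 2 μ) :
    Integrable (fun x => f x * g x) μ := hf.integrable_mul hg

lemma abs_integral_mul_le {f g : α → ℝ} (hf : MemLp f 2 μ) (hg : MemLp g 2 μ) {t : ℝ} (ht : 0 < t) :
    |∫ x, f x * g x ∂μ| ≤ t / 2 * (∫ x, f x ^ 2 ∂μ) + 1 / (2 * t) * ∫ x, g x ^ 2 ∂μ := by
  calc |∫ x, f x * g x ∂μ| ≤ ∫ x, |f x * g x| ∂μ := abs_integral_le_integral_abs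
    _ ≤ ∫ x, (t / 2 * f x ^ 2 + 1 / (2 * t) * g x ^ 2) ∂μ := by
        apply integral_mono (mul_integrable hf hg).abs
          (((sq_integrable' hf).const_mul _).add ((sq_integrable' hg).const_mul _))
        intro x
        show |f x * g x| ≤ t / 2 * f x ^ 2 + 1 / (2 * t) * g x ^ 2
        rw [abs_mul]
        have h4 : 0 ≤ (t * |f x| - |g x|) ^ 2 / (2 * t) := by positivity
        have h5 : (t * |f x| - |g x|) ^ 2 / (2 * t)
            = t / 2 * |f x| ^ 2 + 1 / (2 * t) * |g x| ^ 2 - |f x| * |g x| := by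
          field_simp
          ring
        rw [h5, sq_abs, sq_abs] at h4
        linarith
    _ = _ := by
        rw [integral_add ((sq_integrable' hf).const_mul _) ((sq_integrable' hg).const_mul _),
          integral_const_mul, integral_const_mul]

end sq

lemma smooth_memLp {φ : E3 → ℝ} (h1 : ContDiff ℝ (⊤ : ℕ∞) φ) (h2 : HasCompactSupport φ) (p : ℝ≥0∞) :
    MemLp φ p := h1.continuous.memLp_of_hasCompactSupport h2

lemma smooth_fderiv_continuous {φ : E3 → ℝ} (h1 : ContDiff ℝ (⊤ : ℕ∞) φ) (v : E3) :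
    Continuous (fun x => fderiv ℝ φ x v) :=
  (h1.continuous_fderiv (by simp)).clm_apply continuous_const

lemma smooth_fderiv_support {φ : E3 → ℝ} (h2 : HasCompactSupport φ) (v : E3) :
    HasCompactSupport (fun x => fderiv ℝ φ x v) := h2.fderiv_apply ℝ v

lemma smooth_fderiv_memLp {φ : E3 → ℝ} (h1 : ContDiff ℝ (⊤ : ℕ∞) φ) (h2 : HasCompactSupport φ)
    (v : E3) (p : ℝ≥0∞) : MemLp (fun x => fderiv ℝ φ x v) p :=
  (smooth_fderiv_continuous h1 v).memLp_of_hasCompactSupport (smooth_fderiv_support h2 v)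

lemma inner_memLp {g : E3 → E3} (hg : MemLp g 2) (v : E3) : MemLp (fun x => inner ℝ (g x) v) 2 := by
  have h := (hg.const_inner (𝕜 := ℝ) v)
  refine h.congr_norm ?_ ?_
  · exact hg.aestronglyMeasurable.inner aestronglyMeasurable_const
  · filter_upwards with x
    rw [real_inner_comm]

namespace IsWeakGradient

variable {ψ φ : E3 → ℝ} {g h : E3 → E3}

lemma add (hψ : MemLp ψ 2) (hg : MemLp g 2) (hw : IsWeakGradient ψ g)
    (hφ : MemLp φ 2) (hh : MemLp h 2) (hw' : IsWeakGradient φ h) :
    IsWeakGradient (fun x => ψ x + φ x) (fun x => g x + h x) := by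
  intro η h1 h2 v
  have hη := smooth_fderiv_memLp h1 h2 v 2
  have hη' := smooth_memLp h1 h2 2
  simp only [add_mul, inner_add_left]
  rw [integral_add (mul_integrable hψ hη) (mul_integrable hφ hη),
    integral_add (mul_integrable (inner_memLp hg v) hη') (mul_integrable (inner_memLp hh v) hη'),
    hw η h1 h2 v, hw' η h1 h2 v]
  ring

lemma const_mul (c : ℝ) (hw : IsWeakGradient ψ g) :
    IsWeakGradient (fun x => c * ψ x) (fun x => c • g x) := by
  intro η h1 h2 v
  simp only [inner_smul_left, RCLike.conj_to_real, mul_assoc]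
  rw [integral_const_mul, integral_const_mul, hw η h1 h2 v]
  ring

lemma congr_ae (hw : IsWeakGradient ψ g) (h : ψ =ᵐ[volume] φ) : IsWeakGradient φ g := by
  intro η h1 h2 v
  rw [← hw η h1 h2 v]
  apply integral_congr_ae
  filter_upwards [h] with x hx
  rw [hx]

lemma translate (hw : IsWeakGradient ψ g) (a : E3) :
    IsWeakGradient (fun x => ψ (x + a)) (fun x => g (x + a)) := by
  intro η h1 h2 v
  have h1' : ContDiff ℝ (⊤ : ℕ∞) (fun x => η (x - a)) := h1.comp (contDiff_id.sub contDiff_const)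
  have h2' : HasCompactSupport (fun x => η (x - a)) :=
    h2.comp_homeomorph (Homeomorph.subRight a)
  have h3 := hw _ h1' h2' v
  have hd : ∀ x, fderiv ℝ (fun x => η (x - a)) x = fderiv ℝ η (x - a) := by
    intro x
    exact fderiv_comp_sub a
  simp only [hd] at h3
  rw [← integral_add_right_eq_self (fun x => ψ x * (fderiv ℝ η (x - a)) v) a,
    ← integral_add_right_eq_self (fun x => inner ℝ (g x) v * η (x - a)) a] at h3
  simpa using h3

end IsWeakGradient

namespace Adm

variable {ψ φ : E3 → ℝ} {g h : E3 → E3}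

lemma add (H : Adm ψ g) (H' : Adm φ h) : Adm (fun x => ψ x + φ x) (fun x => g x + h x) :=
  ⟨H.l2.add H'.l2, H.l4.add H'.l4, H.g2.add H'.g2,
    IsWeakGradient.add H.l2 H.g2 H.weak H'.l2 H'.g2 H'.weak⟩

lemma const_mul (c : ℝ) (H : Adm ψ g) : Adm (fun x => c * ψ x) (fun x => c • g x) :=
  ⟨H.l2.const_mul c, H.l4.const_mul c, H.g2.const_smul c, H.weak.const_mul c⟩

lemma sub (H : Adm ψ g) (H' : Adm φ h) : Adm (fun x => ψ x - φ x) (fun x => g x - h x) := by
  have := H.add (H'.const_mul (-1))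
  convert! this using 1
  · funext x; ring
  · funext x; simp [sub_eq_add_neg]

lemma neg (H : Adm ψ g) : Adm (fun x => - ψ x) (fun x => - g x) := by
  have := H.const_mul (-1)
  convert! this using 1
  · funext x; ring
  · funext x; simp

lemma translate (H : Adm ψ g) (a : E3) : Adm (fun x => ψ (x + a)) (fun x => g (x + a)) :=
  ⟨H.l2.comp_measurePreserving (measurePreserving_add_right volume a),
    H.l4.comp_measurePreserving (measurePreserving_add_right volume a),
    H.g2.comp_measurePreserving (measurePreserving_add_right volume a),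
    H.weak.translate a⟩

lemma congr_ae (H : Adm ψ g) (h : ψ =ᵐ[volume] φ) : Adm φ g :=
  ⟨H.l2.ae_eq h, H.l4.ae_eq h, H.g2, H.weak.congr_ae h⟩

/-- smooth compactly supported functions are admissible. -/
lemma of_smooth {k : E3 → ℝ} (h1 : ContDiff ℝ (⊤ : ℕ∞) k) (h2 : HasCompactSupport k) :
    Adm k (fun x => gradient k x) := by
  have hc : Continuous (fun x => gradient k x) := by
    unfold gradient
    exact (LinearIsometryEquiv.continuous _).comp (h1.continuous_fderiv (by simp))
  have hs : HasCompactSupport (fun x => gradient k x) := by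
    unfold gradient
    exact (h2.fderiv ℝ).comp_left (g := fun f => (InnerProductSpace.toDual ℝ E3).symm f) (by simp)
  refine ⟨smooth_memLp h1 h2 2, smooth_memLp h1 h2 4, hc.memLp_of_hasCompactSupport hs, ?_⟩
  intro φ h3 h4 v
  have hi : ∀ x, inner ℝ (gradient k x) v = fderiv ℝ k x v := by
    intro x
    unfold gradient
    rw [InnerProductSpace.toDual_symm_apply]
  simp only [hi]
  apply integral_mul_fderiv_eq_neg_fderiv_mul_of_integrable
  · exact mul_integrable (smooth_fderiv_memLp h1 h2 v 2) (smooth_memLp h3 h4 2)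
  · exact mul_integrable (smooth_memLp h1 h2 2) (smooth_fderiv_memLp h3 h4 v 2)
  · exact mul_integrable (smooth_memLp h1 h2 2) (smooth_memLp h3 h4 2)
  · intro x _
    exact h1.differentiable (by simp) x
  · intro x _
    exact h3.differentiable (by simp) x

end Adm

/-! ### the translation estimate -/

lemma translation_dual {ψ : E3 → ℝ} {g : E3 → E3} (hψ : MemLp ψ 2) (hg : MemLp g 2)
    (hw : IsWeakGradient ψ g) (a : E3) {φ : E3 → ℝ} (h1 : ContDiff ℝ (⊤ : ℕ∞) φ)
    (h2 : HasCompactSupport φ) :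
    |∫ x, (ψ (x + a) - ψ x) * φ x| ≤ 1 / 2 * ‖a‖ ^ 2 * (∫ x, ‖g x‖ ^ 2) + 1 / 2 * ∫ x, φ x ^ 2 := by
  have hφ2 : ∀ t : ℝ, MemLp (fun x => φ (x - t • a)) 2 := fun t =>
    (smooth_memLp h1 h2 2).comp_measurePreserving (measurePreserving_sub_right volume (t • a))
  have hc' : ∀ t : ℝ, ContDiff ℝ (⊤ : ℕ∞) (fun x => φ (x - t • a)) := fun t =>
    h1.comp (contDiff_id.sub contDiff_const)
  have hs' : ∀ t : ℝ, HasCompactSupport (fun x => φ (x - t • a)) := fun t =>
    h2.comp_homeomorph (Homeomorph.subRight (t • a))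
  have hfd : ∀ (t : ℝ) (x : E3), fderiv ℝ (fun x => φ (x - t • a)) x = fderiv ℝ φ (x - t • a) := by
    intro t x
    exact fderiv_comp_sub (t • a)
  -- derivative in the parameter
  have hder : ∀ t : ℝ, HasDerivAt (fun t : ℝ => ∫ x, ψ x * φ (x - t • a))
      (∫ x, inner ℝ (g x) a * φ (x - t • a)) t := by
    intro t0
    obtain ⟨C, hC⟩ := (smooth_fderiv_support h2 a).exists_bound_of_continuous
      (smooth_fderiv_continuous h1 a)
    obtain ⟨R, hR⟩ := h2.isCompact.isBounded.subset_closedBall (0 : E3)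
    have key := hasDerivAt_integral_of_dominated_loc_of_deriv_le (μ := (volume : Measure E3))
      (F := fun (t : ℝ) x => ψ x * φ (x - t • a))
      (F' := fun (t : ℝ) x => ψ x * (- fderiv ℝ φ (x - t • a) a)) (x₀ := t0)
      (s := ball t0 1) (bound := (closedBall (0 : E3) (R + (|t0| + 1) * ‖a‖)).indicator
        (fun x => |ψ x| * C)) (ball_mem_nhds _ one_pos) ?_ ?_ ?_ ?_ ?_ ?_
    · have e : (∫ x, inner ℝ (g x) a * φ (x - t0 • a))
          = ∫ x, ψ x * (- fderiv ℝ φ (x - t0 • a) a) := by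
        have := hw _ (hc' t0) (hs' t0) a
        simp only [hfd] at this
        have e2 : ∫ x, ψ x * (- fderiv ℝ φ (x - t0 • a) a)
            = - ∫ x, ψ x * fderiv ℝ φ (x - t0 • a) a := by
          rw [← integral_neg]
          congr 1; funext x; ring
        rw [e2, this, neg_neg]
      rw [e]
      exact key.2
    · exact Eventually.of_forall fun t => (mul_integrable hψ (hφ2 t)).aestronglyMeasurable
    · exact mul_integrable hψ (hφ2 t0)
    · have : Continuous (fun x => - fderiv ℝ φ (x - t0 • a) a) :=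
        ((smooth_fderiv_continuous h1 a).comp (continuous_id.sub continuous_const)).neg
      exact hψ.aestronglyMeasurable.mul this.aestronglyMeasurable
    · filter_upwards with x
      intro t ht
      rw [mem_ball, Real.dist_eq] at ht
      by_cases hx : x ∈ closedBall (0 : E3) (R + (|t0| + 1) * ‖a‖)
      · rw [indicator_of_mem hx, norm_mul, Real.norm_eq_abs]
        apply mul_le_mul_of_nonneg_left _ (abs_nonneg _)
        rw [norm_neg]
        exact hC _
      · rw [indicator_of_notMem hx]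
        have hx' : x - t • a ∉ tsupport φ := by
          intro hmem
          have h3 := hR hmem
          rw [mem_closedBall_zero_iff] at h3
          apply hx
          rw [mem_closedBall_zero_iff]
          have h4 : ‖x‖ ≤ ‖x - t • a‖ + ‖t • a‖ := by
            calc ‖x‖ = ‖(x - t • a) + t • a‖ := by congr 1; abel
              _ ≤ _ := norm_add_le _ _
          have h5 : |t| ≤ |t0| + 1 := by
            have := abs_sub_abs_le_abs_sub t t0
            linarith
          rw [norm_smul, Real.norm_eq_abs] at h4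
          nlinarith [norm_nonneg a, mul_le_mul_of_nonneg_right h5 (norm_nonneg a)]
        have h6 : fderiv ℝ φ (x - t • a) = 0 := by
          have := (tsupport_fderiv_subset ℝ (f := φ))
          by_contra hne
          exact hx' (this (subset_tsupport _ hne))
        rw [h6]; simp
    · apply (integrable_indicator_iff measurableSet_closedBall).2
      have : IntegrableOn ψ (closedBall (0 : E3) (R + (|t0| + 1) * ‖a‖)) :=
        (hψ.locallyIntegrable (by norm_num)).integrableOn_isCompact (isCompact_closedBall _ _)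
      exact this.abs.mul_const C
    · filter_upwards with x
      intro t _
      have h3 : HasDerivAt (fun t : ℝ => x - t • a) (-a) t := by
        have := ((hasDerivAt_id t).smul_const a).const_sub x
        simpa using this
      have h4 : HasFDerivAt φ (fderiv ℝ φ (x - t • a)) (x - t • a) :=
        (h1.differentiable (by simp) _).hasFDerivAt
      have h5 := h4.comp_hasDerivAt t h3
      have h6 := h5.const_mul (ψ x)
      simpa using h6
  have hbound : ∀ t : ℝ, |∫ x, inner ℝ (g x) a * φ (x - t • a)|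
      ≤ 1 / 2 * ‖a‖ ^ 2 * (∫ x, ‖g x‖ ^ 2) + 1 / 2 * ∫ x, φ x ^ 2 := by
    intro t
    have h3 := abs_integral_mul_le (inner_memLp hg a) (hφ2 t) one_pos
    have h4 : ∫ x, φ (x - t • a) ^ 2 = ∫ x, φ x ^ 2 :=
      integral_sub_right_eq_self (fun x => φ x ^ 2) (t • a)
    have h5 : ∫ x, (inner ℝ (g x) a) ^ 2 ≤ ‖a‖ ^ 2 * ∫ x, ‖g x‖ ^ 2 := by
      rw [← integral_const_mul]
      apply integral_mono (sq_integrable' (inner_memLp hg a)) ((sq_integrable hg).const_mul _)
      intro x
      simp only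
      have h6 := abs_real_inner_le_norm (g x) a
      have h7 : (inner ℝ (g x) a) ^ 2 ≤ (‖g x‖ * ‖a‖) ^ 2 := by
        rw [← sq_abs]
        exact pow_le_pow_left₀ (abs_nonneg _) h6 2
      calc _ ≤ (‖g x‖ * ‖a‖) ^ 2 := h7
        _ = _ := by ring
    rw [h4] at h3
    linarith
  have h3 := norm_image_sub_le_of_norm_deriv_le_segment_01'
    (f := fun t : ℝ => ∫ x, ψ x * φ (x - t • a))
    (f' := fun t => ∫ x, inner ℝ (g x) a * φ (x - t • a))
    (C := 1 / 2 * ‖a‖ ^ 2 * (∫ x, ‖g x‖ ^ 2) + 1 / 2 * ∫ x, φ x ^ 2)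
    (fun t _ => (hder t).hasDerivWithinAt) (fun t _ => hbound t)
  have e : (∫ x, (ψ (x + a) - ψ x) * φ x)
      = (∫ x, ψ x * φ (x - (1 : ℝ) • a)) - ∫ x, ψ x * φ (x - (0 : ℝ) • a) := by
    rw [← integral_add_right_eq_self (fun x => ψ x * φ (x - (1 : ℝ) • a)) a]
    simp only [one_smul, add_sub_cancel_right, zero_smul, sub_zero]
    have hψa : MemLp (fun x => ψ (x + a)) 2 :=
      hψ.comp_measurePreserving (measurePreserving_add_right volume a)
    rw [← integral_sub (mul_integrable hψa (smooth_memLp h1 h2 2))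
      (mul_integrable hψ (smooth_memLp h1 h2 2))]
    congr 1; funext x; ring
  rw [e]
  exact h3

theorem translation_estimate {ψ : E3 → ℝ} {g : E3 → E3} (hψ : MemLp ψ 2) (hg : MemLp g 2)
    (hw : IsWeakGradient ψ g) (a : E3) :
    ∫ x, (ψ (x + a) - ψ x) ^ 2 ≤ ‖a‖ ^ 2 * ∫ x, ‖g x‖ ^ 2 := by
  have hψa : MemLp (fun x => ψ (x + a)) 2 :=
    hψ.comp_measurePreserving (measurePreserving_add_right volume a)
  have hδ : MemLp (fun x => ψ (x + a) - ψ x) 2 := hψa.sub hψ
  apply le_of_forall_pos_le_add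
  intro ε hε
  obtain ⟨φ, h2, h1, h3⟩ := hδ.exist_eLpNorm_sub_le (by norm_num) (by norm_num) (Real.sqrt_pos.2 hε)
  have hφ := smooth_memLp h1 h2 2
  have hd := translation_dual hψ hg hw a h1 h2
  have h4 : ∫ x, ((ψ (x + a) - ψ x) - φ x) ^ 2 ≤ ε := by
    have h5 := integral_sq_eq (hδ.sub hφ)
    have h6 : (eLpNorm ((fun x => ψ (x + a) - ψ x) - φ) 2 volume).toReal ≤ Real.sqrt ε := by
      apply ENNReal.toReal_le_of_le_ofReal (Real.sqrt_nonneg _) h3
    have h7 : ∫ x, ((ψ (x + a) - ψ x) - φ x) ^ 2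
        = (eLpNorm ((fun x => ψ (x + a) - ψ x) - φ) 2 volume).toReal ^ 2 := by
      rw [← h5]
      congr 1; funext x
      simp
    rw [h7]
    calc _ ≤ Real.sqrt ε ^ 2 := pow_le_pow_left₀ ENNReal.toReal_nonneg h6 2
      _ = ε := Real.sq_sqrt hε.le
  have h5 : ∫ x, ((ψ (x + a) - ψ x) - φ x) ^ 2
      = (∫ x, (ψ (x + a) - ψ x) ^ 2) - 2 * (∫ x, (ψ (x + a) - ψ x) * φ x) + ∫ x, φ x ^ 2 := by
    have i1 : Integrable (fun x => (ψ (x + a) - ψ x) ^ 2) := sq_integrable' hδ
    have i2 : Integrable (fun x => 2 * ((ψ (x + a) - ψ x) * φ x)) :=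
      (mul_integrable hδ hφ).const_mul 2
    have i3 : Integrable (fun x => (ψ (x + a) - ψ x) ^ 2 - 2 * ((ψ (x + a) - ψ x) * φ x)) :=
      i1.sub i2
    rw [← integral_const_mul, ← integral_sub i1 i2, ← integral_add i3 (sq_integrable' hφ)]
    congr 1; funext x; ring
  have h6 := (abs_le.1 hd).2
  nlinarith

end Pool.Agent.W_b91f46_p2
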