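import Mathlib
import Pool.Agent.W_b91f46_p2.WeakGrad
import Pool.Agent.W_b91f46_p2.Kernel

/-!
Averages over small balls.
-/

open MeasureTheory Metric Set Filter Topology
open scoped ENNReal

namespace Pool.Agent.W_b91f46_p2

variable {u : E3 → ℝ}

lemma local_sq_integrable (hu2 : MemLp u 2) (ℓ : ℝ) (x : E3) :
    IntegrableOn (fun h => u (x + h) ^ 2) (ball 0 ℓ) := by
  have h1 : MemLp (fun h => u (x + h)) 2 :=
    hu2.comp_measurePreserving (measurePreserving_add_left volume x)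
  exact (sq_integrable' h1).integrableOn

lemma local_integrable (hu2 : MemLp u 2) (ℓ : ℝ) (x : E3) :
    IntegrableOn (fun h => u (x + h)) (ball 0 ℓ) := by
  have h1 : MemLp (fun h => u (x + h)) 2 :=
    hu2.comp_measurePreserving (measurePreserving_add_left volume x)
  exact ((h1.locallyIntegrable (by norm_num)).integrableOn_isCompact
    (isCompact_closedBall _ _)).mono_set ball_subset_closedBall

lemma local_diff_integrable (hu2 : MemLp u 2) (ℓ : ℝ) (x : E3) :
    IntegrableOn (fun h => (u (x + h) - u x) ^ 2) (ball 0 ℓ) := by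
  have h1 : IntegrableOn (fun h => u (x + h) ^ 2 - 2 * u x * u (x + h) + u x ^ 2) (ball 0 ℓ) := by
    apply ((local_sq_integrable hu2 ℓ x).sub ((local_integrable hu2 ℓ x).const_mul _)).add
    exact integrableOn_const measure_ball_lt_top.ne enorm_ne_top
  refine h1.congr ?_
  filter_upwards with h
  ring

lemma integral_const_ball (ℓ : ℝ) (hℓ : 0 ≤ ℓ) (c : ℝ) :
    ∫ _ in ball (0 : E3) ℓ, c = v1 * ℓ ^ 3 * c := by
  rw [setIntegral_const, vol_ball _ hℓ, smul_eq_mul]

lemma avg_main (hu : Measurable u) (hu2 : MemLp u 2) {K : ℝ} (hK0 : 0 ≤ K)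
    (hK : ∀ a : E3, ∫ x, (u (x + a) - u x) ^ 2 ≤ ‖a‖ ^ 2 * K) {ℓ : ℝ} (hℓ : 0 < ℓ) :
    Integrable (fun x => ∫ h in ball (0 : E3) ℓ, (u (x + h) - u x) ^ 2) ∧
      ∫ x, ∫ h in ball (0 : E3) ℓ, (u (x + h) - u x) ^ 2 ≤ v1 * ℓ ^ 3 * (ℓ ^ 2 * K) := by
  have hmeas : Measurable (fun p : E3 × E3 => (u (p.2 + p.1) - u p.2) ^ 2) := by fun_prop
  have hfin : IsFiniteMeasure ((volume : Measure E3).restrict (ball 0 ℓ)) :=
    ⟨by rw [Measure.restrict_apply_univ]; exact measure_ball_lt_top⟩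
  have hx : ∀ a : E3, Integrable (fun x => (u (x + a) - u x) ^ 2) := by
    intro a
    exact sq_integrable' ((hu2.comp_measurePreserving (measurePreserving_add_right volume a)).sub hu2)
  have hball : ∀ᵐ a ∂((volume : Measure E3).restrict (ball 0 ℓ)),
      ∫ x, (u (x + a) - u x) ^ 2 ≤ ℓ ^ 2 * K := by
    filter_upwards [ae_restrict_mem measurableSet_ball] with a ha
    have h1 : ‖a‖ < ℓ := by simpa using ha
    have h2 : ‖a‖ ^ 2 ≤ ℓ ^ 2 := pow_le_pow_left₀ (norm_nonneg _) h1.le 2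
    exact (hK a).trans (mul_le_mul_of_nonneg_right h2 hK0)
  have hint : Integrable (fun p : E3 × E3 => (u (p.2 + p.1) - u p.2) ^ 2)
      (((volume : Measure E3).restrict (ball 0 ℓ)).prod volume) := by
    rw [integrable_prod_iff hmeas.aestronglyMeasurable]
    constructor
    · filter_upwards with a
      exact hx a
    · refine (integrable_const (ℓ ^ 2 * K)).mono' ?_ ?_
      · exact hmeas.norm.stronglyMeasurable.integral_prod_right.aestronglyMeasurable
      · filter_upwards [hball] with a ha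
        rw [Real.norm_of_nonneg (integral_nonneg fun x => norm_nonneg _)]
        refine le_trans (le_of_eq ?_) ha
        congr 1
        funext x
        exact Real.norm_of_nonneg (sq_nonneg _)
  have hswap := integral_integral_swap (f := fun (a : E3) (x : E3) => (u (x + a) - u x) ^ 2) hint
  constructor
  · exact hint.integral_prod_right
  · rw [← hswap]
    calc ∫ a in ball (0 : E3) ℓ, ∫ x, (u (x + a) - u x) ^ 2
        ≤ ∫ _ in ball (0 : E3) ℓ, ℓ ^ 2 * K := by
          apply integral_mono_ae hint.integral_prod_left (integrable_const _) hball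
      _ = v1 * ℓ ^ 3 * (ℓ ^ 2 * K) := integral_const_ball ℓ hℓ.le _

/-- local lower bound, used for non-vanishing. -/
lemma avg_lower (hu2 : MemLp u 2) {ℓ : ℝ} (hℓ : 0 < ℓ) (x : E3) :
    1 / 2 * (v1 * ℓ ^ 3) * u x ^ 2 - (∫ h in ball (0 : E3) ℓ, u (x + h) ^ 2)
      ≤ ∫ h in ball (0 : E3) ℓ, (u (x + h) - u x) ^ 2 := by
  have e : 1 / 2 * (v1 * ℓ ^ 3) * u x ^ 2 = ∫ _ in ball (0 : E3) ℓ, (1 / 2 * u x ^ 2) := by
    rw [integral_const_ball ℓ hℓ.le]; ring
  have i0 : IntegrableOn (fun _ => 1 / 2 * u x ^ 2) (ball (0 : E3) ℓ) :=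
    integrableOn_const measure_ball_lt_top.ne enorm_ne_top
  rw [e, ← integral_sub i0 (local_sq_integrable hu2 ℓ x)]
  apply integral_mono (i0.sub (local_sq_integrable hu2 ℓ x)) (local_diff_integrable hu2 ℓ x)
  intro h
  show 1 / 2 * u x ^ 2 - u (x + h) ^ 2 ≤ (u (x + h) - u x) ^ 2
  nlinarith [sq_nonneg (2 * u (x + h) - u x)]

/-- local lower bound, used for compactness. -/
lemma avg_lower' (hu2 : MemLp u 2) {ℓ : ℝ} (hℓ : 0 < ℓ) (x : E3) :
    1 / 2 * (v1 * ℓ ^ 3) * u x ^ 2 ≤ (∫ h in ball (0 : E3) ℓ, (u (x + h) - u x) ^ 2)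
      + 1 / (v1 * ℓ ^ 3) * (∫ h in ball (0 : E3) ℓ, u (x + h)) ^ 2 := by
  set V := v1 * ℓ ^ 3 with hV
  have hVpos : 0 < V := by have := v1_pos; positivity
  set M := ∫ h in ball (0 : E3) ℓ, u (x + h) with hM
  have i1 := local_sq_integrable hu2 ℓ x
  have i2 := local_integrable hu2 ℓ x
  have ic : ∀ c : ℝ, IntegrableOn (fun _ => c) (ball (0 : E3) ℓ) := fun c =>
    integrableOn_const measure_ball_lt_top.ne enorm_ne_top
  have expand : ∀ c : ℝ, ∫ h in ball (0 : E3) ℓ, (u (x + h) - c) ^ 2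
      = (∫ h in ball (0 : E3) ℓ, u (x + h) ^ 2) - 2 * c * M + V * c ^ 2 := by
    intro c
    have i3 : IntegrableOn (fun h => 2 * c * u (x + h)) (ball (0 : E3) ℓ) := i2.const_mul _
    have i4 : IntegrableOn (fun h => u (x + h) ^ 2 - 2 * c * u (x + h)) (ball (0 : E3) ℓ) :=
      i1.sub i3
    rw [hM, ← integral_const_mul, ← integral_sub i1 i3, hV, ← integral_const_ball ℓ hℓ.le,
      ← integral_add i4 (ic _)]
    congr 1; funext h; ring
  have h1 := expand (u x)
  have h2 := expand (M / V)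
  have h3 : 0 ≤ ∫ h in ball (0 : E3) ℓ, (u (x + h) - M / V) ^ 2 :=
    integral_nonneg fun h => sq_nonneg _
  rw [h2] at h3
  rw [h1]
  have h4 : 2 * (M / V) * M = 2 * (M ^ 2 / V) := by ring
  have h5 : V * (M / V) ^ 2 = M ^ 2 / V := by field_simp
  rw [h4, h5] at h3
  have h6 : 0 ≤ V * (u x / 2 - M / V) ^ 2 * 2 := by positivity
  have h7 : V * (u x / 2 - M / V) ^ 2 * 2 = 1 / 2 * V * u x ^ 2 - 2 * u x * M + 2 * (M ^ 2 / V) := by
    field_simp
    ring
  rw [h7] at h6
  have h8 : 1 / V * M ^ 2 = M ^ 2 / V := by ring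
  rw [h8]
  linarith

end Pool.Agent.W_b91f46_p2
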