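import Mathlib
import Pool.Agent.W_b91f46_p2.Avg

/-!
Weak sequential compactness and local strong convergence.
-/

open MeasureTheory Metric Set Filter Topology
open scoped ENNReal

namespace Pool.Agent.W_b91f46_p2

instance fact_two_ne_top : Fact ((2 : ℝ≥0∞) ≠ ⊤) := ⟨by norm_num⟩

theorem weak_seq_compact {H : Type*} [NormedAddCommGroup H] [InnerProductSpace ℝ H]
    [CompleteSpace H] [TopologicalSpace.SeparableSpace H] (F : ℕ → H) (B : ℝ)
    (hB : ∀ n, ‖F n‖ ≤ B) :
    ∃ (x : H) (φ : ℕ → ℕ), StrictMono φ ∧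
      ∀ y, Tendsto (fun n => inner ℝ (F (φ n)) y) atTop (𝓝 (inner ℝ x y)) := by
  let G : ℕ → WeakDual ℝ H := fun n =>
    StrongDual.toWeakDual (InnerProductSpace.toDual ℝ H (F n))
  have hG : ∀ n, G n ∈ (WeakDual.toStrongDual ⁻¹' closedBall (0 : StrongDual ℝ H) B) := by
    intro n
    rw [mem_preimage, mem_closedBall_zero_iff]
    show ‖InnerProductSpace.toDual ℝ H (F n)‖ ≤ B
    rw [LinearIsometryEquiv.norm_map]
    exact hB n
  obtain ⟨a, _, φ, hφ, ha⟩ := WeakDual.isSeqCompact_closedBall ℝ H (0 : StrongDual ℝ H) B hG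
  refine ⟨(InnerProductSpace.toDual ℝ H).symm (WeakDual.toStrongDual a), φ, hφ, ?_⟩
  intro y
  rw [InnerProductSpace.toDual_symm_apply]
  have h1 := ((WeakDual.eval_continuous (𝕜 := ℝ) (E := H) y).tendsto a).comp ha
  exact h1

section L2
variable {F : Type*} [NormedAddCommGroup F] [InnerProductSpace ℝ F] [CompleteSpace F]
  [TopologicalSpace.SeparableSpace F]

theorem weak_compact_L2 (ψ : ℕ → E3 → F) (h : ∀ n, MemLp (ψ n) 2) (B : ℝ)
    (hB : ∀ n, ∫ x, ‖ψ n x‖ ^ 2 ≤ B) :
    ∃ (ψ' : E3 → F) (φ : ℕ → ℕ), MemLp ψ' 2 ∧ StrictMono φ ∧ ∀ η : E3 → F, MemLp η 2 →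
      Tendsto (fun n => ∫ x, inner ℝ (ψ (φ n) x) (η x)) atTop (𝓝 (∫ x, inner ℝ (ψ' x) (η x))) := by
  have hB' : ∀ n, ‖(h n).toLp‖ ≤ Real.sqrt B := by
    intro n
    apply Real.le_sqrt_of_sq_le
    rw [Lp.norm_toLp, ← integral_sq_eq (h n)]
    exact hB n
  obtain ⟨x, φ, hφ, hx⟩ := weak_seq_compact (fun n => (h n).toLp) _ hB'
  refine ⟨x, φ, Lp.memLp x, hφ, ?_⟩
  intro η hη
  have h1 := hx hη.toLp
  have e1 : ∀ n, inner ℝ ((h (φ n)).toLp) hη.toLp = ∫ x, inner ℝ (ψ (φ n) x) (η x) := by
    intro n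
    rw [L2.inner_def]
    apply integral_congr_ae
    filter_upwards [(h (φ n)).coeFn_toLp, hη.coeFn_toLp] with y h1 h2
    rw [h1, h2]
  have e2 : inner ℝ x hη.toLp = ∫ y, inner ℝ (x y) (η y) := by
    rw [L2.inner_def]
    apply integral_congr_ae
    filter_upwards [hη.coeFn_toLp] with y h2
    rw [h2]
  simp only [e1] at h1
  rw [e2] at h1
  exact h1

end L2

/-- local strong convergence to zero. -/
theorem local_conv (u : ℕ → E3 → ℝ) (h : ℕ → E3 → E3) (hu : ∀ n, MemLp (u n) 2)
    (hh : ∀ n, MemLp (h n) 2) (hw : ∀ n, IsWeakGradient (u n) (h n)) (B : ℝ)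
    (hB1 : ∀ n, ∫ x, u n x ^ 2 ≤ B) (hB2 : ∀ n, ∫ x, ‖h n x‖ ^ 2 ≤ B)
    (hweak : ∀ η : E3 → ℝ, MemLp η 2 → Tendsto (fun n => ∫ x, u n x * η x) atTop (𝓝 0)) (R : ℝ) :
    Tendsto (fun n => ∫ x in ball 0 R, u n x ^ 2) atTop (𝓝 0) := by
  -- measurable representatives
  wlog hmeas : ∀ n, Measurable (u n) generalizing u with H
  · let u' : ℕ → E3 → ℝ := fun n => (hu n).aestronglyMeasurable.mk (u n)
    have hae : ∀ n, u n =ᵐ[volume] u' n := fun n => (hu n).aestronglyMeasurable.ae_eq_mk
    have h1 := H u' (fun n => (hu n).ae_eq (hae n)) (fun n => (hw n).congr_ae (hae n)) ?_ ?_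
      (fun n => (hu n).aestronglyMeasurable.stronglyMeasurable_mk.measurable)
    · refine h1.congr fun n => ?_
      apply integral_congr_ae
      filter_upwards [ae_restrict_of_ae (hae n)] with x hx
      rw [hx]
    · intro n
      refine le_trans (le_of_eq ?_) (hB1 n)
      apply integral_congr_ae
      filter_upwards [hae n] with x hx
      rw [hx]
    · intro η hη
      refine (hweak η hη).congr fun n => ?_
      apply integral_congr_ae
      filter_upwards [hae n] with x hx
      rw [hx]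
  have hB0 : 0 ≤ B := le_trans (integral_nonneg fun x => sq_nonneg _) (hB1 0)
  have hv := v1_pos
  rw [Metric.tendsto_atTop]
  intro ε hε
  -- choose the scale
  obtain ⟨ℓ, hℓ, hℓ2⟩ : ∃ ℓ : ℝ, 0 < ℓ ∧ 2 * (ℓ ^ 2 * B) < ε / 2 := by
    refine ⟨Real.sqrt (ε / (8 * (B + 1))), Real.sqrt_pos.2 (by positivity), ?_⟩
    rw [Real.sq_sqrt (by positivity)]
    have : ε / (8 * (B + 1)) * B ≤ ε / 8 := by
      rw [div_mul_eq_mul_div, div_le_div_iff₀ (by positivity) (by norm_num)]
      nlinarith
    linarith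
  set V := v1 * ℓ ^ 3 with hV
  have hVpos : 0 < V := by positivity
  let M : ℕ → E3 → ℝ := fun n x => ∫ y in ball (0 : E3) ℓ, u n (x + y)
  have hfin : IsFiniteMeasure ((volume : Measure E3).restrict (ball 0 ℓ)) :=
    ⟨by rw [Measure.restrict_apply_univ]; exact measure_ball_lt_top⟩
  have hMmeas : ∀ n, Measurable (M n) := by
    intro n
    have : Measurable (fun p : E3 × E3 => u n (p.1 + p.2)) := (hmeas n).comp (by fun_prop)
    exact this.stronglyMeasurable.integral_prod_right.measurable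
  have hMeq : ∀ n x, M n x = ∫ y, u n y * (ball x ℓ).indicator (fun _ => (1 : ℝ)) y := by
    intro n x
    have e1 : ∀ y, u n y * (ball x ℓ).indicator (fun _ => (1 : ℝ)) y
        = (ball x ℓ).indicator (fun y => u n y) y := by
      intro y
      by_cases hy : y ∈ ball x ℓ
      · rw [indicator_of_mem hy, indicator_of_mem hy, mul_one]
      · rw [indicator_of_notMem hy, indicator_of_notMem hy, mul_zero]
    simp only [e1]
    show ∫ y in ball (0 : E3) ℓ, u n (x + y) = _
    rw [← integral_indicator measurableSet_ball]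
    rw [← integral_add_left_eq_self (fun y => (ball x ℓ).indicator (fun y => u n y) y) x]
    congr 1; funext y
    by_cases hy : y ∈ ball (0 : E3) ℓ
    · have hy' : x + y ∈ ball x ℓ := by
        rw [mem_ball, dist_eq_norm, add_sub_cancel_left]
        simpa using hy
      rw [indicator_of_mem hy, indicator_of_mem hy']
    · have hy' : x + y ∉ ball x ℓ := by
        rw [mem_ball, dist_eq_norm, add_sub_cancel_left]
        simpa using hy
      rw [indicator_of_notMem hy, indicator_of_notMem hy']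
  have hind : ∀ x : E3, MemLp ((ball x ℓ).indicator (fun _ => (1 : ℝ))) 2 := by
    intro x
    exact memLp_indicator_const 2 measurableSet_ball 1 (Or.inr measure_ball_lt_top.ne)
  have hMlim : ∀ x, Tendsto (fun n => M n x) atTop (𝓝 0) := by
    intro x
    simp only [hMeq]
    exact hweak _ (hind x)
  have hMbound : ∀ n x, |M n x| ≤ 1 / 2 * B + 1 / 2 * V := by
    intro n x
    rw [hMeq]
    have h1 := abs_integral_mul_le (hu n) (hind x) one_pos
    have h2 : ∫ y, (ball x ℓ).indicator (fun _ => (1 : ℝ)) y ^ 2 = V := by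
      have e : ∀ y, (ball x ℓ).indicator (fun _ => (1 : ℝ)) y ^ 2
          = (ball x ℓ).indicator (fun _ => (1 : ℝ)) y := by
        intro y
        by_cases hy : y ∈ ball x ℓ
        · rw [indicator_of_mem hy]; norm_num
        · rw [indicator_of_notMem hy]; norm_num
      simp only [e]
      rw [integral_indicator measurableSet_ball, setIntegral_const, vol_ball _ hℓ.le, smul_eq_mul,
        mul_one]
    rw [h2] at h1
    have h3 := hB1 n
    linarith
  have hfinR : IsFiniteMeasure ((volume : Measure E3).restrict (ball 0 R)) :=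
    ⟨by rw [Measure.restrict_apply_univ]; exact measure_ball_lt_top⟩
  have hMint : Tendsto (fun n => ∫ x in ball (0 : E3) R, M n x ^ 2) atTop (𝓝 0) := by
    have h1 := tendsto_integral_of_dominated_convergence (μ := (volume : Measure E3).restrict (ball 0 R))
      (F := fun n x => M n x ^ 2) (f := fun _ => (0 : ℝ)) (bound := fun _ => (1 / 2 * B + 1 / 2 * V) ^ 2)
      (fun n => ((hMmeas n).pow_const 2).aestronglyMeasurable) (integrable_const _) ?_ ?_
    · simpa using h1
    · intro n
      filter_upwards with x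
      rw [Real.norm_of_nonneg (sq_nonneg _), ← sq_abs]
      exact pow_le_pow_left₀ (abs_nonneg _) (hMbound n x) 2
    · filter_upwards with x
      have := (hMlim x).pow 2
      simpa using this
  -- main estimate
  have hmain : ∀ n, ∫ x in ball (0 : E3) R, u n x ^ 2
      ≤ 2 * (ℓ ^ 2 * B) + 2 / V ^ 2 * ∫ x in ball (0 : E3) R, M n x ^ 2 := by
    intro n
    have hK : ∀ a : E3, ∫ x, (u n (x + a) - u n x) ^ 2 ≤ ‖a‖ ^ 2 * B := by
      intro a
      exact (translation_estimate (hu n) (hh n) (hw n) a).trans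
        (mul_le_mul_of_nonneg_left (hB2 n) (sq_nonneg _))
    obtain ⟨hi, hle⟩ := avg_main (hmeas n) (hu n) hB0 hK hℓ
    have hMi : IntegrableOn (fun x => M n x ^ 2) (ball (0 : E3) R) := by
      refine (integrable_const ((1 / 2 * B + 1 / 2 * V) ^ 2)).mono'
        ((hMmeas n).pow_const 2).aestronglyMeasurable ?_
      filter_upwards with x
      rw [Real.norm_of_nonneg (sq_nonneg _), ← sq_abs]
      exact pow_le_pow_left₀ (abs_nonneg _) (hMbound n x) 2
    have h1 : ∫ x in ball (0 : E3) R, 1 / 2 * V * u n x ^ 2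
        ≤ ∫ x in ball (0 : E3) R, ((∫ h in ball (0 : E3) ℓ, (u n (x + h) - u n x) ^ 2)
          + 1 / V * M n x ^ 2) := by
      apply integral_mono (((sq_integrable' (hu n)).integrableOn).const_mul _)
        (hi.integrableOn.add (hMi.const_mul _))
      intro x
      exact avg_lower' (hu n) hℓ x
    rw [integral_const_mul, integral_add hi.integrableOn (hMi.const_mul _), integral_const_mul] at h1
    have h2 : ∫ x in ball (0 : E3) R, (∫ h in ball (0 : E3) ℓ, (u n (x + h) - u n x) ^ 2)
        ≤ ∫ x, ∫ h in ball (0 : E3) ℓ, (u n (x + h) - u n x) ^ 2 := by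
      apply setIntegral_le_integral hi
      filter_upwards with x
      exact integral_nonneg fun h => sq_nonneg _
    have h3 : 1 / 2 * V * ∫ x in ball (0 : E3) R, u n x ^ 2
        ≤ V * (ℓ ^ 2 * B) + 1 / V * ∫ x in ball (0 : E3) R, M n x ^ 2 := by
      linarith
    have h4 : ∫ x in ball (0 : E3) R, u n x ^ 2
        = 2 / V * (1 / 2 * V * ∫ x in ball (0 : E3) R, u n x ^ 2) := by
      field_simp
    rw [h4]
    have h5 : 2 * (ℓ ^ 2 * B) + 2 / V ^ 2 * ∫ x in ball (0 : E3) R, M n x ^ 2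
        = 2 / V * (V * (ℓ ^ 2 * B) + 1 / V * ∫ x in ball (0 : E3) R, M n x ^ 2) := by
      field_simp
    rw [h5]
    exact mul_le_mul_of_nonneg_left h3 (by positivity)
  have h6 : Tendsto (fun n => 2 / V ^ 2 * ∫ x in ball (0 : E3) R, M n x ^ 2) atTop (𝓝 0) := by
    have := hMint.const_mul (2 / V ^ 2)
    simpa using this
  obtain ⟨N, hN⟩ := (Metric.tendsto_atTop.1 h6) (ε / 2) (by positivity)
  refine ⟨N, fun n hn => ?_⟩
  have h7 := hN n hn
  rw [Real.dist_eq, sub_zero] at h7 ⊢
  have h8 : 0 ≤ ∫ x in ball (0 : E3) R, u n x ^ 2 := integral_nonneg fun x => sq_nonneg _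
  rw [abs_of_nonneg h8]
  have h9 := hmain n
  have h10 := (abs_lt.1 h7).2
  linarith

/-- From local convergence to almost everywhere convergence along a subsequence. -/
theorem exists_ae_subseq (u : ℕ → E3 → ℝ) (hu : ∀ n, MemLp (u n) 2) (B : ℝ)
    (hB1 : ∀ n, ∫ x, u n x ^ 2 ≤ B)
    (hloc : ∀ R : ℝ, Tendsto (fun n => ∫ x in ball (0 : E3) R, u n x ^ 2) atTop (𝓝 0)) :
    ∃ φ : ℕ → ℕ, StrictMono φ ∧ ∀ᵐ x, Tendsto (fun n => u (φ n) x) atTop (𝓝 0) := by
  have hB0 : 0 ≤ B := le_trans (integral_nonneg fun x => sq_nonneg _) (hB1 0)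
  -- the weighted functions
  let f : ℕ → E3 → ℝ := fun n x => u n x ^ 2 * Real.exp (-‖x‖)
  have hfm : ∀ n, AEStronglyMeasurable (f n) volume := by
    intro n
    have : Continuous (fun x : E3 => Real.exp (-‖x‖)) := by fun_prop
    exact ((hu n).aestronglyMeasurable.pow 2).mul this.aestronglyMeasurable
  have hfle : ∀ n x, f n x ≤ u n x ^ 2 := by
    intro n x
    have : Real.exp (-‖x‖) ≤ 1 := Real.exp_le_one_iff.2 (by simp)
    have h2 := sq_nonneg (u n x)
    show u n x ^ 2 * Real.exp (-‖x‖) ≤ _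
    nlinarith
  have hf0 : ∀ n x, 0 ≤ f n x := fun n x => by positivity
  have hfi : ∀ n, Integrable (f n) := by
    intro n
    refine (sq_integrable' (hu n)).mono' (hfm n) ?_
    filter_upwards with x
    rw [Real.norm_of_nonneg (hf0 n x)]
    exact hfle n x
  have hflim : Tendsto (fun n => ∫ x, f n x) atTop (𝓝 0) := by
    rw [Metric.tendsto_atTop]
    intro ε hε
    obtain ⟨R, hR⟩ : ∃ R : ℝ, Real.exp (-R) * B < ε / 2 := by
      have h1 : Tendsto (fun R : ℝ => Real.exp (-R) * B) atTop (𝓝 (0 * B)) :=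
        (Real.tendsto_exp_neg_atTop_nhds_zero).mul_const B
      rw [zero_mul] at h1
      exact ((h1.eventually_lt_const (by positivity : (0 : ℝ) < ε / 2))).exists
    obtain ⟨N, hN⟩ := (Metric.tendsto_atTop.1 (hloc R)) (ε / 2) (by positivity)
    refine ⟨N, fun n hn => ?_⟩
    have h7 := hN n hn
    rw [Real.dist_eq, sub_zero] at h7 ⊢
    rw [abs_of_nonneg (integral_nonneg (hf0 n))]
    rw [← integral_add_compl (measurableSet_ball (x := (0 : E3)) (ε := R)) (hfi n)]
    have h8 : ∫ x in ball (0 : E3) R, f n x ≤ ∫ x in ball (0 : E3) R, u n x ^ 2 :=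
      integral_mono (hfi n).integrableOn (sq_integrable' (hu n)).integrableOn (hfle n)
    have h9 : ∫ x in (ball (0 : E3) R)ᶜ, f n x ≤ Real.exp (-R) * B := by
      calc ∫ x in (ball (0 : E3) R)ᶜ, f n x
          ≤ ∫ x in (ball (0 : E3) R)ᶜ, Real.exp (-R) * u n x ^ 2 := by
            apply setIntegral_mono_on (hfi n).integrableOn
              (((sq_integrable' (hu n)).integrableOn).const_mul _) measurableSet_ball.compl
            intro x hx
            have h10 : R ≤ ‖x‖ := by simpa using hx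
            show u n x ^ 2 * Real.exp (-‖x‖) ≤ _
            rw [mul_comm]
            exact mul_le_mul_of_nonneg_right (Real.exp_le_exp.2 (by linarith)) (sq_nonneg _)
        _ = Real.exp (-R) * ∫ x in (ball (0 : E3) R)ᶜ, u n x ^ 2 := integral_const_mul _ _
        _ ≤ Real.exp (-R) * B := by
            apply mul_le_mul_of_nonneg_left _ (Real.exp_pos _).le
            refine le_trans (setIntegral_le_integral (sq_integrable' (hu n)) ?_) (hB1 n)
            filter_upwards with x
            exact sq_nonneg _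
    have h10 := (abs_lt.1 h7).2
    linarith
  have hmeasure : TendstoInMeasure volume f atTop (fun _ => (0 : ℝ)) := by
    apply tendstoInMeasure_of_tendsto_eLpNorm (p := 1) (by norm_num) hfm
      aestronglyMeasurable_const
    have e : ∀ n, eLpNorm (f n - fun _ => (0 : ℝ)) 1 volume = ENNReal.ofReal (∫ x, f n x) := by
      intro n
      rw [eLpNorm_one_eq_lintegral_enorm, ofReal_integral_eq_lintegral_ofReal (hfi n)
        (Eventually.of_forall (hf0 n))]
      congr 1
      funext x
      simp only [Pi.sub_apply, sub_zero]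
      rw [Real.enorm_eq_ofReal (hf0 n x)]
    simp only [e]
    have := (ENNReal.continuous_ofReal.tendsto 0).comp hflim
    rw [ENNReal.ofReal_zero] at this
    exact this
  obtain ⟨φ, hφ, h1⟩ := hmeasure.exists_seq_tendsto_ae
  refine ⟨φ, hφ, ?_⟩
  filter_upwards [h1] with x hx
  have h2 : Tendsto (fun n => u (φ n) x ^ 2) atTop (𝓝 0) := by
    have h3 := hx.mul_const (Real.exp ‖x‖)
    rw [zero_mul] at h3
    refine h3.congr fun n => ?_
    show u (φ n) x ^ 2 * Real.exp (-‖x‖) * Real.exp ‖x‖ = _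
    rw [mul_assoc, ← Real.exp_add]
    simp
  have h4 := h2.sqrt
  rw [Real.sqrt_zero] at h4
  have h5 : Tendsto (fun n => |u (φ n) x|) atTop (𝓝 0) := by
    refine h4.congr fun n => ?_
    rw [Real.sqrt_sq_eq_abs]
  exact (tendsto_zero_iff_abs_tendsto_zero _).2 h5

end Pool.Agent.W_b91f46_p2
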