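import Mathlib
import Pool.Agent.W_b91f46_p2.Compact

/-!
Compactness for bounded sequences of admissible functions.
-/

open MeasureTheory Metric Set Filter Topology
open scoped ENNReal

namespace Pool.Agent.W_b91f46_p2

lemma inner_integrable {f g : E3 → E3} (hf : MemLp f 2) (hg : MemLp g 2) :
    Integrable (fun x => inner ℝ (f x) (g x)) := by
  refine ((sq_integrable hf).add (sq_integrable hg)).mono'
    (hf.aestronglyMeasurable.inner hg.aestronglyMeasurable) ?_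
  filter_upwards with x
  show ‖inner ℝ (f x) (g x)‖ ≤ ‖f x‖ ^ 2 + ‖g x‖ ^ 2
  rw [Real.norm_eq_abs]
  have h1 := abs_real_inner_le_norm (f x) (g x)
  nlinarith [sq_nonneg (‖f x‖ - ‖g x‖), norm_nonneg (f x), norm_nonneg (g x)]

lemma integral_sq_sub_le {u v : E3 → ℝ} (hu : MemLp u 2) (hv : MemLp v 2) :
    ∫ x, (u x - v x) ^ 2 ≤ 2 * (∫ x, u x ^ 2) + 2 * ∫ x, v x ^ 2 := by
  rw [← integral_const_mul, ← integral_const_mul,
    ← integral_add ((sq_integrable' hu).const_mul 2) ((sq_integrable' hv).const_mul 2)]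
  apply integral_mono (sq_integrable' (hu.sub hv))
    (((sq_integrable' hu).const_mul 2).add ((sq_integrable' hv).const_mul 2))
  intro x
  show (u x - v x) ^ 2 ≤ 2 * u x ^ 2 + 2 * v x ^ 2
  nlinarith [sq_nonneg (u x + v x)]

lemma integral_norm_sq_sub_le {u v : E3 → E3} (hu : MemLp u 2) (hv : MemLp v 2) :
    ∫ x, ‖u x - v x‖ ^ 2 ≤ 2 * (∫ x, ‖u x‖ ^ 2) + 2 * ∫ x, ‖v x‖ ^ 2 := by
  rw [← integral_const_mul, ← integral_const_mul,
    ← integral_add ((sq_integrable hu).const_mul 2) ((sq_integrable hv).const_mul 2)]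
  apply integral_mono (sq_integrable (hu.sub hv))
    (((sq_integrable hu).const_mul 2).add ((sq_integrable hv).const_mul 2))
  intro x
  show ‖u x - v x‖ ^ 2 ≤ 2 * ‖u x‖ ^ 2 + 2 * ‖v x‖ ^ 2
  have := parallelogram_law_with_norm ℝ (u x) (v x)
  nlinarith [norm_nonneg (u x + v x)]

theorem adm_compact (ψ : ℕ → E3 → ℝ) (g : ℕ → E3 → E3) (H : ∀ n, Adm (ψ n) (g n)) (B : ℝ)
    (hB1 : ∀ n, ∫ x, ψ n x ^ 2 ≤ B) (hB2 : ∀ n, ∫ x, ‖g n x‖ ^ 2 ≤ B)
    (hB4 : ∀ n, ∫ x, ψ n x ^ 4 ≤ B) :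
    ∃ (ψ' : E3 → ℝ) (g' : E3 → E3) (φ : ℕ → ℕ), Adm ψ' g' ∧ StrictMono φ ∧
      (∀ η : E3 → ℝ, MemLp η 2 →
        Tendsto (fun n => ∫ x, (ψ (φ n) x - ψ' x) * η x) atTop (𝓝 0)) ∧
      (∀ η : E3 → E3, MemLp η 2 →
        Tendsto (fun n => ∫ x, inner ℝ (g (φ n) x - g' x) (η x)) atTop (𝓝 0)) ∧
      (∀ R : ℝ, Tendsto (fun n => ∫ x in ball 0 R, (ψ (φ n) x - ψ' x) ^ 2) atTop (𝓝 0)) ∧
      (∀ᵐ x, Tendsto (fun n => ψ (φ n) x - ψ' x) atTop (𝓝 0)) := by
  obtain ⟨ψ', φ1, hψ', hφ1, hw1⟩ := weak_compact_L2 ψ (fun n => (H n).l2) B (by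
    intro n
    refine le_trans (le_of_eq ?_) (hB1 n)
    congr 1; funext x
    rw [Real.norm_eq_abs, sq_abs])
  obtain ⟨g', φ2, hg', hφ2, hw2⟩ := weak_compact_L2 (fun n => g (φ1 n)) (fun n => (H _).g2) B
    (fun n => hB2 _)
  -- weak convergence along the composed subsequence
  have hw1' : ∀ η : E3 → ℝ, MemLp η 2 →
      Tendsto (fun n => ∫ x, ψ (φ1 (φ2 n)) x * η x) atTop (𝓝 (∫ x, ψ' x * η x)) := by
    intro η hη
    have h1 := (hw1 η hη).comp hφ2.tendsto_atTop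
    have e : ∀ a b : ℝ, inner ℝ a b = a * b := by
      intro a b
      simp [mul_comm]
    simp only [e] at h1
    exact h1
  have hgrad : IsWeakGradient ψ' g' := by
    intro η h1 h2 v
    have h3 := hw1' _ (smooth_fderiv_memLp h1 h2 v 2)
    have h4 := hw2 (fun x => η x • v) (by
      have : MemLp (fun x => η x • v) 2 := by
        have hc : Continuous (fun x => η x • v) := h1.continuous.smul continuous_const
        exact hc.memLp_of_hasCompactSupport (h2.smul_right)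
      exact this)
    have h5 : Tendsto (fun n => - ∫ x, inner ℝ (g (φ1 (φ2 n)) x) v * η x) atTop
        (𝓝 (- ∫ x, inner ℝ (g' x) v * η x)) := by
      apply Tendsto.neg
      simp only [inner_smul_right] at h4
      simp only [mul_comm (η _)] at h4
      exact h4
    have h6 : (fun n => ∫ x, ψ (φ1 (φ2 n)) x * fderiv ℝ η x v)
        = fun n => - ∫ x, inner ℝ (g (φ1 (φ2 n)) x) v * η x := by
      funext n
      exact (H _).weak η h1 h2 v
    rw [h6] at h3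
    exact tendsto_nhds_unique h3 h5
  -- differences
  have hu2 : ∀ n, MemLp (fun x => ψ (φ1 (φ2 n)) x - ψ' x) 2 := fun n => (H _).l2.sub hψ'
  have hh2 : ∀ n, MemLp (fun x => g (φ1 (φ2 n)) x - g' x) 2 := fun n => (H _).g2.sub hg'
  have hwk : ∀ n, IsWeakGradient (fun x => ψ (φ1 (φ2 n)) x - ψ' x)
      (fun x => g (φ1 (φ2 n)) x - g' x) := by
    intro n
    have h1 := IsWeakGradient.add (H (φ1 (φ2 n))).l2 (H (φ1 (φ2 n))).g2 (H (φ1 (φ2 n))).weak
      (hψ'.const_mul (-1)) (hg'.const_smul (-1 : ℝ)) (hgrad.const_mul (-1))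
    convert! h1 using 1
    · funext x; ring
    · funext x; simp [sub_eq_add_neg]
  have hwz : ∀ η : E3 → ℝ, MemLp η 2 →
      Tendsto (fun n => ∫ x, (ψ (φ1 (φ2 n)) x - ψ' x) * η x) atTop (𝓝 0) := by
    intro η hη
    have h1 := (hw1' η hη).sub_const (∫ x, ψ' x * η x)
    rw [sub_self] at h1
    refine h1.congr fun n => ?_
    rw [← integral_sub (mul_integrable (H _).l2 hη) (mul_integrable hψ' hη)]
    congr 1; funext x; ring
  have hwz2 : ∀ η : E3 → E3, MemLp η 2 →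
      Tendsto (fun n => ∫ x, inner ℝ (g (φ1 (φ2 n)) x - g' x) (η x)) atTop (𝓝 0) := by
    intro η hη
    have h1 := (hw2 η hη).sub_const (∫ x, inner ℝ (g' x) (η x))
    rw [sub_self] at h1
    refine h1.congr fun n => ?_
    rw [← integral_sub (inner_integrable (H _).g2 hη) (inner_integrable hg' hη)]
    congr 1; funext x
    rw [inner_sub_left]
  set B' : ℝ := max (2 * B + 2 * ∫ x, ψ' x ^ 2) (2 * B + 2 * ∫ x, ‖g' x‖ ^ 2) with hB'
  have hb1 : ∀ n, ∫ x, (ψ (φ1 (φ2 n)) x - ψ' x) ^ 2 ≤ B' := by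
    intro n
    have h1 := integral_sq_sub_le (H (φ1 (φ2 n))).l2 hψ'
    have h2 := hB1 (φ1 (φ2 n))
    exact le_trans (by linarith) (le_max_left _ _)
  have hb2 : ∀ n, ∫ x, ‖g (φ1 (φ2 n)) x - g' x‖ ^ 2 ≤ B' := by
    intro n
    have h1 := integral_norm_sq_sub_le (H (φ1 (φ2 n))).g2 hg'
    have h2 := hB2 (φ1 (φ2 n))
    exact le_trans (by linarith) (le_max_right _ _)
  have hloc := local_conv (fun n x => ψ (φ1 (φ2 n)) x - ψ' x) (fun n x => g (φ1 (φ2 n)) x - g' x)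
    hu2 hh2 hwk B' hb1 hb2 hwz
  obtain ⟨φ3, hφ3, hae⟩ := exists_ae_subseq (fun n x => ψ (φ1 (φ2 n)) x - ψ' x) hu2 B' hb1 hloc
  -- the limit is in L^4
  have h4 : MemLp ψ' 4 := by
    refine ⟨hψ'.aestronglyMeasurable, ?_⟩
    have h1 := Lp.eLpNorm_lim_le_liminf_eLpNorm (p := 4) (μ := (volume : Measure E3))
      (f := fun n => ψ (φ1 (φ2 (φ3 n)))) (fun n => (H _).l2.aestronglyMeasurable) ψ' ?_
    · have h2 : ∀ n, eLpNorm (ψ (φ1 (φ2 (φ3 n)))) 4 volume ≤ ENNReal.ofReal (B ^ (1 / 4 : ℝ)) := by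
        intro n
        have h0 : 0 ≤ ∫ x, ‖ψ (φ1 (φ2 (φ3 n))) x‖ ^ (4 : ℕ) := integral_nonneg fun x => by positivity
        rw [(H _).l4.eLpNorm_eq_integral_rpow_norm (by norm_num) (by norm_num)]
        apply ENNReal.ofReal_le_ofReal
        simp only [ENNReal.toReal_ofNat, Real.rpow_ofNat]
        rw [show (4 : ℝ)⁻¹ = 1 / 4 by norm_num]
        apply Real.rpow_le_rpow h0 _ (by norm_num)
        refine le_trans (le_of_eq ?_) (hB4 (φ1 (φ2 (φ3 n))))
        congr 1; funext x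
        rw [Real.norm_eq_abs, ← abs_pow, abs_of_nonneg]
        positivity
      refine lt_of_le_of_lt h1 (lt_of_le_of_lt ?_ (ENNReal.ofReal_lt_top (r := B ^ (1 / 4 : ℝ))))
      exact liminf_le_of_le (by isBoundedDefault) (fun b hb => by
        obtain ⟨n, hn⟩ := hb.exists
        exact hn.trans (h2 n))
    · filter_upwards [hae] with x hx
      have := hx.add_const (ψ' x)
      simpa using this
  refine ⟨ψ', g', fun n => φ1 (φ2 (φ3 n)), ⟨hψ', h4, hg', hgrad⟩,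
    hφ1.comp (hφ2.comp hφ3), ?_, ?_, ?_, hae⟩
  · intro η hη
    exact (hwz η hη).comp hφ3.tendsto_atTop
  · intro η hη
    exact (hwz2 η hη).comp hφ3.tendsto_atTop
  · intro R
    exact (hloc R).comp hφ3.tendsto_atTop

end Pool.Agent.W_b91f46_p2
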