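import Mathlib
import Pool.Agent.W_b91f46_p2.WeakGrad
import Pool.Agent.W_b91f46_p2.Kernel

/-!
Radial cut-off functions with gradient bounds.
-/

open MeasureTheory Metric Set Filter Topology
open scoped ENNReal

namespace Pool.Agent.W_b91f46_p2

lemma deriv_transition_zero {t : ℝ} (ht : t ≤ 0 ∨ 1 ≤ t) : deriv Real.smoothTransition t = 0 := by
  rcases ht with ht | ht
  · apply IsLocalMin.deriv_eq_zero
    filter_upwards with s
    rw [Real.smoothTransition.zero_of_nonpos ht]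
    exact Real.smoothTransition.nonneg s
  · apply IsLocalMax.deriv_eq_zero
    filter_upwards with s
    rw [Real.smoothTransition.one_of_one_le ht]
    exact Real.smoothTransition.le_one s

lemma transition_contDiff : ContDiff ℝ (⊤ : ℕ∞) Real.smoothTransition :=
  Real.smoothTransition.contDiff

lemma exists_deriv_bound : ∃ C : ℝ, 0 < C ∧ ∀ t, |deriv Real.smoothTransition t| ≤ C := by
  have hc : Continuous (deriv Real.smoothTransition) :=
    transition_contDiff.continuous_deriv (by simp)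
  obtain ⟨C, hC⟩ := (isCompact_Icc (a := (0 : ℝ)) (b := 1)).exists_bound_of_continuousOn
    hc.continuousOn
  refine ⟨max C 1, lt_max_of_lt_right one_pos, fun t => ?_⟩
  by_cases ht : t ∈ Icc (0 : ℝ) 1
  · exact (hC t ht).trans (le_max_left _ _)
  · have h0 : deriv Real.smoothTransition t = 0 := by
      apply deriv_transition_zero
      by_contra hcon
      push Not at hcon
      exact ht ⟨hcon.1.le, hcon.2.le⟩
    rw [h0, abs_zero]
    exact (zero_le_one).trans (le_max_right _ _)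

/-- the radial cut-off. -/
noncomputable def bump (a b : ℝ) (x : E3) : ℝ :=
  Real.smoothTransition ((b ^ 2 - ‖x‖ ^ 2) / (b ^ 2 - a ^ 2))

section
variable {a b : ℝ}

lemma bump_contDiff : ContDiff ℝ (⊤ : ℕ∞) (bump a b) := by
  unfold bump
  apply transition_contDiff.comp
  apply ContDiff.div_const
  exact contDiff_const.sub (contDiff_norm_sq ℝ)

lemma bump_nonneg (x : E3) : 0 ≤ bump a b x := Real.smoothTransition.nonneg _

lemma bump_le_one (x : E3) : bump a b x ≤ 1 := Real.smoothTransition.le_one _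

lemma sq_diff_pos (ha : 0 < a) (hab : a < b) : 0 < b ^ 2 - a ^ 2 := by nlinarith

lemma bump_one (ha : 0 < a) (hab : a < b) {x : E3} (hx : ‖x‖ ≤ a) : bump a b x = 1 := by
  apply Real.smoothTransition.one_of_one_le
  rw [le_div_iff₀ (sq_diff_pos ha hab)]
  have := norm_nonneg x
  nlinarith

lemma bump_zero (ha : 0 < a) (hab : a < b) {x : E3} (hx : b ≤ ‖x‖) : bump a b x = 0 := by
  apply Real.smoothTransition.zero_of_nonpos
  apply div_nonpos_of_nonpos_of_nonneg _ (sq_diff_pos ha hab).le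
  have := norm_nonneg x
  nlinarith

lemma bump_support (ha : 0 < a) (hab : a < b) : HasCompactSupport (bump a b) := by
  apply HasCompactSupport.of_support_subset_isCompact (isCompact_closedBall (0 : E3) b)
  intro x hx
  rw [mem_closedBall_zero_iff]
  by_contra hcon
  push Not at hcon
  exact hx (bump_zero ha hab hcon.le)

lemma bump_adm (ha : 0 < a) (hab : a < b) : Adm (bump a b) (fun x => gradient (bump a b) x) :=
  Adm.of_smooth bump_contDiff (bump_support ha hab)

lemma bump_fderiv (x : E3) : fderiv ℝ (bump a b) x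
    = deriv Real.smoothTransition ((b ^ 2 - ‖x‖ ^ 2) / (b ^ 2 - a ^ 2)) •
      ((b ^ 2 - a ^ 2)⁻¹ • (-((2 : ℕ) • innerSL ℝ x) : E3 →L[ℝ] ℝ)) := by
  apply HasFDerivAt.fderiv
  have h1 : HasFDerivAt (fun x : E3 => ‖x‖ ^ 2) (2 • innerSL ℝ x) x :=
    (hasStrictFDerivAt_norm_sq x).hasFDerivAt
  have h2 : HasFDerivAt (fun x : E3 => (b ^ 2 - a ^ 2)⁻¹ * (b ^ 2 - ‖x‖ ^ 2))
      ((b ^ 2 - a ^ 2)⁻¹ • (-((2 : ℕ) • innerSL ℝ x) : E3 →L[ℝ] ℝ)) x := (h1.const_sub (b ^ 2)).const_mul _
  have h3 : HasFDerivAt (fun x : E3 => (b ^ 2 - ‖x‖ ^ 2) / (b ^ 2 - a ^ 2))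
      ((b ^ 2 - a ^ 2)⁻¹ • (-((2 : ℕ) • innerSL ℝ x) : E3 →L[ℝ] ℝ)) x := by
    convert! h2 using 1
    funext y
    rw [div_eq_inv_mul]
  have h4 : HasDerivAt Real.smoothTransition
      (deriv Real.smoothTransition ((b ^ 2 - ‖x‖ ^ 2) / (b ^ 2 - a ^ 2)))
      ((b ^ 2 - ‖x‖ ^ 2) / (b ^ 2 - a ^ 2)) :=
    (transition_contDiff.differentiable (by simp) _).hasDerivAt
  exact h4.comp_hasFDerivAt x h3

lemma norm_gradient (k : E3 → ℝ) (x : E3) : ‖gradient k x‖ = ‖fderiv ℝ k x‖ := by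
  unfold gradient
  exact LinearIsometryEquiv.norm_map _ _

lemma bump_grad_zero (ha : 0 < a) (hab : a < b) {x : E3} (hx : ‖x‖ ≤ a ∨ b ≤ ‖x‖) :
    gradient (bump a b) x = 0 := by
  rw [← norm_eq_zero, norm_gradient, bump_fderiv]
  have h0 : deriv Real.smoothTransition ((b ^ 2 - ‖x‖ ^ 2) / (b ^ 2 - a ^ 2)) = 0 := by
    apply deriv_transition_zero
    have := norm_nonneg x
    rcases hx with hx | hx
    · right
      rw [le_div_iff₀ (sq_diff_pos ha hab)]
      nlinarith
    · left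
      apply div_nonpos_of_nonpos_of_nonneg _ (sq_diff_pos ha hab).le
      nlinarith
  rw [h0, zero_smul, norm_zero]

lemma bump_grad_le {C : ℝ} (hC0 : 0 < C) (hC : ∀ t, |deriv Real.smoothTransition t| ≤ C)
    (ha : 0 < a) (hab : a < b) (x : E3) : ‖gradient (bump a b) x‖ ≤ 2 * C / (b - a) := by
  have hba : 0 < b - a := by linarith
  by_cases hx : b ≤ ‖x‖
  · rw [bump_grad_zero ha hab (Or.inr hx), norm_zero]
    positivity
  · push Not at hx
    rw [norm_gradient, bump_fderiv, norm_smul, norm_smul, norm_neg, Real.norm_eq_abs]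
    have h1 : ‖(2 : ℕ) • innerSL ℝ x‖ = 2 * ‖x‖ := by
      rw [← Nat.cast_smul_eq_nsmul ℝ, norm_smul, innerSL_apply_norm]
      simp
    rw [h1]
    have h2 : 0 < b ^ 2 - a ^ 2 := sq_diff_pos ha hab
    have h3 : ‖(b ^ 2 - a ^ 2)⁻¹‖ = (b ^ 2 - a ^ 2)⁻¹ := Real.norm_of_nonneg (by positivity)
    rw [h3]
    have h4 : (b ^ 2 - a ^ 2)⁻¹ * (2 * ‖x‖) ≤ 2 / (b - a) := by
      rw [inv_mul_le_iff₀ h2, mul_div_assoc', le_div_iff₀ hba]
      have h5 : (b ^ 2 - a ^ 2) = (b - a) * (b + a) := by ring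
      rw [h5]
      nlinarith [norm_nonneg x]
    calc _ ≤ C * (2 / (b - a)) := by
          apply mul_le_mul (hC _) h4 _ hC0.le
          positivity
      _ = 2 * C / (b - a) := by ring

end

end Pool.Agent.W_b91f46_p2
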