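import Mathlib

/-!
Elementary inequalities for the local energy density.
-/

namespace Pool.Agent.W_b91f46_p2

/-- The shifted local energy density as a function of `ψ`. -/
noncomputable def wv (u : ℝ) : ℝ := u ^ 4 - 3 * |u| ^ (8 / 3 : ℝ) + 2 * u ^ 2

/-- half of the derivative of `wv`, on nonnegative arguments. -/
noncomputable def Pv (u : ℝ) : ℝ := 2 * u ^ 3 - 4 * |u| ^ (5 / 3 : ℝ) + 2 * u

lemma exists_cube_root {u : ℝ} (hu : 0 ≤ u) : ∃ t : ℝ, 0 ≤ t ∧ t ^ 3 = u := by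
  refine ⟨u ^ (1 / 3 : ℝ), Real.rpow_nonneg hu _, ?_⟩
  rw [← Real.rpow_natCast, ← Real.rpow_mul hu]
  norm_num

lemma rpow_cube {t : ℝ} (ht : 0 ≤ t) (n : ℕ) : (t ^ 3) ^ ((n : ℝ) / 3) = t ^ n := by
  rw [← Real.rpow_natCast t 3, ← Real.rpow_mul ht, ← Real.rpow_natCast t n]
  congr 1
  push_cast
  ring

lemma rpow_83 {t : ℝ} (ht : 0 ≤ t) : (t ^ 3) ^ (8 / 3 : ℝ) = t ^ 8 := by
  have := rpow_cube ht 8
  simpa using this

lemma rpow_53 {t : ℝ} (ht : 0 ≤ t) : (t ^ 3) ^ (5 / 3 : ℝ) = t ^ 5 := by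
  have := rpow_cube ht 5
  simpa using this

lemma wv_cube {t : ℝ} (ht : 0 ≤ t) : wv (t ^ 3) = t ^ 6 * (t ^ 2 - 1) ^ 2 * (t ^ 2 + 2) := by
  unfold wv
  rw [abs_of_nonneg (by positivity), rpow_83 ht]
  ring

lemma Pv_cube {t : ℝ} (ht : 0 ≤ t) : Pv (t ^ 3) = 2 * t ^ 9 - 4 * t ^ 5 + 2 * t ^ 3 := by
  unfold Pv
  rw [abs_of_nonneg (by positivity), rpow_53 ht]
  ring

lemma wv_abs (u : ℝ) : wv |u| = wv u := by
  unfold wv
  rw [abs_abs, ← abs_pow, sq_abs]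
  congr 3
  rw [abs_of_nonneg (by positivity)]

lemma wv_cases {p : ℝ → ℝ → Prop} (h : ∀ t : ℝ, 0 ≤ t →
    p (t ^ 3) (t ^ 6 * (t ^ 2 - 1) ^ 2 * (t ^ 2 + 2))) (u : ℝ) : p |u| (wv u) := by
  obtain ⟨t, ht, htu⟩ := exists_cube_root (abs_nonneg u)
  rw [← wv_abs, ← htu, wv_cube ht]
  exact h t ht

lemma wv_nonneg (u : ℝ) : 0 ≤ wv u := by
  refine wv_cases (p := fun _ w => 0 ≤ w) (fun t ht => by positivity) u

/-- `u⁴ / 2 ≤ w + u²`. -/
lemma wv_ge_quartic (u : ℝ) : u ^ 4 / 2 ≤ wv u + u ^ 2 := by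
  have := wv_cases (p := fun v w => v ^ 4 / 2 ≤ w + v ^ 2) (fun t ht => by
    have h1 : 0 ≤ t ^ 6 * ((t ^ 2) ^ 3 / 2 - 3 * t ^ 2 + 3) := by
      have h2 : 0 ≤ (t ^ 2) ^ 3 / 2 - 3 * t ^ 2 + 3 := by
        have hy : 0 ≤ t ^ 2 := by positivity
        nlinarith [sq_nonneg (t ^ 2 - 7 / 5), mul_nonneg hy (sq_nonneg (t ^ 2 - 7 / 5))]
      positivity
    nlinarith [h1]) u
  have e1 : |u| ^ 4 = u ^ 4 := by
    rw [← abs_pow, abs_of_nonneg (by positivity)]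
  rwa [e1, sq_abs] at this

/-- small densities cost energy. -/
lemma wv_ge_small {u : ℝ} (hu : u ^ 2 < 1 / 8) : u ^ 2 ≤ 2 * wv u := by
  have := wv_cases (p := fun v w => v ^ 2 < 1 / 8 → v ^ 2 ≤ 2 * w) (fun t ht => by
    intro h
    have h1 : (t ^ 2) ^ 3 < (1 / 2) ^ 3 := by
      calc (t ^ 2) ^ 3 = (t ^ 3) ^ 2 := by ring
        _ < 1 / 8 := h
        _ = (1 / 2) ^ 3 := by norm_num
    have h2 : t ^ 2 < 1 / 2 := lt_of_pow_lt_pow_left₀ 3 (by norm_num) h1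
    have hy : 0 ≤ t ^ 2 := by positivity
    have h3 : 1 ≤ 2 * ((t ^ 2 - 1) ^ 2 * (t ^ 2 + 2)) := by
      nlinarith [mul_nonneg hy hy, mul_nonneg hy (mul_nonneg hy hy)]
    have h4 : 0 ≤ t ^ 6 := by positivity
    nlinarith [mul_le_mul_of_nonneg_left h3 h4]) u
  rw [sq_abs] at this
  exact this hu

/-- densities below the threshold `0.95³` cost energy. -/
lemma wv_ge_mid {u : ℝ} (hu0 : 0 ≤ u) (hu : u < (19 / 20) ^ 3) : u ^ 2 ≤ 60 * wv u := by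
  have := wv_cases (p := fun v w => v < (19 / 20) ^ 3 → v ^ 2 ≤ 60 * w) (fun t ht => by
    intro h
    have h2 : t < 19 / 20 := lt_of_pow_lt_pow_left₀ 3 (by norm_num) h
    have hy : 0 ≤ t ^ 2 := by positivity
    have hy2 : t ^ 2 ≤ 361 / 400 := by nlinarith
    have h3 : 1 ≤ 60 * ((t ^ 2 - 1) ^ 2 * (t ^ 2 + 2)) := by
      have h5 : (39 / 400) ^ 2 ≤ (t ^ 2 - 1) ^ 2 := by nlinarith
      nlinarith [mul_nonneg hy (sq_nonneg (t ^ 2 - 1))]
    have h4 : 0 ≤ t ^ 6 := by positivity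
    nlinarith [mul_le_mul_of_nonneg_left h3 h4]) u
  rw [sq_abs, abs_of_nonneg hu0] at this
  exact this hu

/-- intermediate densities cost a definite amount of energy. -/
lemma wv_ge_const {u : ℝ} (hu : u < (19 / 20) ^ 3) (hu' : (7 / 10) ^ 3 ≤ u) :
    1 / 600 ≤ wv u := by
  have h0 : 0 ≤ u := le_trans (by norm_num) hu'
  have h1 := wv_ge_mid h0 hu
  nlinarith

/-- large densities cost energy. -/
lemma wv_ge_large (u : ℝ) : u ^ 2 ≤ 8 + wv u := by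
  have := wv_cases (p := fun v w => v ^ 2 ≤ 8 + w) (fun t ht => by
    have hy : 0 ≤ t ^ 2 := by positivity
    by_cases h : t ^ 2 ≤ 2
    · have h1 : (t ^ 2) ^ 3 ≤ 2 ^ 3 := pow_le_pow_left₀ hy h 3
      have h2 : 0 ≤ t ^ 6 * (t ^ 2 - 1) ^ 2 * (t ^ 2 + 2) := by positivity
      nlinarith
    · push Not at h
      have h3 : 1 ≤ (t ^ 2 - 1) ^ 2 * (t ^ 2 + 2) := by nlinarith [sq_nonneg (t ^ 2 - 2)]
      have h4 : 0 ≤ t ^ 6 := by positivity
      nlinarith [mul_le_mul_of_nonneg_left h3 h4]) u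
  rwa [sq_abs] at this

/-- upper bound for the density of the trial function. -/
lemma wv_le_two {u : ℝ} (h0 : 0 ≤ u) (h1 : u ≤ 1) : wv u ≤ 2 := by
  have := wv_cases (p := fun v w => v ≤ 1 → w ≤ 2) (fun t ht => by
    intro h
    have h2 : t ≤ 1 := by
      by_contra hc
      push Not at hc
      have : 1 < t ^ 3 := one_lt_pow₀ hc (by norm_num)
      linarith
    have hy : 0 ≤ t ^ 2 := by positivity
    have hy2 : t ^ 2 ≤ 1 := pow_le_one₀ ht h2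
    have h6 : t ^ 6 ≤ 1 := pow_le_one₀ ht h2
    have h60 : 0 ≤ t ^ 6 := by positivity
    have h3 : (t ^ 2 - 1) ^ 2 * (t ^ 2 + 2) ≤ 2 := by
      nlinarith [mul_nonneg hy (sub_nonneg.2 hy2), mul_nonneg hy hy]
    have h30 : 0 ≤ (t ^ 2 - 1) ^ 2 * (t ^ 2 + 2) := by positivity
    calc t ^ 6 * (t ^ 2 - 1) ^ 2 * (t ^ 2 + 2) = t ^ 6 * ((t ^ 2 - 1) ^ 2 * (t ^ 2 + 2)) := by ring
      _ ≤ 1 * 2 := mul_le_mul h6 h3 h30 (by norm_num)
      _ = 2 := by norm_num) u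
  rw [abs_of_nonneg h0] at this
  exact this h1

lemma wv_zero : wv 0 = 0 := by
  have := wv_cube (le_refl (0 : ℝ))
  simpa using this

lemma wv_one : wv 1 = 0 := by
  have := wv_cube (zero_le_one (α := ℝ))
  simpa using this

/-- monotonicity of the first variation in the bulk. -/
lemma Pv_mono {v : ℝ} (hv : v ≤ 1 / 10) {u₁ u₂ : ℝ} (h1 : (19 / 20) ^ 3 ≤ u₁) (h12 : u₁ ≤ u₂) :
    Pv u₁ - v * u₁ ≤ Pv u₂ - v * u₂ := by
  have hu1 : 0 ≤ u₁ := le_trans (by norm_num) h1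
  obtain ⟨t₁, ht1, rfl⟩ := exists_cube_root hu1
  obtain ⟨t₂, ht2, rfl⟩ := exists_cube_root (hu1.trans h12)
  have h12' : t₁ ≤ t₂ := by
    by_contra hc
    push Not at hc
    have := pow_lt_pow_left₀ hc ht2 (n := 3) (by norm_num)
    linarith
  have h1' : 19 / 20 ≤ t₁ := by
    by_contra hc
    push Not at hc
    have := pow_lt_pow_left₀ hc ht1 (n := 3) (by norm_num)
    linarith
  rw [Pv_cube ht1, Pv_cube ht2]
  have key : MonotoneOn (fun t : ℝ => 2 * t ^ 9 - 4 * t ^ 5 + 2 * t ^ 3 - v * t ^ 3)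
      (Set.Ici (19 / 20)) := by
    apply monotoneOn_of_deriv_nonneg (convex_Ici _)
    · fun_prop
    · fun_prop
    · intro t ht
      rw [interior_Ici, Set.mem_Ioi] at ht
      have hd : HasDerivAt (fun t : ℝ => 2 * t ^ 9 - 4 * t ^ 5 + 2 * t ^ 3 - v * t ^ 3)
          (2 * (9 * t ^ 8) - 4 * (5 * t ^ 4) + 2 * (3 * t ^ 2) - v * (3 * t ^ 2)) t := by
        have h9 := (hasDerivAt_pow 9 t).const_mul 2
        have h5 := (hasDerivAt_pow 5 t).const_mul 4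
        have h3 := (hasDerivAt_pow 3 t).const_mul 2
        have h3' := (hasDerivAt_pow 3 t).const_mul v
        have := ((h9.sub h5).add h3).sub h3'
        norm_num at this
        exact this
      rw [hd.deriv]
      have hy : 361 / 400 < t ^ 2 := by nlinarith
      have h6 : 0 ≤ 18 * (t ^ 2) ^ 3 - 20 * t ^ 2 + 6 - 3 * v := by
        nlinarith [mul_pos (sub_pos.2 hy) (sub_pos.2 hy), mul_pos (mul_pos (sub_pos.2 hy) (sub_pos.2 hy)) (sub_pos.2 hy)]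
      have h7 : 0 ≤ t ^ 2 := by positivity
      nlinarith [mul_nonneg h7 h6]
  have := key (Set.mem_Ici.2 h1') (Set.mem_Ici.2 (h1'.trans h12')) h12'
  simp only at this
  linarith

lemma Pv_ge {v : ℝ} (hv : v ≤ 1 / 10) {u : ℝ} (h0 : 0 ≤ u) : -4 ≤ Pv u - v * u := by
  obtain ⟨t, ht, rfl⟩ := exists_cube_root h0
  rw [Pv_cube ht]
  by_cases h : t ≤ 1
  · have h5 : t ^ 5 ≤ 1 := pow_le_one₀ ht h
    have h9 : 0 ≤ t ^ 9 := by positivity
    have h3 : 0 ≤ t ^ 3 := by positivity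
    nlinarith
  · push Not at h
    have h3 : 0 ≤ t ^ 3 := by positivity
    have h4 : 0 ≤ t ^ 3 * (t ^ 2 - 1) ^ 2 := by positivity
    have h5 : 0 ≤ t ^ 5 * (t ^ 2 - 1) ^ 2 := by positivity
    have h6 : 1 < t ^ 2 := by nlinarith
    nlinarith [mul_nonneg h3 (sub_nonneg.2 h6.le), mul_nonneg (pow_nonneg ht 5) (sub_nonneg.2 h6.le), mul_nonneg (pow_nonneg ht 7) (sub_nonneg.2 h6.le)]

end Pool.Agent.W_b91f46_p2
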