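import Mathlib
import Pool.Agent.W_b91f46_p2.WeakGrad
import Pool.Agent.W_b91f46_p2.Kernel
import Pool.Agent.W_b91f46_p2.Calc

/-!
The parts of the energy and their elementary properties.
-/

open MeasureTheory Metric Set Filter Topology
open scoped ENNReal

namespace Pool.Agent.W_b91f46_p2

noncomputable def mass (ψ : E3 → ℝ) : ℝ := ∫ x, ψ x ^ 2
noncomputable def kin (g : E3 → E3) : ℝ := ∫ x, ‖g x‖ ^ 2
noncomputable def wint (ψ : E3 → ℝ) : ℝ := ∫ x, wv (ψ x)
noncomputable def coul (ψ : E3 → ℝ) : ℝ := 1 / 2 * BB (fun x => ψ x ^ 2) (fun x => ψ x ^ 2)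
noncomputable def nuc (ψ : E3 → ℝ) : ℝ := pot (fun x => ψ x ^ 2) 0
noncomputable def Gf (A : ℝ) (ψ : E3 → ℝ) (g : E3 → E3) : ℝ := A * kin g + wint ψ + coul ψ
noncomputable def Ff (A v z : ℝ) (ψ : E3 → ℝ) (g : E3 → E3) : ℝ :=
  Gf A ψ g - v * mass ψ - z * nuc ψ

lemma continuous_wv : Continuous wv := by
  unfold wv
  have h : Continuous (fun u : ℝ => |u| ^ (8 / 3 : ℝ)) :=
    continuous_abs.rpow_const (fun x => Or.inr (by norm_num))
  fun_prop

lemma wv_le (u : ℝ) : wv u ≤ u ^ 4 + 2 * u ^ 2 := by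
  unfold wv
  have : 0 ≤ |u| ^ (8 / 3 : ℝ) := Real.rpow_nonneg (abs_nonneg _) _
  linarith

section
variable {ψ : E3 → ℝ}

lemma wv_integrable (h2 : MemLp ψ 2) (h4 : MemLp ψ 4) : Integrable (fun x => wv (ψ x)) := by
  refine ((four_integrable h4).add ((sq_integrable' h2).const_mul 2)).mono'
    (continuous_wv.comp_aestronglyMeasurable h2.aestronglyMeasurable) ?_
  filter_upwards with x
  rw [Real.norm_of_nonneg (wv_nonneg _)]
  exact wv_le _

lemma mass_nonneg : 0 ≤ mass ψ := integral_nonneg fun x => sq_nonneg _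

lemma kin_nonneg {g : E3 → E3} : 0 ≤ kin g := integral_nonneg fun x => by positivity

lemma wint_nonneg : 0 ≤ wint ψ := integral_nonneg fun x => wv_nonneg _

lemma coul_nonneg : 0 ≤ coul ψ := by
  unfold coul BB
  have : 0 ≤ ∫ x, ψ x ^ 2 * pot (fun x => ψ x ^ 2) x :=
    integral_nonneg fun x => mul_nonneg (sq_nonneg _) (pot_nonneg (fun y => sq_nonneg _) x)
  linarith

lemma nuc_nonneg : 0 ≤ nuc ψ := pot_nonneg (fun y => sq_nonneg _) 0

lemma quartic_le (h2 : MemLp ψ 2) (h4 : MemLp ψ 4) :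
    ∫ x, ψ x ^ 4 ≤ 2 * wint ψ + 2 * mass ψ := by
  unfold wint mass
  rw [← integral_const_mul, ← integral_const_mul,
    ← integral_add ((wv_integrable h2 h4).const_mul 2) ((sq_integrable' h2).const_mul 2)]
  apply integral_mono (four_integrable h4)
    (((wv_integrable h2 h4).const_mul 2).add ((sq_integrable' h2).const_mul 2))
  intro x
  show ψ x ^ 4 ≤ 2 * wv (ψ x) + 2 * ψ x ^ 2
  have := wv_ge_quartic (ψ x)
  linarith

lemma sqsq_integrable (h4 : MemLp ψ 4) : Integrable (fun x => (ψ x ^ 2) ^ 2) := by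
  refine (four_integrable h4).congr ?_
  filter_upwards with x
  ring

lemma sqsq_integral : ∫ x, (ψ x ^ 2) ^ 2 = ∫ x, ψ x ^ 4 := by
  congr 1; funext x; ring

lemma abs_sq_integral : ∫ x, |ψ x ^ 2| = mass ψ := by
  unfold mass
  congr 1; funext x
  exact abs_of_nonneg (sq_nonneg _)

lemma pot_sq_le (h2 : MemLp ψ 2) (h4 : MemLp ψ 4) (x : E3) :
    pot (fun y => ψ y ^ 2) x ≤ (∫ y, ψ y ^ 4) + c3 + mass ψ := by
  have h := abs_pot_le (sq_integrable' h2) (sqsq_integrable h4) x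
  rw [sqsq_integral, abs_sq_integral] at h
  exact (le_abs_self _).trans h

lemma Gf_nonneg {A : ℝ} (hA : 0 ≤ A) {g : E3 → E3} : 0 ≤ Gf A ψ g := by
  unfold Gf
  have h1 := mul_nonneg hA (kin_nonneg (g := g))
  have h2 := wint_nonneg (ψ := ψ)
  have h3 := coul_nonneg (ψ := ψ)
  linarith

/-! ### translations -/

lemma mass_translate (a : E3) : mass (fun x => ψ (x + a)) = mass ψ :=
  integral_add_right_eq_self (fun x => ψ x ^ 2) a

lemma kin_translate {g : E3 → E3} (a : E3) : kin (fun x => g (x + a)) = kin g :=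
  integral_add_right_eq_self (fun x => ‖g x‖ ^ 2) a

lemma wint_translate (a : E3) : wint (fun x => ψ (x + a)) = wint ψ :=
  integral_add_right_eq_self (fun x => wv (ψ x)) a

lemma pot_translate (f : E3 → ℝ) (a x : E3) : pot (fun y => f (y + a)) x = pot f (x + a) := by
  unfold pot
  rw [← integral_add_right_eq_self (fun y => f y / ‖x + a - y‖) a]
  congr 1; funext y
  congr 2
  abel

lemma coul_translate (a : E3) : coul (fun x => ψ (x + a)) = coul ψ := by
  unfold coul BB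
  congr 1
  have h : ∀ x, pot (fun y => ψ (y + a) ^ 2) x = pot (fun y => ψ y ^ 2) (x + a) := fun x =>
    pot_translate (fun y => ψ y ^ 2) a x
  simp only [h]
  exact integral_add_right_eq_self (fun x => ψ x ^ 2 * pot (fun y => ψ y ^ 2) x) a

lemma Gf_translate {A : ℝ} {g : E3 → E3} (a : E3) :
    Gf A (fun x => ψ (x + a)) (fun x => g (x + a)) = Gf A ψ g := by
  unfold Gf
  rw [kin_translate, wint_translate, coul_translate]

lemma nuc_translate (a : E3) : nuc (fun x => ψ (x + a)) = pot (fun y => ψ y ^ 2) a := by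
  unfold nuc
  rw [pot_translate (fun y => ψ y ^ 2) a 0, zero_add]

end

/-! ### congruence -/

lemma mass_congr {ψ φ : E3 → ℝ} (h : ψ =ᵐ[volume] φ) : mass ψ = mass φ := by
  unfold mass
  apply integral_congr_ae
  filter_upwards [h] with x hx
  rw [hx]

lemma wint_congr {ψ φ : E3 → ℝ} (h : ψ =ᵐ[volume] φ) : wint ψ = wint φ := by
  unfold wint
  apply integral_congr_ae
  filter_upwards [h] with x hx
  rw [hx]

lemma pot_congr {f g : E3 → ℝ} (h : f =ᵐ[volume] g) (x : E3) : pot f x = pot g x := by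
  unfold pot
  apply integral_congr_ae
  filter_upwards [h] with y hy
  rw [hy]

lemma sq_congr {ψ φ : E3 → ℝ} (h : ψ =ᵐ[volume] φ) :
    (fun x => ψ x ^ 2) =ᵐ[volume] (fun x => φ x ^ 2) := by
  filter_upwards [h] with x hx
  rw [hx]

lemma coul_congr {ψ φ : E3 → ℝ} (h : ψ =ᵐ[volume] φ) : coul ψ = coul φ := by
  unfold coul BB
  congr 1
  apply integral_congr_ae
  filter_upwards [h] with x hx
  rw [hx, pot_congr (sq_congr h)]

lemma nuc_congr {ψ φ : E3 → ℝ} (h : ψ =ᵐ[volume] φ) : nuc ψ = nuc φ := pot_congr (sq_congr h) 0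

lemma Gf_congr {A : ℝ} {ψ φ : E3 → ℝ} {g : E3 → E3} (h : ψ =ᵐ[volume] φ) :
    Gf A ψ g = Gf A φ g := by
  unfold Gf
  rw [wint_congr h, coul_congr h]

lemma Ff_congr {A v z : ℝ} {ψ φ : E3 → ℝ} {g : E3 → E3} (h : ψ =ᵐ[volume] φ) :
    Ff A v z ψ g = Ff A v z φ g := by
  unfold Ff
  rw [Gf_congr h, mass_congr h, nuc_congr h]

/-! ### comparison with the energy of the statement -/

lemma Jfun_eq (u : ℝ) : Jfun 2 4 2 (u ^ 2) = wv u - 2 * u ^ 2 := by
  unfold Jfun wv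
  have h1 : (u ^ 2) ^ (2 : ℝ) = u ^ 4 := by
    rw [Real.rpow_ofNat]; ring
  have h2 : (u ^ 2) ^ (4 / 3 : ℝ) = |u| ^ (8 / 3 : ℝ) := by
    rw [← sq_abs, ← Real.rpow_natCast |u| 2, ← Real.rpow_mul (abs_nonneg u)]
    congr 1
    norm_num
  rw [h1, h2]
  ring

lemma energy_eq {A z : ℝ} {ψ : E3 → ℝ} {g : E3 → E3} (h2 : MemLp ψ 2) (h4 : MemLp ψ 4) :
    energy A 2 4 2 z ψ g = Ff A 2 z ψ g := by
  unfold energy Ff Gf kin wint coul mass nuc pot BB
  have e1 : ∫ x, Jfun 2 4 2 (ψ x ^ 2) = (∫ x, wv (ψ x)) - 2 * ∫ x, ψ x ^ 2 := by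
    rw [← integral_const_mul, ← integral_sub (wv_integrable h2 h4) ((sq_integrable' h2).const_mul 2)]
    congr 1; funext x
    exact Jfun_eq _
  have e2 : ∫ x, ψ x ^ 2 / ‖x‖ = ∫ y, ψ y ^ 2 / ‖(0 : E3) - y‖ := by
    congr 1; funext x
    rw [zero_sub, norm_neg]
  have e3 : ∫ x, ∫ y, ψ x ^ 2 * ψ y ^ 2 / ‖x - y‖
      = ∫ x, ψ x ^ 2 * pot (fun x => ψ x ^ 2) x := by
    congr 1; funext x
    unfold pot
    rw [← integral_const_mul]
    congr 1; funext y
    ring
  rw [e1, e2, e3]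
  unfold pot
  ring

lemma isAdmissible_iff {ψ : E3 → ℝ} {g : E3 → E3} : IsAdmissible 2 ψ g ↔ Adm ψ g := by
  have e : ENNReal.ofReal (2 * 2) = 4 := by
    norm_num
  constructor
  · intro h
    exact ⟨h.memL2, by rw [← e]; exact h.memL2p, h.gradMem, h.weakGradient⟩
  · intro h
    exact ⟨h.l2, by rw [e]; exact h.l4, h.g2, h.weak⟩

end Pool.Agent.W_b91f46_p2
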