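import Mathlib
import Pool.Agent.W_b91f46_p2.Avg
import Pool.Agent.W_b91f46_p2.Functionals

/-!
Functions of small energy per unit mass do not vanish.
-/

open MeasureTheory Metric Set Filter Topology
open scoped ENNReal

namespace Pool.Agent.W_b91f46_p2

lemma pot_ge_ball {ψ : E3 → ℝ} (h2 : MemLp ψ 2) (h4 : MemLp ψ 4) {ℓ : ℝ} (hℓ : 0 < ℓ) (x : E3) :
    1 / ℓ * (∫ h in ball (0 : E3) ℓ, ψ (x + h) ^ 2) ≤ pot (fun y => ψ y ^ 2) x := by
  have a1 := sq_integrable' h2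
  have a2 := sqsq_integrable h4
  have e : pot (fun y => ψ y ^ 2) x = ∫ h, ψ (x + h) ^ 2 / ‖h‖ := by
    unfold pot
    rw [← integral_add_left_eq_self (fun y => ψ y ^ 2 / ‖x - y‖) x]
    congr 1; funext h
    rw [sub_add_cancel_left, norm_neg]
  have hi : Integrable (fun h => ψ (x + h) ^ 2 / ‖h‖) := by
    have h0 := (pot_integrable a1 a2 x).comp_add_left x
    refine h0.congr ?_
    filter_upwards with h
    rw [sub_add_cancel_left, norm_neg]
  rw [e, ← integral_const_mul]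
  calc ∫ h in ball (0 : E3) ℓ, 1 / ℓ * ψ (x + h) ^ 2
      ≤ ∫ h in ball (0 : E3) ℓ, ψ (x + h) ^ 2 / ‖h‖ := by
        apply setIntegral_mono_ae_restrict ((local_sq_integrable h2 ℓ x).const_mul _)
          hi.integrableOn
        have h0 : ∀ᵐ h ∂((volume : Measure E3).restrict (ball 0 ℓ)), h ≠ 0 :=
          ae_restrict_of_ae (Measure.ae_ne volume 0)
        filter_upwards [h0, ae_restrict_mem measurableSet_ball] with h hne hm
        have h1 : ‖h‖ < ℓ := by simpa using hm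
        have h2 : 0 < ‖h‖ := norm_pos_iff.2 hne
        have h3 := one_div_le_one_div_of_le h2 h1.le
        show 1 / ℓ * ψ (x + h) ^ 2 ≤ ψ (x + h) ^ 2 / ‖h‖
        calc 1 / ℓ * ψ (x + h) ^ 2 ≤ 1 / ‖h‖ * ψ (x + h) ^ 2 :=
              mul_le_mul_of_nonneg_right h3 (sq_nonneg _)
          _ = _ := by ring
    _ ≤ ∫ h, ψ (x + h) ^ 2 / ‖h‖ := by
        apply setIntegral_le_integral hi
        filter_upwards with h
        positivity

lemma nonvan_aux {ψ : E3 → ℝ} {g : E3 → E3} (H : Adm ψ g) (hmeas : Measurable ψ) {ℓ : ℝ}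
    (hℓ : 0 < ℓ) (hsmall : ∀ x : E3, ∫ h in ball (0 : E3) ℓ, ψ (x + h) ^ 2 ≤ v1 * ℓ ^ 3 / 32) :
    mass ψ ≤ 4 * (ℓ ^ 2 * kin g) + 2 * wint ψ := by
  set V := v1 * ℓ ^ 3 with hV
  have hVpos : 0 < V := by have := v1_pos; positivity
  obtain ⟨i1, b1⟩ := avg_main hmeas H.l2 (K := kin g) kin_nonneg
    (fun a => translation_estimate H.l2 H.g2 H.weak a) hℓ
  rw [← hV] at b1
  have key : ∀ x, V * ψ x ^ 2 ≤ 4 * (∫ h in ball (0 : E3) ℓ, (ψ (x + h) - ψ x) ^ 2)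
      + 2 * V * wv (ψ x) := by
    intro x
    have h0 : 0 ≤ ∫ h in ball (0 : E3) ℓ, (ψ (x + h) - ψ x) ^ 2 :=
      integral_nonneg fun h => sq_nonneg _
    by_cases hx : ψ x ^ 2 < 1 / 8
    · have h1 := wv_ge_small hx
      nlinarith [mul_le_mul_of_nonneg_left h1 hVpos.le]
    · push Not at hx
      have h1 := avg_lower H.l2 hℓ x
      have h2 := hsmall x
      rw [← hV] at h1
      have h3 := wv_nonneg (ψ x)
      have h4 : V * (1 / 8) ≤ V * ψ x ^ 2 := mul_le_mul_of_nonneg_left hx hVpos.le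
      have h5 : 0 ≤ 2 * V * wv (ψ x) := by positivity
      nlinarith
  have i2 := sq_integrable' H.l2
  have i3 := wv_integrable H.l2 H.l4
  have hint : ∫ x, V * ψ x ^ 2 ≤ ∫ x, (4 * (∫ h in ball (0 : E3) ℓ, (ψ (x + h) - ψ x) ^ 2)
      + 2 * V * wv (ψ x)) :=
    integral_mono (i2.const_mul V) ((i1.const_mul 4).add (i3.const_mul (2 * V))) key
  rw [integral_const_mul, integral_add (i1.const_mul 4) (i3.const_mul (2 * V)),
    integral_const_mul, integral_const_mul] at hint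
  have h6 : V * mass ψ ≤ V * (4 * (ℓ ^ 2 * kin g) + 2 * wint ψ) := by
    unfold mass wint
    nlinarith
  exact le_of_mul_le_mul_left h6 hVpos

theorem nonvan {ψ : E3 → ℝ} {g : E3 → E3} (H : Adm ψ g) {ℓ : ℝ} (hℓ : 0 < ℓ) (hm : 0 < mass ψ)
    (hG : Gf (ℓ ^ 2) ψ g ≤ mass ψ / 6) :
    ∃ x, v1 * ℓ ^ 2 / 32 ≤ pot (fun y => ψ y ^ 2) x := by
  wlog hmeas : Measurable ψ generalizing ψ with Hm
  · obtain ⟨φ, hφ1, hφ2⟩ := H.l2.aestronglyMeasurable.aemeasurable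
    obtain ⟨x, hx⟩ := Hm (H.congr_ae hφ2) (by rwa [← mass_congr hφ2])
      (by rwa [← mass_congr hφ2, ← Gf_congr hφ2]) hφ1
    exact ⟨x, by rwa [pot_congr (sq_congr hφ2)]⟩
  by_contra hcon
  push Not at hcon
  have hsmall : ∀ x : E3, ∫ h in ball (0 : E3) ℓ, ψ (x + h) ^ 2 ≤ v1 * ℓ ^ 3 / 32 := by
    intro x
    have h1 := pot_ge_ball H.l2 H.l4 hℓ x
    have h2 := hcon x
    have h3 : 1 / ℓ * (∫ h in ball (0 : E3) ℓ, ψ (x + h) ^ 2) ≤ v1 * ℓ ^ 2 / 32 := h1.trans h2.le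
    rw [one_div, inv_mul_le_iff₀ hℓ] at h3
    calc _ ≤ _ := h3
      _ = _ := by ring
  have h4 := nonvan_aux H hmeas hℓ hsmall
  have h5 := kin_nonneg (g := g)
  have h6 := coul_nonneg (ψ := ψ)
  have h7 := wint_nonneg (ψ := ψ)
  have h8 : 0 ≤ ℓ ^ 2 * kin g := by positivity
  unfold Gf at hG
  linarith

end Pool.Agent.W_b91f46_p2
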