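import Mathlib
import Pool.Agent.W_b91f46_p2.AdmCompact
import Pool.Agent.W_b91f46_p2.Functionals

/-!
Splitting of the energy along sequences converging weakly and almost everywhere.
-/

open MeasureTheory Metric Set Filter Topology
open scoped ENNReal

namespace Pool.Agent.W_b91f46_p2

lemma rpow83_diff {x y : ℝ} (hy : 0 ≤ y) (hyx : y ≤ x) :
    |x ^ (8 / 3 : ℝ) - y ^ (8 / 3 : ℝ)| ≤ 8 * (x - y) * (x + x ^ 3) := by
  obtain ⟨s, hs, rfl⟩ := exists_cube_root (hy.trans hyx)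
  obtain ⟨t, ht, rfl⟩ := exists_cube_root hy
  rw [rpow_83 hs, rpow_83 ht]
  have hts : t ≤ s := by
    by_contra hc
    push Not at hc
    have := pow_lt_pow_left₀ hc hs (n := 3) (by norm_num)
    linarith
  have h1 : t ^ 8 ≤ s ^ 8 := pow_le_pow_left₀ ht hts 8
  rw [abs_of_nonneg (by linarith)]
  have hd : 0 ≤ s - t := by linarith
  have hk : ∀ k ≤ 7, t ^ k * s ^ (7 - k) ≤ s ^ 7 := by
    intro k hk
    calc t ^ k * s ^ (7 - k) ≤ s ^ k * s ^ (7 - k) :=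
          mul_le_mul_of_nonneg_right (pow_le_pow_left₀ ht hts k) (by positivity)
      _ = s ^ 7 := by rw [← pow_add]; congr 1; omega
  have h2 : s ^ 8 - t ^ 8 ≤ 8 * (s - t) * s ^ 7 := by
    have e : s ^ 8 - t ^ 8 = (s - t) * (t ^ 0 * s ^ 7 + t ^ 1 * s ^ 6 + t ^ 2 * s ^ 5 + t ^ 3 * s ^ 4
      + t ^ 4 * s ^ 3 + t ^ 5 * s ^ 2 + t ^ 6 * s ^ 1 + t ^ 7 * s ^ 0) := by ring
    rw [e]
    have h0 := hk 0 (by norm_num)
    have h1 := hk 1 (by norm_num)
    have h2 := hk 2 (by norm_num)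
    have h3 := hk 3 (by norm_num)
    have h4 := hk 4 (by norm_num)
    have h5 := hk 5 (by norm_num)
    have h6 := hk 6 (by norm_num)
    have h7 := hk 7 (by norm_num)
    simp only [Nat.sub_zero, Nat.reduceSub] at h0 h1 h2 h3 h4 h5 h6 h7
    have := mul_le_mul_of_nonneg_left (show t ^ 0 * s ^ 7 + t ^ 1 * s ^ 6 + t ^ 2 * s ^ 5
      + t ^ 3 * s ^ 4 + t ^ 4 * s ^ 3 + t ^ 5 * s ^ 2 + t ^ 6 * s ^ 1 + t ^ 7 * s ^ 0 ≤ 8 * s ^ 7 by
        linarith) hd
    linarith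
  have h3 : (s - t) * s ^ 2 ≤ s ^ 3 - t ^ 3 := by
    have e : s ^ 3 - t ^ 3 = (s - t) * (s ^ 2 + s * t + t ^ 2) := by ring
    rw [e]
    apply mul_le_mul_of_nonneg_left _ hd
    have := mul_nonneg hs ht
    have := sq_nonneg t
    linarith
  have h4 : s ^ 5 ≤ s ^ 3 + (s ^ 3) ^ 3 := by
    have e : s ^ 3 + (s ^ 3) ^ 3 - s ^ 5 = s ^ 3 * (1 - s ^ 2 + (s ^ 2) ^ 3) := by ring
    have h5 : 0 ≤ 1 - s ^ 2 + (s ^ 2) ^ 3 := by
      nlinarith [sq_nonneg (s ^ 2 - 1), sq_nonneg s, mul_nonneg (sq_nonneg s) (sq_nonneg (s ^ 2 - 1))]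
    have h6 : 0 ≤ s ^ 3 * (1 - s ^ 2 + (s ^ 2) ^ 3) := by positivity
    linarith
  calc s ^ 8 - t ^ 8 ≤ 8 * (s - t) * s ^ 7 := h2
    _ = 8 * ((s - t) * s ^ 2) * s ^ 5 := by ring
    _ ≤ 8 * (s ^ 3 - t ^ 3) * s ^ 5 := by
        apply mul_le_mul_of_nonneg_right _ (by positivity)
        linarith
    _ ≤ 8 * (s ^ 3 - t ^ 3) * (s ^ 3 + (s ^ 3) ^ 3) := by
        apply mul_le_mul_of_nonneg_left h4
        have : 0 ≤ (s - t) * s ^ 2 := by positivity
        linarith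

lemma rpow83_diff' (x y M : ℝ) (hx : |x| ≤ M) (hy : |y| ≤ M) :
    |(|x| ^ (8 / 3 : ℝ)) - |y| ^ (8 / 3 : ℝ)| ≤ 8 * |x - y| * (M + M ^ 3) := by
  have key : ∀ x y : ℝ, |x| ≤ M → |y| ≤ |x| →
      |(|x| ^ (8 / 3 : ℝ)) - |y| ^ (8 / 3 : ℝ)| ≤ 8 * |x - y| * (M + M ^ 3) := by
    intro x y hx hyx
    refine (rpow83_diff (abs_nonneg y) hyx).trans ?_
    have h1 : |x| - |y| ≤ |x - y| := abs_sub_abs_le_abs_sub x y
    have h2 : |x| ^ 3 ≤ M ^ 3 := pow_le_pow_left₀ (abs_nonneg x) hx 3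
    have h3 : 0 ≤ |x| ^ 3 := by positivity
    have h4 := abs_nonneg x
    have h5 := abs_nonneg (x - y)
    apply mul_le_mul _ (by linarith) (by linarith) (by linarith)
    linarith
  rcases le_total |y| |x| with h | h
  · exact key x y hx h
  · rw [abs_sub_comm, abs_sub_comm x y]
    exact key y x hy h

lemma wv_diff (a b : ℝ) :
    |wv (a + b) - wv b| ≤ 28 * |a| * ((|a| + |b|) + (|a| + |b|) ^ 3) := by
  set M := |a| + |b| with hM
  have ha := abs_nonneg a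
  have hb := abs_nonneg b
  have hM0 : 0 ≤ M := by positivity
  have h1 : |a + b| ≤ M := abs_add_le a b
  have h2 : |b| ≤ M := by linarith
  have h3 := rpow83_diff' (a + b) b M h1 h2
  rw [show a + b - b = a by ring] at h3
  have h4 : |(a + b) ^ 4 - b ^ 4| ≤ 4 * |a| * M ^ 3 := by
    have e : (a + b) ^ 4 - b ^ 4 = a * ((a + b) ^ 3 + (a + b) ^ 2 * b + (a + b) * b ^ 2 + b ^ 3) := by
      ring
    rw [e, abs_mul]
    have h5 : |(a + b) ^ 3 + (a + b) ^ 2 * b + (a + b) * b ^ 2 + b ^ 3| ≤ 4 * M ^ 3 := by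
      have e1 : |(a + b) ^ 3| ≤ M ^ 3 := by
        rw [abs_pow]; exact pow_le_pow_left₀ (abs_nonneg _) h1 3
      have e2 : |(a + b) ^ 2 * b| ≤ M ^ 3 := by
        rw [abs_mul, abs_pow]
        calc _ ≤ M ^ 2 * M := mul_le_mul (pow_le_pow_left₀ (abs_nonneg _) h1 2) h2 hb (by positivity)
          _ = M ^ 3 := by ring
      have e3 : |(a + b) * b ^ 2| ≤ M ^ 3 := by
        rw [abs_mul, abs_pow]
        calc _ ≤ M * M ^ 2 := mul_le_mul h1 (pow_le_pow_left₀ (abs_nonneg _) h2 2) (by positivity) hM0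
          _ = M ^ 3 := by ring
      have e4 : |b ^ 3| ≤ M ^ 3 := by
        rw [abs_pow]; exact pow_le_pow_left₀ (abs_nonneg _) h2 3
      rw [abs_le] at *
      constructor <;> linarith
    nlinarith
  have h5 : |(a + b) ^ 2 - b ^ 2| ≤ 2 * |a| * M := by
    have e : (a + b) ^ 2 - b ^ 2 = a * ((a + b) + b) := by ring
    rw [e, abs_mul]
    have h6 : |a + b + b| ≤ 2 * M := by
      have := abs_add_le (a + b) b
      linarith
    nlinarith
  unfold wv
  rw [abs_le] at h3 h4 h5 ⊢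
  have hM3 : 0 ≤ M ^ 3 := by positivity
  have hp1 : 0 ≤ |a| * M := by positivity
  have hp2 : 0 ≤ |a| * M ^ 3 := by positivity
  constructor <;> nlinarith

/-- Young-type bound used below. -/
lemma young_prod {x y K : ℝ} (hx : 0 ≤ x) (hy : 0 ≤ y) (hK : 1 ≤ K) :
    x * y ≤ K ^ 3 * x ^ 2 + y ^ 2 / K ∧ x * y ^ 3 ≤ K ^ 3 * x ^ 4 + y ^ 4 / K := by
  have hK0 : 0 < K := by linarith
  have hK3 : K ≤ K ^ 3 := le_self_pow₀ hK (by norm_num)
  by_cases h : y ≤ K * x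
  · have h1 : 0 ≤ y ^ 2 / K := by positivity
    have h2 : 0 ≤ y ^ 4 / K := by positivity
    constructor
    · have : x * y ≤ x * (K * x) := mul_le_mul_of_nonneg_left h hx
      nlinarith [mul_le_mul_of_nonneg_right hK3 (sq_nonneg x)]
    · have h3 : y ^ 3 ≤ (K * x) ^ 3 := pow_le_pow_left₀ hy h 3
      have : x * y ^ 3 ≤ x * (K * x) ^ 3 := mul_le_mul_of_nonneg_left h3 hx
      have e : x * (K * x) ^ 3 = K ^ 3 * x ^ 4 := by ring
      linarith
  · push Not at h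
    have h1 : x ≤ y / K := by
      rw [le_div_iff₀ hK0]; linarith
    constructor
    · have h2 : x * y ≤ (y / K) * y := mul_le_mul_of_nonneg_right h1 hy
      have e : (y / K) * y = y ^ 2 / K := by ring
      have : 0 ≤ K ^ 3 * x ^ 2 := by positivity
      linarith
    · have h2 : x * y ^ 3 ≤ (y / K) * y ^ 3 := mul_le_mul_of_nonneg_right h1 (by positivity)
      have e : (y / K) * y ^ 3 = y ^ 4 / K := by ring
      have : 0 ≤ K ^ 3 * x ^ 4 := by positivity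
      linarith

/-- error function for the local energy. -/
noncomputable def jw (a b : ℝ) : ℝ := wv (a + b) - wv a - wv b

lemma jw_zero (a : ℝ) : jw a 0 = 0 := by
  unfold jw; rw [add_zero, wv_zero]; ring

lemma jw_bound {δ : ℝ} (hδ : 0 < δ) : ∃ C : ℝ, 0 ≤ C ∧ ∀ a b : ℝ,
    |jw a b| ≤ δ * (b ^ 2 + b ^ 4) + C * (a ^ 2 + a ^ 4) := by
  obtain ⟨K, hK1, hK⟩ : ∃ K : ℝ, 1 ≤ K ∧ 112 * (1 / K) ≤ δ := by
    refine ⟨max 1 (112 / δ), le_max_left _ _, ?_⟩
    have h0 : (0 : ℝ) < max 1 (112 / δ) := lt_of_lt_of_le one_pos (le_max_left _ _)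
    rw [mul_one_div, div_le_iff₀ h0]
    have : 112 / δ ≤ max 1 (112 / δ) := le_max_right _ _
    rw [div_le_iff₀ hδ] at this
    linarith
  refine ⟨112 * K ^ 3 + 200, by positivity, fun a b => ?_⟩
  have h1 := wv_diff a b
  have h2 := wv_diff a 0
  rw [add_zero, wv_zero, abs_zero, add_zero, sub_zero] at h2
  have h3 : |jw a b| ≤ 28 * |a| * ((|a| + |b|) + (|a| + |b|) ^ 3) + 28 * |a| * (|a| + |a| ^ 3) := by
    unfold jw
    rw [abs_le] at h1 h2 ⊢
    constructor <;> linarith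
  refine h3.trans ?_
  have ha := abs_nonneg a
  have hb := abs_nonneg b
  have h4 : (|a| + |b|) ^ 3 ≤ 4 * (|a| ^ 3 + |b| ^ 3) := by
    nlinarith [mul_nonneg (add_nonneg ha hb) (sq_nonneg (|a| - |b|))]
  obtain ⟨y1, y2⟩ := young_prod ha hb hK1
  have ea2 : |a| ^ 2 = a ^ 2 := sq_abs a
  have eb2 : |b| ^ 2 = b ^ 2 := sq_abs b
  have ea4 : |a| ^ 4 = a ^ 4 := by rw [← abs_pow]; exact abs_of_nonneg (by positivity)
  have eb4 : |b| ^ 4 = b ^ 4 := by rw [← abs_pow]; exact abs_of_nonneg (by positivity)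
  rw [ea2, eb2] at y1
  rw [ea4, eb4] at y2
  have hK0 : 0 < K := by linarith
  have h5 : 28 * |a| * ((|a| + |b|) + (|a| + |b|) ^ 3)
      ≤ 28 * (a ^ 2 + |a| * |b|) + 112 * (a ^ 4 + |a| * |b| ^ 3) := by
    calc _ ≤ 28 * |a| * ((|a| + |b|) + 4 * (|a| ^ 3 + |b| ^ 3)) := by
          apply mul_le_mul_of_nonneg_left _ (by positivity)
          linarith
      _ = 28 * (|a| ^ 2 + |a| * |b|) + 112 * (|a| ^ 4 + |a| * |b| ^ 3) := by ring
      _ = _ := by rw [ea2, ea4]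
  have h6 : 28 * |a| * (|a| + |a| ^ 3) = 28 * (a ^ 2 + a ^ 4) := by
    calc _ = 28 * (|a| ^ 2 + |a| ^ 4) := by ring
      _ = _ := by rw [ea2, ea4]
  rw [h6]
  have hb2 : 0 ≤ b ^ 2 := by positivity
  have hb4 : 0 ≤ b ^ 4 := by positivity
  have ha2 : 0 ≤ a ^ 2 := by positivity
  have ha4 : 0 ≤ a ^ 4 := by positivity
  have h7 : 28 * (b ^ 2 / K) + 112 * (b ^ 4 / K) ≤ δ * (b ^ 2 + b ^ 4) := by
    have e : 28 * (b ^ 2 / K) + 112 * (b ^ 4 / K) ≤ 112 * (1 / K) * (b ^ 2 + b ^ 4) := by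
      have : 0 ≤ b ^ 2 / K := by positivity
      have e2 : 112 * (1 / K) * (b ^ 2 + b ^ 4) = 112 * (b ^ 2 / K) + 112 * (b ^ 4 / K) := by ring
      linarith
    exact e.trans (mul_le_mul_of_nonneg_right hK (by positivity))
  have hK3 : 0 ≤ K ^ 3 := by positivity
  nlinarith [mul_nonneg hK3 ha2, mul_nonneg hK3 ha4]

/-- a Brezis-Lieb type statement. -/
theorem brezis_lieb (j : ℝ → ℝ → ℝ) (hj : Continuous (fun p : ℝ × ℝ => j p.1 p.2))
    (hj0 : ∀ a, j a 0 = 0)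
    (hjb : ∀ δ : ℝ, 0 < δ → ∃ C : ℝ, 0 ≤ C ∧ ∀ a b : ℝ,
      |j a b| ≤ δ * (b ^ 2 + b ^ 4) + C * (a ^ 2 + a ^ 4))
    {ψ : E3 → ℝ} (h2 : MemLp ψ 2) (h4 : MemLp ψ 4) (u : ℕ → E3 → ℝ)
    (hu2 : ∀ n, MemLp (u n) 2) (hu4 : ∀ n, MemLp (u n) 4) (B : ℝ)
    (hB2 : ∀ n, ∫ x, u n x ^ 2 ≤ B) (hB4 : ∀ n, ∫ x, u n x ^ 4 ≤ B)
    (hae : ∀ᵐ x, Tendsto (fun n => u n x) atTop (𝓝 0)) :
    Tendsto (fun n => ∫ x, |j (ψ x) (u n x)|) atTop (𝓝 0) := by
  have hB0 : 0 ≤ B := le_trans (integral_nonneg fun x => sq_nonneg _) (hB2 0)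
  have hm : ∀ n, AEStronglyMeasurable (fun x => |j (ψ x) (u n x)|) volume := by
    intro n
    have h1 : AEStronglyMeasurable (fun x => (ψ x, u n x)) volume :=
      h2.aestronglyMeasurable.prodMk (hu2 n).aestronglyMeasurable
    exact (continuous_abs.comp hj).comp_aestronglyMeasurable h1
  have hint : ∀ n, Integrable (fun x => |j (ψ x) (u n x)|) := by
    intro n
    obtain ⟨C, hC, hb⟩ := hjb 1 one_pos
    refine ((((sq_integrable' (hu2 n)).add (four_integrable (hu4 n))).const_mul 1).add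
      (((sq_integrable' h2).add (four_integrable h4)).const_mul C)).mono' (hm n) ?_
    filter_upwards with x
    rw [Real.norm_eq_abs, abs_abs]
    exact hb _ _
  rw [Metric.tendsto_atTop]
  intro ε hε
  obtain ⟨δ, hδ, hδB⟩ : ∃ δ : ℝ, 0 < δ ∧ δ * (2 * B) ≤ ε / 2 := by
    refine ⟨ε / (4 * (B + 1)), by positivity, ?_⟩
    rw [div_mul_eq_mul_div, div_le_iff₀ (by positivity)]
    nlinarith
  obtain ⟨C, hC, hb⟩ := hjb δ hδ
  set W : ℕ → E3 → ℝ := fun n x => max (|j (ψ x) (u n x)| - δ * (u n x ^ 2 + u n x ^ 4)) 0 with hW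
  have hQ : ∀ n, Integrable (fun x => δ * (u n x ^ 2 + u n x ^ 4)) := fun n =>
    ((sq_integrable' (hu2 n)).add (four_integrable (hu4 n))).const_mul δ
  have hWi : ∀ n, Integrable (W n) := fun n => ((hint n).sub (hQ n)).pos_part
  have hWlim : Tendsto (fun n => ∫ x, W n x) atTop (𝓝 (∫ _ : E3, (0 : ℝ))) := by
    apply tendsto_integral_of_dominated_convergence (fun x => C * (ψ x ^ 2 + ψ x ^ 4))
    · exact fun n => (hWi n).aestronglyMeasurable
    · exact ((sq_integrable' h2).add (four_integrable h4)).const_mul C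
    · intro n
      filter_upwards with x
      rw [Real.norm_of_nonneg (le_max_right _ _)]
      apply max_le
      · have := hb (ψ x) (u n x)
        linarith
      · positivity
    · filter_upwards [hae] with x hx
      have h5 : Tendsto (fun n => |j (ψ x) (u n x)|) atTop (𝓝 0) := by
        have h6 : Continuous (fun b : ℝ => |j (ψ x) b|) :=
          continuous_abs.comp (hj.comp (continuous_const.prodMk continuous_id))
        have h7 := (h6.tendsto 0).comp hx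
        simp only [hj0, abs_zero] at h7
        exact h7
      refine squeeze_zero (fun n => le_max_right _ _) (fun n => ?_) h5
      apply max_le
      · have : 0 ≤ δ * (u n x ^ 2 + u n x ^ 4) := by positivity
        linarith
      · exact abs_nonneg _
  rw [integral_zero, Metric.tendsto_atTop] at hWlim
  obtain ⟨N, hN⟩ := hWlim (ε / 2) (by linarith)
  refine ⟨N, fun n hn => ?_⟩
  have h1 := hN n hn
  rw [Real.dist_eq, sub_zero] at h1 ⊢
  rw [abs_of_nonneg (integral_nonneg fun x => abs_nonneg _)]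
  have h3 : ∫ x, |j (ψ x) (u n x)| ≤ (∫ x, W n x) + ∫ x, δ * (u n x ^ 2 + u n x ^ 4) := by
    rw [← integral_add (hWi n) (hQ n)]
    apply integral_mono (hint n) ((hWi n).add (hQ n))
    intro x
    show |j (ψ x) (u n x)| ≤ W n x + δ * (u n x ^ 2 + u n x ^ 4)
    have : |j (ψ x) (u n x)| - δ * (u n x ^ 2 + u n x ^ 4) ≤ W n x := le_max_left _ _
    linarith
  have h5 : ∫ x, δ * (u n x ^ 2 + u n x ^ 4) ≤ ε / 2 := by
    rw [integral_const_mul, integral_add (sq_integrable' (hu2 n)) (four_integrable (hu4 n))]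
    have := hB2 n
    have := hB4 n
    nlinarith
  have h6 := (abs_lt.1 h1).2
  linarith

end Pool.Agent.W_b91f46_p2
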