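import Mathlib
import Pool.Agent.W_b91f46_p2.Split

/-!
Splitting of the energy along sequences converging weakly and almost everywhere, second part.
-/

open MeasureTheory Metric Set Filter Topology
open scoped ENNReal

namespace Pool.Agent.W_b91f46_p2

lemma abs_pot_le' {f : E3 → ℝ} (h1 : Integrable f) (h2 : Integrable (fun y => f y ^ 2)) (x : E3)
    {t δ : ℝ} (ht : 0 < t) (hδ : 0 < δ) :
    |pot f x| ≤ t / 2 * (∫ y, f y ^ 2) + 1 / (2 * t) * (c3 * δ) + 1 / δ * ∫ y, |f y| := by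
  refine le_trans ?_ (pot_abs_le h1 h2 x ht hδ)
  unfold pot
  calc |∫ y, f y / ‖x - y‖| ≤ ∫ y, |f y / ‖x - y‖| := abs_integral_le_integral_abs
    _ = _ := by
      congr 1; funext y; rw [abs_div, abs_norm]

lemma exists_params {B ε : ℝ} (hB : 0 ≤ B) (hε : 0 < ε) :
    ∃ t δ : ℝ, 0 < t ∧ 0 < δ ∧ t / 2 * B ≤ ε ∧ 1 / (2 * t) * (c3 * δ) ≤ ε := by
  have hc := c3_pos
  refine ⟨ε / (B + 1), 2 * (ε / (B + 1)) * ε / c3, by positivity, by positivity, ?_, ?_⟩
  · rw [div_div, div_mul_eq_mul_div, div_le_iff₀ (by positivity)]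
    nlinarith
  · apply le_of_eq
    field_simp

lemma pot_small (f : ℕ → E3 → ℝ) (h1 : ∀ n, Integrable (f n))
    (h2 : ∀ n, Integrable (fun y => f n y ^ 2)) (B : ℝ) (hB : ∀ n, ∫ y, f n y ^ 2 ≤ B)
    (hlim : Tendsto (fun n => ∫ y, |f n y|) atTop (𝓝 0)) {ε : ℝ} (hε : 0 < ε) :
    ∀ᶠ n in atTop, ∀ x, |pot (f n) x| ≤ ε := by
  have hB0 : 0 ≤ B := le_trans (integral_nonneg fun x => sq_nonneg _) (hB 0)
  obtain ⟨t, δ, ht, hδ, e1, e2⟩ := exists_params hB0 (show 0 < ε / 3 by linarith)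
  have h3 : ∀ᶠ n in atTop, ∫ y, |f n y| < δ * (ε / 3) :=
    hlim.eventually (gt_mem_nhds (by positivity))
  filter_upwards [h3] with n hn x
  have h4 := abs_pot_le' (h1 n) (h2 n) x ht hδ
  have h5 : t / 2 * (∫ y, f n y ^ 2) ≤ t / 2 * B :=
    mul_le_mul_of_nonneg_left (hB n) (by positivity)
  have h6 : 1 / δ * ∫ y, |f n y| ≤ ε / 3 := by
    rw [one_div, inv_mul_le_iff₀ hδ]
    exact hn.le
  linarith

lemma nuc_small (u : ℕ → E3 → ℝ) (hu2 : ∀ n, MemLp (u n) 2) (hu4 : ∀ n, MemLp (u n) 4) (B : ℝ)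
    (hB2 : ∀ n, ∫ x, u n x ^ 2 ≤ B) (hB4 : ∀ n, ∫ x, u n x ^ 4 ≤ B)
    (hloc : ∀ R : ℝ, Tendsto (fun n => ∫ x in ball 0 R, u n x ^ 2) atTop (𝓝 0))
    {ε : ℝ} (hε : 0 < ε) : ∀ᶠ n in atTop, nuc (u n) ≤ ε := by
  have hB0 : 0 ≤ B := le_trans (integral_nonneg fun x => sq_nonneg _) (hB2 0)
  obtain ⟨t, δ, ht, hδ, e1, e2⟩ := exists_params hB0 (show 0 < ε / 4 by linarith)
  obtain ⟨R, hR, hRB⟩ : ∃ R : ℝ, 0 < R ∧ 1 / R * B ≤ ε / 4 := by
    refine ⟨4 * (B + 1) / ε, by positivity, ?_⟩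
    rw [one_div_div, div_mul_eq_mul_div, div_le_iff₀ (by positivity)]
    nlinarith
  have h3 : ∀ᶠ n in atTop, ∫ x in ball 0 R, u n x ^ 2 < δ * (ε / 4) :=
    (hloc R).eventually (gt_mem_nhds (by positivity))
  filter_upwards [h3] with n hn
  have i1 : Integrable (fun x => u n x ^ 2) := sq_integrable' (hu2 n)
  have i2 : Integrable (fun x => (u n x ^ 2) ^ 2) := sqsq_integrable (hu4 n)
  have i3 : Integrable ((ball (0 : E3) R).indicator (fun x => u n x ^ 2)) :=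
    i1.indicator measurableSet_ball
  have hA1 : Integrable (fun y => t / 2 * (u n y ^ 2) ^ 2) := i2.const_mul _
  have hA2 : Integrable (fun y => 1 / (2 * t) * K2 δ (0 - y)) := (K2_sub_integrable δ 0).const_mul _
  have hA3 : Integrable (fun y => 1 / δ * (ball (0 : E3) R).indicator (fun x => u n x ^ 2) y) :=
    i3.const_mul _
  have hA4 : Integrable (fun y => 1 / R * u n y ^ 2) := i1.const_mul _
  have hA12 : Integrable (fun y => t / 2 * (u n y ^ 2) ^ 2 + 1 / (2 * t) * K2 δ (0 - y)) :=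
    hA1.add hA2
  have hA123 : Integrable (fun y => t / 2 * (u n y ^ 2) ^ 2 + 1 / (2 * t) * K2 δ (0 - y)
      + 1 / δ * (ball (0 : E3) R).indicator (fun x => u n x ^ 2) y) := hA12.add hA3
  have hle : nuc (u n) ≤ ∫ y, (t / 2 * (u n y ^ 2) ^ 2 + 1 / (2 * t) * K2 δ (0 - y)
      + 1 / δ * (ball (0 : E3) R).indicator (fun x => u n x ^ 2) y + 1 / R * u n y ^ 2) := by
    unfold nuc pot
    apply integral_mono (pot_integrable i1 i2 0) (hA123.add hA4)
    intro y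
    show u n y ^ 2 / ‖0 - y‖ ≤ t / 2 * (u n y ^ 2) ^ 2 + 1 / (2 * t) * K2 δ (0 - y)
      + 1 / δ * (ball (0 : E3) R).indicator (fun x => u n x ^ 2) y + 1 / R * u n y ^ 2
    by_cases hy : ‖y‖ < R
    · rw [indicator_of_mem (by simpa using hy)]
      have h4 := pot_pointwise (fun y => u n y ^ 2) 0 y ht hδ
      simp only [abs_of_nonneg (sq_nonneg (u n y))] at h4
      have : 0 ≤ 1 / R * u n y ^ 2 := by positivity
      linarith
    · rw [indicator_of_notMem (by simpa using hy)]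
      push Not at hy
      have h5 : u n y ^ 2 / ‖0 - y‖ ≤ 1 / R * u n y ^ 2 := by
        rw [zero_sub, norm_neg, div_eq_mul_one_div, mul_comm]
        apply mul_le_mul_of_nonneg_right _ (sq_nonneg _)
        exact one_div_le_one_div_of_le hR hy
      have h6 : 0 ≤ t / 2 * (u n y ^ 2) ^ 2 := by positivity
      have h7 : 0 ≤ 1 / (2 * t) * K2 δ (0 - y) := mul_nonneg (by positivity) (K2_nonneg _ _)
      linarith
  rw [integral_add hA123 hA4, integral_add hA12 hA3, integral_add hA1 hA2,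
    integral_const_mul, integral_const_mul, integral_const_mul, integral_const_mul,
    integral_indicator measurableSet_ball, K2_sub_integral hδ.le, sqsq_integral] at hle
  have h5 : t / 2 * (∫ y, u n y ^ 4) ≤ t / 2 * B :=
    mul_le_mul_of_nonneg_left (hB4 n) (by positivity)
  have h6 : 1 / δ * ∫ x in ball 0 R, u n x ^ 2 ≤ ε / 4 := by
    rw [one_div, inv_mul_le_iff₀ hδ]
    exact hn.le
  have h7 : 1 / R * (∫ y, u n y ^ 2) ≤ 1 / R * B :=
    mul_le_mul_of_nonneg_left (hB2 n) (by positivity)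
  linarith

/-! ### the cross term -/

lemma cross_integrable {ψ u : E3 → ℝ} (h2 : MemLp ψ 2) (hu2 : MemLp u 2) :
    Integrable (fun x => 2 * (ψ x * u x)) := (mul_integrable h2 hu2).const_mul 2

lemma cross_sq_integrable {ψ u : E3 → ℝ} (h4 : MemLp ψ 4) (hu4 : MemLp u 4) :
    Integrable (fun x => (2 * (ψ x * u x)) ^ 2) := by
  refine (((four_integrable h4).const_mul 2).add ((four_integrable hu4).const_mul 2)).mono'
    (((h4.aestronglyMeasurable.mul hu4.aestronglyMeasurable).const_mul 2).pow 2) ?_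
  filter_upwards with x
  rw [Real.norm_of_nonneg (sq_nonneg _)]
  show (2 * (ψ x * u x)) ^ 2 ≤ 2 * ψ x ^ 4 + 2 * u x ^ 4
  nlinarith [sq_nonneg (ψ x ^ 2 - u x ^ 2)]

lemma cross_sq_le {ψ u : E3 → ℝ} (h4 : MemLp ψ 4) (hu4 : MemLp u 4) :
    ∫ x, (2 * (ψ x * u x)) ^ 2 ≤ 2 * (∫ x, ψ x ^ 4) + 2 * ∫ x, u x ^ 4 := by
  rw [← integral_const_mul, ← integral_const_mul,
    ← integral_add ((four_integrable h4).const_mul 2) ((four_integrable hu4).const_mul 2)]
  apply integral_mono (cross_sq_integrable h4 hu4)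
    (((four_integrable h4).const_mul 2).add ((four_integrable hu4).const_mul 2))
  intro x
  show (2 * (ψ x * u x)) ^ 2 ≤ 2 * ψ x ^ 4 + 2 * u x ^ 4
  nlinarith [sq_nonneg (ψ x ^ 2 - u x ^ 2)]

lemma cross_small {ψ : E3 → ℝ} (h2 : MemLp ψ 2) (h4 : MemLp ψ 4) (u : ℕ → E3 → ℝ)
    (hu2 : ∀ n, MemLp (u n) 2) (hu4 : ∀ n, MemLp (u n) 4) (B : ℝ)
    (hB2 : ∀ n, ∫ x, u n x ^ 2 ≤ B) (hB4 : ∀ n, ∫ x, u n x ^ 4 ≤ B)
    (hae : ∀ᵐ x, Tendsto (fun n => u n x) atTop (𝓝 0)) :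
    Tendsto (fun n => ∫ x, |2 * (ψ x * u n x)|) atTop (𝓝 0) := by
  apply brezis_lieb (fun a b => 2 * (a * b)) (by fun_prop) (by simp) _ h2 h4 u hu2 hu4 B hB2 hB4 hae
  intro δ hδ
  refine ⟨1 / δ, by positivity, fun a b => ?_⟩
  have h5 : |2 * (a * b)| ≤ δ * b ^ 2 + 1 / δ * a ^ 2 := by
    have e1 : 0 ≤ (δ * b - a) ^ 2 / δ := by positivity
    have e2 : 0 ≤ (δ * b + a) ^ 2 / δ := by positivity
    have e3 : (δ * b - a) ^ 2 / δ = δ * b ^ 2 + 1 / δ * a ^ 2 - 2 * (a * b) := by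
      field_simp; ring
    have e4 : (δ * b + a) ^ 2 / δ = δ * b ^ 2 + 1 / δ * a ^ 2 + 2 * (a * b) := by
      field_simp; ring
    rw [abs_le]
    constructor <;> linarith
  have h6 : 0 ≤ δ * b ^ 4 := by positivity
  have h7 : 0 ≤ 1 / δ * a ^ 4 := by positivity
  rw [mul_add, mul_add]
  linarith

lemma jw_continuous : Continuous (fun p : ℝ × ℝ => jw p.1 p.2) := by
  unfold jw
  have := continuous_wv
  fun_prop

lemma jw_small {ψ : E3 → ℝ} (h2 : MemLp ψ 2) (h4 : MemLp ψ 4) (u : ℕ → E3 → ℝ)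
    (hu2 : ∀ n, MemLp (u n) 2) (hu4 : ∀ n, MemLp (u n) 4) (B : ℝ)
    (hB2 : ∀ n, ∫ x, u n x ^ 2 ≤ B) (hB4 : ∀ n, ∫ x, u n x ^ 4 ≤ B)
    (hae : ∀ᵐ x, Tendsto (fun n => u n x) atTop (𝓝 0)) :
    Tendsto (fun n => wint (fun x => ψ x + u n x) - wint ψ - wint (u n)) atTop (𝓝 0) := by
  have h := brezis_lieb jw jw_continuous jw_zero (fun δ hδ => jw_bound hδ) h2 h4 u hu2 hu4 B hB2 hB4
    hae
  rw [tendsto_zero_iff_abs_tendsto_zero]
  refine squeeze_zero (fun n => abs_nonneg _) (fun n => ?_) h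
  have e : wint (fun x => ψ x + u n x) - wint ψ - wint (u n) = ∫ x, jw (ψ x) (u n x) := by
    unfold wint jw
    have i1 : Integrable (fun x => wv (ψ x + u n x)) :=
      wv_integrable (h2.add (hu2 n)) (h4.add (hu4 n))
    have i2 := wv_integrable h2 h4
    have i3 := wv_integrable (hu2 n) (hu4 n)
    have i12 : Integrable (fun x => wv (ψ x + u n x) - wv (ψ x)) := i1.sub i2
    rw [integral_sub i12 i3, integral_sub i1 i2]
  show |wint (fun x => ψ x + u n x) - wint ψ - wint (u n)| ≤ _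
  rw [e]
  exact abs_integral_le_integral_abs

/-- the Coulomb energy of a sum. -/
lemma coul_split {ψ u : E3 → ℝ} (h2 : MemLp ψ 2) (h4 : MemLp ψ 4) (hu2 : MemLp u 2)
    (hu4 : MemLp u 4) {ε : ℝ} (hε : ∀ x, |pot (fun y => 2 * (ψ y * u y)) x| ≤ ε) :
    coul ψ + coul u - 2 * ε * (mass ψ + mass u) ≤ coul (fun x => ψ x + u x) := by
  have hs2 : MemLp (fun x => ψ x + u x) 2 := h2.add hu2
  have hs4 : MemLp (fun x => ψ x + u x) 4 := h4.add hu4
  have a1 := sq_integrable' h2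
  have a2 := sqsq_integrable h4
  have b1 := sq_integrable' hu2
  have b2 := sqsq_integrable hu4
  have r1 := sq_integrable' hs2
  have r2 := sqsq_integrable hs4
  have f1 := cross_integrable h2 hu2
  have f2 := cross_sq_integrable h4 hu4
  have s1 : Integrable (fun x => ψ x ^ 2 + u x ^ 2) := a1.add b1
  have s2 : Integrable (fun x => (ψ x ^ 2 + u x ^ 2) ^ 2) := by
    refine ((a2.const_mul 2).add (b2.const_mul 2)).mono' (s1.aestronglyMeasurable.pow 2) ?_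
    filter_upwards with x
    rw [Real.norm_of_nonneg (sq_nonneg _)]
    show (ψ x ^ 2 + u x ^ 2) ^ 2 ≤ 2 * (ψ x ^ 2) ^ 2 + 2 * (u x ^ 2) ^ 2
    nlinarith [sq_nonneg (ψ x ^ 2 - u x ^ 2)]
  have hε0 : 0 ≤ ε := (abs_nonneg _).trans (hε 0)
  have hpot : ∀ x, pot (fun y => (ψ y + u y) ^ 2) x
      = pot (fun y => ψ y ^ 2 + u y ^ 2) x + pot (fun y => 2 * (ψ y * u y)) x := by
    intro x
    rw [← pot_add s1 s2 f1 f2 x]
    congr 1; funext y; ring
  set P := pot (fun y => 2 * (ψ y * u y)) with hP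
  set S := pot (fun y => ψ y ^ 2 + u y ^ 2) with hS
  have iP1 : Integrable (fun x => (ψ x + u x) ^ 2 * P x) := mul_pot_integrable r1 f1 f2
  have iP2 : Integrable (fun x => (ψ x ^ 2 + u x ^ 2) * P x) := mul_pot_integrable s1 f1 f2
  have iS1 : Integrable (fun x => (ψ x + u x) ^ 2 * S x) := mul_pot_integrable r1 s1 s2
  have iS2 : Integrable (fun x => (ψ x ^ 2 + u x ^ 2) * S x) := mul_pot_integrable s1 s1 s2
  have iA : Integrable (fun x => ψ x ^ 2 * pot (fun y => ψ y ^ 2) x) := mul_pot_integrable a1 a1 a2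
  have iB : Integrable (fun x => u x ^ 2 * pot (fun y => u y ^ 2) x) := mul_pot_integrable b1 b1 b2
  have e1 : BB (fun x => (ψ x + u x) ^ 2) (fun x => (ψ x + u x) ^ 2)
      = (∫ x, (ψ x + u x) ^ 2 * S x) + ∫ x, (ψ x + u x) ^ 2 * P x := by
    rw [← integral_add iS1 iP1]
    unfold BB
    congr 1; funext x
    rw [hpot x]; ring
  have e2 : ∫ x, (ψ x + u x) ^ 2 * S x
      = (∫ x, (ψ x ^ 2 + u x ^ 2) * S x) + ∫ x, (ψ x ^ 2 + u x ^ 2) * P x := by
    rw [← integral_add iS2 iP2]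
    have := BB_symm r1 s1 s2
    unfold BB at this
    rw [hS, this]
    congr 1; funext x
    rw [hpot x]; ring
  have e3 : BB (fun x => ψ x ^ 2) (fun x => ψ x ^ 2) + BB (fun x => u x ^ 2) (fun x => u x ^ 2)
      ≤ ∫ x, (ψ x ^ 2 + u x ^ 2) * S x := by
    unfold BB
    rw [← integral_add iA iB]
    apply integral_mono (iA.add iB) iS2
    intro x
    show ψ x ^ 2 * pot (fun y => ψ y ^ 2) x + u x ^ 2 * pot (fun y => u y ^ 2) x
      ≤ (ψ x ^ 2 + u x ^ 2) * S x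
    have m1 : pot (fun y => ψ y ^ 2) x ≤ S x := by
      apply pot_mono a1 a2 s1 s2
      intro y
      have := sq_nonneg (u y)
      linarith
    have m2 : pot (fun y => u y ^ 2) x ≤ S x := by
      apply pot_mono b1 b2 s1 s2
      intro y
      have := sq_nonneg (ψ y)
      linarith
    have := mul_le_mul_of_nonneg_left m1 (sq_nonneg (ψ x))
    have := mul_le_mul_of_nonneg_left m2 (sq_nonneg (u x))
    rw [add_mul]
    linarith
  have e4 : -(ε * ∫ x, (ψ x + u x) ^ 2) ≤ ∫ x, (ψ x + u x) ^ 2 * P x := by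
    rw [← integral_const_mul, ← integral_neg]
    apply integral_mono ((r1.const_mul ε).neg) iP1
    intro x
    show -(ε * (ψ x + u x) ^ 2) ≤ (ψ x + u x) ^ 2 * P x
    have := (abs_le.1 (hε x)).1
    nlinarith [mul_le_mul_of_nonneg_left this (sq_nonneg (ψ x + u x))]
  have e5 : -(ε * ∫ x, (ψ x ^ 2 + u x ^ 2)) ≤ ∫ x, (ψ x ^ 2 + u x ^ 2) * P x := by
    rw [← integral_const_mul, ← integral_neg]
    apply integral_mono ((s1.const_mul ε).neg) iP2
    intro x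
    show -(ε * (ψ x ^ 2 + u x ^ 2)) ≤ (ψ x ^ 2 + u x ^ 2) * P x
    have := (abs_le.1 (hε x)).1
    nlinarith [mul_le_mul_of_nonneg_left this (add_nonneg (sq_nonneg (ψ x)) (sq_nonneg (u x)))]
  have e6 : ∫ x, (ψ x ^ 2 + u x ^ 2) = mass ψ + mass u := integral_add a1 b1
  have e7 : ∫ x, (ψ x + u x) ^ 2 ≤ 2 * (mass ψ + mass u) := by
    rw [← e6, ← integral_const_mul]
    apply integral_mono r1 (s1.const_mul 2)
    intro x
    show (ψ x + u x) ^ 2 ≤ 2 * (ψ x ^ 2 + u x ^ 2)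
    nlinarith [sq_nonneg (ψ x - u x)]
  have e8 : ε * ∫ x, (ψ x + u x) ^ 2 ≤ ε * (2 * (mass ψ + mass u)) :=
    mul_le_mul_of_nonneg_left e7 hε0
  rw [e6] at e5
  have hm1 := mass_nonneg (ψ := ψ)
  have hm2 := mass_nonneg (ψ := u)
  have hm : 0 ≤ ε * (mass ψ + mass u) := by positivity
  unfold coul
  rw [e1, e2]
  nlinarith

lemma mass_add {ψ u : E3 → ℝ} (h2 : MemLp ψ 2) (hu2 : MemLp u 2) :
    mass (fun x => ψ x + u x) = mass ψ + mass u + 2 * ∫ x, u x * ψ x := by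
  unfold mass
  have i1 := sq_integrable' h2
  have i2 := sq_integrable' hu2
  have i3 := (mul_integrable hu2 h2).const_mul 2
  have i12 : Integrable (fun x => ψ x ^ 2 + u x ^ 2) := i1.add i2
  rw [← integral_const_mul, ← integral_add i1 i2, ← integral_add i12 i3]
  congr 1; funext x; ring

lemma kin_add {g h : E3 → E3} (hg : MemLp g 2) (hh : MemLp h 2) :
    kin (fun x => g x + h x) = kin g + kin h + 2 * ∫ x, inner ℝ (h x) (g x) := by
  unfold kin
  have i1 := sq_integrable hg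
  have i2 := sq_integrable hh
  have i3 := (inner_integrable hh hg).const_mul 2
  have i12 : Integrable (fun x => ‖g x‖ ^ 2 + ‖h x‖ ^ 2) := i1.add i2
  rw [← integral_const_mul, ← integral_add i1 i2, ← integral_add i12 i3]
  congr 1; funext x
  rw [norm_add_sq_real, real_inner_comm]
  ring

lemma nuc_add {ψ u : E3 → ℝ} (h2 : MemLp ψ 2) (h4 : MemLp ψ 4) (hu2 : MemLp u 2)
    (hu4 : MemLp u 4) :
    nuc (fun x => ψ x + u x) = nuc ψ + nuc u + pot (fun y => 2 * (ψ y * u y)) 0 := by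
  have a1 := sq_integrable' h2
  have a2 := sqsq_integrable h4
  have b1 := sq_integrable' hu2
  have b2 := sqsq_integrable hu4
  have f1 := cross_integrable h2 hu2
  have f2 := cross_sq_integrable h4 hu4
  have i1 := pot_integrable a1 a2 0
  have i2 := pot_integrable b1 b2 0
  have i3 := pot_integrable f1 f2 0
  have i12 : Integrable (fun y => ψ y ^ 2 / ‖0 - y‖ + u y ^ 2 / ‖0 - y‖) := i1.add i2
  unfold nuc pot
  rw [← integral_add i1 i2, ← integral_add i12 i3]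
  congr 1; funext x
  ring

/-- **Splitting of the energy.** -/
theorem splitting {ψ' : E3 → ℝ} {g' : E3 → E3} (H' : Adm ψ' g') (u : ℕ → E3 → ℝ)
    (h : ℕ → E3 → E3) (H : ∀ n, Adm (u n) (h n)) (B : ℝ)
    (hB2 : ∀ n, ∫ x, u n x ^ 2 ≤ B) (hB4 : ∀ n, ∫ x, u n x ^ 4 ≤ B)
    (hw1 : ∀ η : E3 → ℝ, MemLp η 2 → Tendsto (fun n => ∫ x, u n x * η x) atTop (𝓝 0))
    (hw2 : ∀ η : E3 → E3, MemLp η 2 → Tendsto (fun n => ∫ x, inner ℝ (h n x) (η x)) atTop (𝓝 0))
    (hloc : ∀ R : ℝ, Tendsto (fun n => ∫ x in ball 0 R, u n x ^ 2) atTop (𝓝 0))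
    (hae : ∀ᵐ x, Tendsto (fun n => u n x) atTop (𝓝 0))
    {A v z : ℝ} (hz : 0 ≤ z) {ε : ℝ} (hε : 0 < ε) :
    ∀ᶠ n in atTop, Ff A v z ψ' g' + (Gf A (u n) (h n) - v * mass (u n)) - ε
      ≤ Ff A v z (fun x => ψ' x + u n x) (fun x => g' x + h n x) := by
  have hB0 : 0 ≤ B := le_trans (integral_nonneg fun x => sq_nonneg _) (hB2 0)
  -- small parameter for the cross terms
  obtain ⟨ε', hε', hε'1, hε'2⟩ : ∃ ε' : ℝ, 0 < ε' ∧ 2 * ε' * (mass ψ' + B) ≤ ε / 6 ∧
      z * ε' ≤ ε / 6 := by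
    have hm := mass_nonneg (ψ := ψ')
    refine ⟨ε / (12 * (mass ψ' + B + z + 1)), by positivity, ?_, ?_⟩
    · rw [mul_div_assoc', div_mul_eq_mul_div, div_le_iff₀ (by positivity)]
      nlinarith
    · rw [mul_div_assoc', div_le_iff₀ (by positivity)]
      nlinarith
  have c1 : ∀ᶠ n in atTop, ∀ x, |pot (fun y => 2 * (ψ' y * u n y)) x| ≤ ε' := by
    apply pot_small (fun n y => 2 * (ψ' y * u n y))
      (fun n => cross_integrable H'.l2 (H n).l2) (fun n => cross_sq_integrable H'.l4 (H n).l4)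
      (2 * (∫ x, ψ' x ^ 4) + 2 * B) _
      (cross_small H'.l2 H'.l4 u (fun n => (H n).l2) (fun n => (H n).l4) B hB2 hB4 hae) hε'
    intro n
    have := cross_sq_le H'.l4 (H n).l4
    have := hB4 n
    linarith
  have c2 : ∀ᶠ n in atTop, nuc (u n) ≤ ε' :=
    nuc_small u (fun n => (H n).l2) (fun n => (H n).l4) B hB2 hB4 hloc hε'
  have c3' := jw_small H'.l2 H'.l4 u (fun n => (H n).l2) (fun n => (H n).l4) B hB2 hB4 hae
  have c3 : ∀ᶠ n in atTop, -(ε / 6) < wint (fun x => ψ' x + u n x) - wint ψ' - wint (u n) :=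
    c3'.eventually (lt_mem_nhds (by linarith))
  have c4' : Tendsto (fun n => A * (2 * ∫ x, inner ℝ (h n x) (g' x))) atTop (𝓝 0) := by
    have := ((hw2 g' H'.g2).const_mul 2).const_mul A
    simpa using this
  have c4 : ∀ᶠ n in atTop, -(ε / 6) < A * (2 * ∫ x, inner ℝ (h n x) (g' x)) :=
    c4'.eventually (lt_mem_nhds (by linarith))
  have c5' : Tendsto (fun n => v * (2 * ∫ x, u n x * ψ' x)) atTop (𝓝 0) := by
    have := ((hw1 ψ' H'.l2).const_mul 2).const_mul v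
    simpa using this
  have c5 : ∀ᶠ n in atTop, v * (2 * ∫ x, u n x * ψ' x) < ε / 6 :=
    c5'.eventually (gt_mem_nhds (by linarith))
  filter_upwards [c1, c2, c3, c4, c5] with n d1 d2 d3 d4 d5
  have k1 := coul_split H'.l2 H'.l4 (H n).l2 (H n).l4 d1
  have k2 := nuc_add H'.l2 H'.l4 (H n).l2 (H n).l4
  have k3 := mass_add H'.l2 (H n).l2
  have k4 := kin_add H'.g2 (H n).g2
  have k5 := (abs_le.1 (d1 0)).2
  have k6 : mass (u n) ≤ B := hB2 n
  have k7 : 2 * ε' * (mass ψ' + mass (u n)) ≤ 2 * ε' * (mass ψ' + B) := by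
    apply mul_le_mul_of_nonneg_left _ (by positivity)
    linarith
  have k8 : z * nuc (u n) ≤ z * ε' := mul_le_mul_of_nonneg_left d2 hz
  have k9 : z * pot (fun y => 2 * (ψ' y * u n y)) 0 ≤ z * ε' := mul_le_mul_of_nonneg_left k5 hz
  unfold Ff Gf
  rw [k2, k3, k4]
  nlinarith

end Pool.Agent.W_b91f46_p2
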