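import Mathlib
import Pool.Agent.W_b91f46_p2.Split2
import Pool.Agent.W_b91f46_p2.NonVan

/-!
Existence of minimizers of the shifted functional with mass at most one.
-/

open MeasureTheory Metric Set Filter Topology
open scoped ENNReal

namespace Pool.Agent.W_b91f46_p2

/-- `v` is the minimal energy per unit mass, among functions of mass at most one. -/
structure IsV (A v : ℝ) : Prop where
  nonneg : 0 ≤ v
  lower : ∀ (ψ : E3 → ℝ) (g : E3 → E3), Adm ψ g → mass ψ ≤ 1 → v * mass ψ ≤ Gf A ψ g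
  approx : ∀ ε : ℝ, 0 < ε → ∃ (ψ : E3 → ℝ) (g : E3 → E3), Adm ψ g ∧ 0 < mass ψ ∧ mass ψ ≤ 1 ∧
    Gf A ψ g ≤ (v + ε) * mass ψ

lemma exists_V {A : ℝ} (hA : 0 ≤ A) {k : E3 → ℝ} {g : E3 → E3} (H : Adm k g) (h0 : 0 < mass k)
    (h1 : mass k ≤ 1) {q : ℝ} (hq : Gf A k g ≤ q * mass k) : ∃ v, v ≤ q ∧ IsV A v := by
  set S : Set ℝ := {r | ∃ (ψ : E3 → ℝ) (g : E3 → E3), Adm ψ g ∧ 0 < mass ψ ∧ mass ψ ≤ 1 ∧
    r = Gf A ψ g / mass ψ} with hS
  have hbdd : BddBelow S := by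
    refine ⟨0, ?_⟩
    rintro r ⟨ψ, g, H, h0, h1, rfl⟩
    exact div_nonneg (Gf_nonneg hA) h0.le
  have hne : S.Nonempty := ⟨_, k, g, H, h0, h1, rfl⟩
  refine ⟨sInf S, ?_, ?_, ?_, ?_⟩
  · refine (csInf_le hbdd ⟨k, g, H, h0, h1, rfl⟩).trans ?_
    rw [div_le_iff₀ h0]
    exact hq
  · apply le_csInf hne
    rintro r ⟨ψ, g, H, h0, h1, rfl⟩
    exact div_nonneg (Gf_nonneg hA) h0.le
  · intro ψ g Hψ hm
    rcases eq_or_lt_of_le (mass_nonneg (ψ := ψ)) with h2 | h2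
    · rw [← h2, mul_zero]
      exact Gf_nonneg hA
    · have := csInf_le hbdd ⟨ψ, g, Hψ, h2, hm, rfl⟩
      rwa [le_div_iff₀ h2] at this
  · intro ε hε
    obtain ⟨r, ⟨ψ, g, H, h2, h3, rfl⟩, hr⟩ := exists_lt_of_csInf_lt hne
      (show sInf S < sInf S + ε by linarith)
    refine ⟨ψ, g, H, h2, h3, ?_⟩
    rw [div_lt_iff₀ h2] at hr
    exact hr.le

section
variable {ℓ v z : ℝ}

lemma kin_le_Gf {A : ℝ} (hA : 0 < A) {ψ : E3 → ℝ} {g : E3 → E3} : kin g ≤ Gf A ψ g / A := by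
  rw [le_div_iff₀ hA]
  unfold Gf
  have h2 := wint_nonneg (ψ := ψ)
  have h3 := coul_nonneg (ψ := ψ)
  linarith

lemma wint_le_Gf {A : ℝ} (hA : 0 < A) {ψ : E3 → ℝ} {g : E3 → E3} : wint ψ ≤ Gf A ψ g := by
  unfold Gf
  have h1 := mul_nonneg hA.le (kin_nonneg (g := g))
  have h3 := coul_nonneg (ψ := ψ)
  linarith

lemma quartic_le_Gf {A : ℝ} (hA : 0 < A) {ψ : E3 → ℝ} {g : E3 → E3} (H : Adm ψ g) :
    ∫ x, ψ x ^ 4 ≤ 2 * Gf A ψ g + 2 * mass ψ := by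
  have h1 := quartic_le H.l2 H.l4
  have h2 := wint_le_Gf hA (ψ := ψ) (g := g)
  linarith

lemma nuc_le_Gf {A : ℝ} (hA : 0 < A) {ψ : E3 → ℝ} {g : E3 → E3} (H : Adm ψ g) (hm : mass ψ ≤ 1) :
    nuc ψ ≤ 2 * Gf A ψ g + (3 + c3) := by
  have h1 := pot_sq_le H.l2 H.l4 0
  have h2 := quartic_le_Gf hA H
  unfold nuc
  linarith

lemma Gf_le_Ff {A : ℝ} (hA : 0 < A) (hv0 : 0 ≤ v) (hz0 : 0 ≤ z) (hz : z ≤ 1 / 4) {ψ : E3 → ℝ}
    {g : E3 → E3} (H : Adm ψ g) (hm : mass ψ ≤ 1) :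
    Gf A ψ g ≤ 2 * (Ff A v z ψ g + v + z * (3 + c3)) := by
  have h1 := nuc_le_Gf hA H hm
  have h2 : z * nuc ψ ≤ z * (2 * Gf A ψ g + (3 + c3)) := mul_le_mul_of_nonneg_left h1 hz0
  have h3 := Gf_nonneg hA.le (ψ := ψ) (g := g)
  have h4 : v * mass ψ ≤ v := by nlinarith
  unfold Ff
  nlinarith

/-- existence of a minimizer among functions of mass at most one. -/
theorem exists_min (hℓ : 0 < ℓ) (hV : IsV (ℓ ^ 2) v) (hv : v < 1 / 6) (hz0 : 0 < z)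
    (hz : z ≤ 1 / 4) :
    ∃ (ψ : E3 → ℝ) (g : E3 → E3), Adm ψ g ∧ mass ψ ≤ 1 ∧
      Ff (ℓ ^ 2) v z ψ g ≤ -(z * (v1 * ℓ ^ 2 / 32)) ∧
      ∀ (φ : E3 → ℝ) (h : E3 → E3), Adm φ h → mass φ ≤ 1 →
        Ff (ℓ ^ 2) v z ψ g ≤ Ff (ℓ ^ 2) v z φ h := by
  set A := ℓ ^ 2 with hA
  have hApos : 0 < A := by positivity
  set cA := v1 * A / 32 with hcA
  have hcA0 : 0 < cA := by have := v1_pos; positivity
  set S : Set ℝ := {r | ∃ (ψ : E3 → ℝ) (g : E3 → E3), Adm ψ g ∧ mass ψ ≤ 1 ∧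
    r = Ff A v z ψ g} with hS
  have hlow : ∀ (ψ : E3 → ℝ) (g : E3 → E3), Adm ψ g → mass ψ ≤ 1 →
      -(v + z * (3 + c3)) ≤ Ff A v z ψ g := by
    intro ψ g H hm
    have h1 := Gf_le_Ff hApos hV.nonneg hz0.le hz H hm
    have h2 := Gf_nonneg hApos.le (ψ := ψ) (g := g)
    linarith
  have hbdd : BddBelow S := by
    refine ⟨-(v + z * (3 + c3)), ?_⟩
    rintro r ⟨ψ, g, H, h1, rfl⟩
    exact hlow ψ g H h1
  -- near-optimal functions
  have hnear : ∀ ε : ℝ, 0 < ε → ∃ (ψ : E3 → ℝ) (g : E3 → E3), Adm ψ g ∧ mass ψ ≤ 1 ∧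
      Ff A v z ψ g ≤ ε - z * cA := by
    intro ε hε
    obtain ⟨ψ, g, H, h0, h1, h2⟩ := hV.approx (min ε (1 / 6 - v)) (lt_min hε (by linarith))
    have h3 : Gf A ψ g ≤ mass ψ / 6 := by
      refine h2.trans ?_
      have : min ε (1 / 6 - v) ≤ 1 / 6 - v := min_le_right _ _
      nlinarith
    obtain ⟨x, hx⟩ := nonvan H hℓ h0 h3
    refine ⟨fun y => ψ (y + x), fun y => g (y + x), H.translate x, by rwa [mass_translate], ?_⟩
    unfold Ff
    rw [Gf_translate, mass_translate, nuc_translate]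
    have h4 : min ε (1 / 6 - v) ≤ ε := min_le_left _ _
    have h5 : z * cA ≤ z * pot (fun y => ψ y ^ 2) x := mul_le_mul_of_nonneg_left hx hz0.le
    nlinarith
  have hne : S.Nonempty := by
    obtain ⟨ψ, g, H, h1, _⟩ := hnear 1 one_pos
    exact ⟨_, ψ, g, H, h1, rfl⟩
  set I := sInf S with hI
  have hIle : I ≤ -(z * cA) := by
    apply le_of_forall_pos_le_add
    intro ε hε
    obtain ⟨ψ, g, H, h1, h2⟩ := hnear ε hε
    have h3 : I ≤ Ff A v z ψ g := csInf_le hbdd ⟨ψ, g, H, h1, rfl⟩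
    linarith
  have hIlow : ∀ (φ : E3 → ℝ) (h : E3 → E3), Adm φ h → mass φ ≤ 1 → I ≤ Ff A v z φ h :=
    fun φ h H h1 => csInf_le hbdd ⟨φ, h, H, h1, rfl⟩
  -- minimizing sequence
  have hseq : ∀ n : ℕ, ∃ (ψ : E3 → ℝ) (g : E3 → E3), Adm ψ g ∧ mass ψ ≤ 1 ∧
      Ff A v z ψ g < I + 1 / ((n : ℝ) + 1) := by
    intro n
    obtain ⟨r, ⟨ψ, g, H, h2, rfl⟩, hr⟩ := exists_lt_of_csInf_lt hne
      (show sInf S < I + 1 / ((n : ℝ) + 1) by
        have : (0 : ℝ) < 1 / ((n : ℝ) + 1) := by positivity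
        linarith)
    exact ⟨ψ, g, H, h2, hr⟩
  choose ψ g H hm hF using hseq
  have hc3 := c3_pos
  have hone : ∀ n : ℕ, 1 / ((n : ℝ) + 1) ≤ 1 := by
    intro n
    rw [div_le_one (by positivity)]
    have : (0 : ℝ) ≤ n := Nat.cast_nonneg n
    linarith
  set G0 : ℝ := 2 * (I + 1 + v + z * (3 + c3)) with hG0
  have hG : ∀ n, Gf A (ψ n) (g n) ≤ G0 := by
    intro n
    have h1 := Gf_le_Ff hApos hV.nonneg hz0.le hz (H n) (hm n)
    have h2 := hF n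
    have h3 := hone n
    linarith
  have hG0' : 0 ≤ G0 := (Gf_nonneg hApos.le).trans (hG 0)
  set B : ℝ := 1 + G0 / A + (2 * G0 + 2) with hB
  have hGA : 0 ≤ G0 / A := by positivity
  have hB1 : ∀ n, ∫ x, ψ n x ^ 2 ≤ B := by
    intro n
    have : mass (ψ n) ≤ 1 := hm n
    unfold mass at this
    linarith
  have hB2 : ∀ n, ∫ x, ‖g n x‖ ^ 2 ≤ B := by
    intro n
    have h1 := kin_le_Gf hApos (ψ := ψ n) (g := g n)
    have h2 : Gf A (ψ n) (g n) / A ≤ G0 / A := div_le_div_of_nonneg_right (hG n) hApos.le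
    unfold kin at h1
    linarith
  have hB4 : ∀ n, ∫ x, ψ n x ^ 4 ≤ B := by
    intro n
    have h1 := quartic_le_Gf hApos (H n)
    have h2 := hG n
    have h3 := hm n
    linarith
  obtain ⟨ψ', g', φ, H', hφ, hw1, hw2, hloc, hae⟩ := adm_compact ψ g H B hB1 hB2 hB4
  have Hu : ∀ n, Adm (fun x => ψ (φ n) x - ψ' x) (fun x => g (φ n) x - g' x) :=
    fun n => (H (φ n)).sub H'
  set B' : ℝ := 2 * B + 2 * mass ψ' + 8 * B + 8 * ∫ x, ψ' x ^ 4 with hB'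
  have hBpos : 0 ≤ B := le_trans (integral_nonneg fun x => sq_nonneg _) (hB1 0)
  have hq0 : 0 ≤ ∫ x, ψ' x ^ 4 := integral_nonneg fun x => by positivity
  have hm0 := mass_nonneg (ψ := ψ')
  have hu2 : ∀ n, ∫ x, (ψ (φ n) x - ψ' x) ^ 2 ≤ B' := by
    intro n
    have h1 := integral_sq_sub_le (H (φ n)).l2 H'.l2
    have h2 := hB1 (φ n)
    unfold mass at hB' hm0
    linarith
  have hu4 : ∀ n, ∫ x, (ψ (φ n) x - ψ' x) ^ 4 ≤ B' := by
    intro n
    have h1 : ∫ x, (ψ (φ n) x - ψ' x) ^ 4 ≤ 8 * (∫ x, ψ (φ n) x ^ 4) + 8 * ∫ x, ψ' x ^ 4 := by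
      rw [← integral_const_mul, ← integral_const_mul,
        ← integral_add ((four_integrable (H (φ n)).l4).const_mul 8)
          ((four_integrable H'.l4).const_mul 8)]
      apply integral_mono (four_integrable (Hu n).l4)
        (((four_integrable (H (φ n)).l4).const_mul 8).add ((four_integrable H'.l4).const_mul 8))
      intro x
      show (ψ (φ n) x - ψ' x) ^ 4 ≤ 8 * ψ (φ n) x ^ 4 + 8 * ψ' x ^ 4
      set a := ψ (φ n) x
      set b := ψ' x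
      have e1 : (a - b) ^ 2 ≤ 2 * a ^ 2 + 2 * b ^ 2 := by nlinarith [sq_nonneg (a + b)]
      have e2 : ((a - b) ^ 2) ^ 2 ≤ (2 * a ^ 2 + 2 * b ^ 2) ^ 2 :=
        pow_le_pow_left₀ (sq_nonneg _) e1 2
      nlinarith [sq_nonneg (a ^ 2 - b ^ 2)]
    have h2 := hB4 (φ n)
    linarith
  -- mass of the limit
  have hsum : ∀ n, (fun x => ψ' x + (ψ (φ n) x - ψ' x)) = ψ (φ n) := by
    intro n; funext x; ring
  have hgsum : ∀ n, (fun x => g' x + (g (φ n) x - g' x)) = g (φ n) := by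
    intro n; funext x; abel
  have hmsplit : ∀ n, mass (ψ (φ n)) = mass ψ' + mass (fun x => ψ (φ n) x - ψ' x)
      + 2 * ∫ x, (ψ (φ n) x - ψ' x) * ψ' x := by
    intro n
    have h1 := mass_add H'.l2 (Hu n).l2
    rw [hsum n] at h1
    exact h1
  have hcross : Tendsto (fun n => 2 * ∫ x, (ψ (φ n) x - ψ' x) * ψ' x) atTop (𝓝 0) := by
    have := (hw1 ψ' H'.l2).const_mul 2
    simpa using this
  have hmle : mass ψ' ≤ 1 := by
    apply le_of_forall_pos_le_add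
    intro ε hε
    have h1 : ∀ᶠ n in atTop, -ε < 2 * ∫ x, (ψ (φ n) x - ψ' x) * ψ' x :=
      hcross.eventually (lt_mem_nhds (by linarith))
    obtain ⟨n, hn⟩ := h1.exists
    have h2 := hmsplit n
    have h3 := hm (φ n)
    have h4 := mass_nonneg (ψ := fun x => ψ (φ n) x - ψ' x)
    linarith
  have hlimF : ∀ ε : ℝ, 0 < ε → ∀ᶠ n in atTop, Ff A v z (ψ (φ n)) (g (φ n)) < I + ε := by
    intro ε hε
    have h1 : Tendsto (fun n : ℕ => 1 / ((n : ℝ) + 1)) atTop (𝓝 0) :=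
      tendsto_one_div_add_atTop_nhds_zero_nat
    have h2 : ∀ᶠ n in atTop, 1 / (((φ n : ℕ) : ℝ) + 1) < ε :=
      (h1.comp hφ.tendsto_atTop).eventually (gt_mem_nhds hε)
    filter_upwards [h2] with n hn
    have := hF (φ n)
    linarith
  -- the limit is nontrivial
  have hmpos : 0 < mass ψ' := by
    rcases eq_or_lt_of_le (mass_nonneg (ψ := ψ')) with h2 | h2
    · exfalso
      have h3 : (fun x => ψ' x ^ 2) =ᵐ[volume] 0 := by
        rw [← integral_eq_zero_iff_of_nonneg (fun x => sq_nonneg _) (sq_integrable' H'.l2)]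
        exact h2.symm
      have h4 : ∀ n, (fun x => ψ (φ n) x - ψ' x) =ᵐ[volume] ψ (φ n) := by
        intro n
        filter_upwards [h3] with x hx
        have : ψ' x = 0 := by
          have h5 : ψ' x ^ 2 = 0 := hx
          exact pow_eq_zero_iff (two_ne_zero) |>.1 h5
        rw [this, sub_zero]
      have h5 := nuc_small (fun n x => ψ (φ n) x - ψ' x) (fun n => (Hu n).l2) (fun n => (Hu n).l4)
        B' hu2 hu4 hloc (ε := cA / 4) (by positivity)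
      obtain ⟨n, hn1, hn2⟩ := (h5.and (hlimF (z * cA / 4) (by positivity))).exists
      rw [nuc_congr (h4 n)] at hn1
      have h6 := hV.lower (ψ (φ n)) (g (φ n)) (H (φ n)) (hm (φ n))
      have h7 : z * nuc (ψ (φ n)) ≤ z * (cA / 4) := mul_le_mul_of_nonneg_left hn1 hz0.le
      have h8 : 0 < z * cA := by positivity
      unfold Ff at hn2
      nlinarith
    · exact h2
  refine ⟨ψ', g', H', hmle, ?_, ?_⟩
  all_goals
    have hmain : Ff A v z ψ' g' ≤ I := by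
      apply le_of_forall_pos_le_add
      intro ε hε
      have h1 := splitting H' (fun n x => ψ (φ n) x - ψ' x) (fun n x => g (φ n) x - g' x) Hu B'
        hu2 hu4 hw1 hw2 hloc hae (A := A) (v := v) hz0.le (ε := ε / 2) (by positivity)
      have h2 : ∀ᶠ n in atTop, -(mass ψ') < 2 * ∫ x, (ψ (φ n) x - ψ' x) * ψ' x :=
        hcross.eventually (lt_mem_nhds (by linarith))
      obtain ⟨n, hn1, hn2, hn3⟩ := (h1.and (h2.and (hlimF (ε / 2) (by positivity)))).exists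
      rw [hsum n, hgsum n] at hn1
      have h3 := hmsplit n
      have h4 := hm (φ n)
      have h5 : mass (fun x => ψ (φ n) x - ψ' x) ≤ 1 := by linarith
      have h6 := hV.lower _ _ (Hu n) h5
      linarith
  · linarith
  · intro φ' h' Hφ' hmφ'
    exact hmain.trans (hIlow φ' h' Hφ' hmφ')

end

/-- quantitative information on the minimizers, uniformly in small nuclear charges. -/
theorem exists_min_quant {ℓ v : ℝ} (hℓ : 0 < ℓ) (hV : IsV (ℓ ^ 2) v) (hv : v < 1 / 6) :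
    ∃ lam0 C : ℝ, 0 < lam0 ∧ 0 < C ∧ ∀ z : ℝ, 0 < z → z ≤ 1 / 4 →
      (∃ (ψ : E3 → ℝ) (g : E3 → E3), Adm ψ g ∧ mass ψ ≤ 1 ∧
        ∀ (φ : E3 → ℝ) (h : E3 → E3), Adm φ h → mass φ ≤ 1 →
          Ff (ℓ ^ 2) v z ψ g ≤ Ff (ℓ ^ 2) v z φ h) ∧
      ∀ (ψ : E3 → ℝ) (g : E3 → E3), Adm ψ g → mass ψ ≤ 1 →
        (∀ (φ : E3 → ℝ) (h : E3 → E3), Adm φ h → mass φ ≤ 1 →
          Ff (ℓ ^ 2) v z ψ g ≤ Ff (ℓ ^ 2) v z φ h) →
        lam0 ≤ mass ψ ∧ Gf (ℓ ^ 2) ψ g ≤ v * mass ψ + z * C := by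
  set A := ℓ ^ 2 with hA
  have hApos : 0 < A := by positivity
  set cA := v1 * A / 32 with hcA
  have hcA0 : 0 < cA := by have := v1_pos; positivity
  have hc3 := c3_pos
  set G1 : ℝ := 2 * (1 + (3 + c3)) with hG1
  have hG1pos : 0 < G1 := by positivity
  obtain ⟨t, δ, ht, hδ, e1, e2⟩ := exists_params (B := 2 * G1 + 2) (by positivity)
    (show 0 < cA / 4 by positivity)
  refine ⟨δ * (cA / 2), 2 * G1 + (3 + c3), by positivity, by positivity, ?_⟩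
  intro z hz0 hz
  obtain ⟨ψ₀, g₀, H₀, hm₀, hF₀, hmin₀⟩ := exists_min hℓ hV hv hz0 hz
  refine ⟨⟨ψ₀, g₀, H₀, hm₀, hmin₀⟩, ?_⟩
  intro ψ g H hm hmin
  have hF : Ff A v z ψ g ≤ -(z * cA) := (hmin ψ₀ g₀ H₀ hm₀).trans hF₀
  have h1 := Gf_le_Ff hApos hV.nonneg hz0.le hz H hm (v := v)
  have hzc : 0 < z * cA := by positivity
  have hG : Gf A ψ g ≤ G1 := by
    have : z * (3 + c3) ≤ 1 * (3 + c3) := mul_le_mul_of_nonneg_right (by linarith) (by positivity)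
    linarith
  have h2 := nuc_le_Gf hApos H hm
  have h3 := hV.lower ψ g H hm
  have hnuc : cA ≤ nuc ψ := by
    have h4 : z * cA ≤ z * nuc ψ := by
      unfold Ff at hF
      linarith
    exact le_of_mul_le_mul_left h4 hz0
  constructor
  · have h5 := abs_pot_le' (sq_integrable' H.l2) (sqsq_integrable H.l4) 0 ht hδ
    rw [sqsq_integral, abs_sq_integral] at h5
    have h6 : nuc ψ ≤ |pot (fun y => ψ y ^ 2) 0| := le_abs_self _
    have h7 := quartic_le_Gf hApos H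
    have h8 : t / 2 * (∫ y, ψ y ^ 4) ≤ t / 2 * (2 * G1 + 2) := by
      apply mul_le_mul_of_nonneg_left _ (by positivity)
      linarith
    have h9 : cA / 2 ≤ 1 / δ * mass ψ := by linarith
    rw [one_div, le_inv_mul_iff₀ hδ] at h9
    exact h9
  · have h10 : z * nuc ψ ≤ z * (2 * G1 + (3 + c3)) := by
      apply mul_le_mul_of_nonneg_left _ hz0.le
      linarith
    unfold Ff at hF
    linarith

end Pool.Agent.W_b91f46_p2
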