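import Mathlib
import Pool.Agent.W_b91f46_p2.Bump
import Pool.Agent.W_b91f46_p2.Functionals

/-!
The trial function: a ball with constant density.
-/

open MeasureTheory Metric Set Filter Topology
open scoped ENNReal

namespace Pool.Agent.W_b91f46_p2

section
variable {a b : ℝ}

lemma vol_shell (ha : 0 ≤ a) (hab : a ≤ b) :
    (volume : Measure E3).real (ball 0 b \ ball 0 a) = v1 * (b ^ 3 - a ^ 3) := by
  rw [measureReal_diff (ball_subset_ball hab) measurableSet_ball measure_ball_lt_top.ne,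
    vol_ball _ (ha.trans hab), vol_ball _ ha]
  ring

lemma bump_kin_le {C : ℝ} (hC0 : 0 < C) (hC : ∀ t, |deriv Real.smoothTransition t| ≤ C)
    (ha : 0 < a) (hab : a < b) :
    kin (fun x => gradient (bump a b) x) ≤ (2 * C / (b - a)) ^ 2 * (v1 * (b ^ 3 - a ^ 3)) := by
  have hS : MeasurableSet (ball (0 : E3) b \ ball 0 a) := measurableSet_ball.diff measurableSet_ball
  have hfin : (volume : Measure E3) (ball 0 b \ ball 0 a) ≠ ∞ :=
    ((measure_mono diff_subset).trans_lt measure_ball_lt_top).ne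
  have e : (2 * C / (b - a)) ^ 2 * (v1 * (b ^ 3 - a ^ 3))
      = ∫ x, (ball (0 : E3) b \ ball 0 a).indicator (fun _ => (2 * C / (b - a)) ^ 2) x := by
    rw [integral_indicator hS, setIntegral_const, vol_shell ha.le hab.le, smul_eq_mul, mul_comm]
  rw [e]
  unfold kin
  apply integral_mono (sq_integrable (bump_adm ha hab).g2)
  · rw [integrable_indicator_iff hS]
    exact integrableOn_const hfin enorm_ne_top
  · intro x
    show ‖gradient (bump a b) x‖ ^ 2
      ≤ (ball (0 : E3) b \ ball 0 a).indicator (fun _ => (2 * C / (b - a)) ^ 2) x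
    by_cases hx : x ∈ ball (0 : E3) b \ ball 0 a
    · rw [indicator_of_mem hx]
      exact pow_le_pow_left₀ (norm_nonneg _) (bump_grad_le hC0 hC ha hab x) 2
    · rw [indicator_of_notMem hx, bump_grad_zero ha hab, norm_zero]
      · norm_num
      · rw [mem_diff, mem_ball_zero_iff, mem_ball_zero_iff] at hx
        by_contra hcon
        push Not at hcon
        exact hx ⟨hcon.2, not_lt.2 hcon.1.le⟩

lemma bump_wint_le (ha : 0 < a) (hab : a < b) :
    wint (bump a b) ≤ 2 * (v1 * (b ^ 3 - a ^ 3)) := by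
  have hS : MeasurableSet (ball (0 : E3) b \ ball 0 a) := measurableSet_ball.diff measurableSet_ball
  have hfin : (volume : Measure E3) (ball 0 b \ ball 0 a) ≠ ∞ :=
    ((measure_mono diff_subset).trans_lt measure_ball_lt_top).ne
  have e : 2 * (v1 * (b ^ 3 - a ^ 3))
      = ∫ x, (ball (0 : E3) b \ ball 0 a).indicator (fun _ => (2 : ℝ)) x := by
    rw [integral_indicator hS, setIntegral_const, vol_shell ha.le hab.le, smul_eq_mul, mul_comm]
  rw [e]
  unfold wint
  apply integral_mono (wv_integrable (bump_adm ha hab).l2 (bump_adm ha hab).l4)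
  · rw [integrable_indicator_iff hS]
    exact integrableOn_const hfin enorm_ne_top
  · intro x
    show wv (bump a b x) ≤ (ball (0 : E3) b \ ball 0 a).indicator (fun _ => (2 : ℝ)) x
    by_cases hx : x ∈ ball (0 : E3) b \ ball 0 a
    · rw [indicator_of_mem hx]
      exact wv_le_two (bump_nonneg x) (bump_le_one x)
    · rw [indicator_of_notMem hx]
      rw [mem_diff, mem_ball_zero_iff, mem_ball_zero_iff] at hx
      by_cases h1 : ‖x‖ ≤ a
      · rw [bump_one ha hab h1, wv_one]
      · have h2 : b ≤ ‖x‖ := by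
          by_contra hcon
          push Not at hcon h1
          exact hx ⟨hcon, not_lt.2 h1.le⟩
        rw [bump_zero ha hab h2, wv_zero]

lemma bump_sq_le (ha : 0 < a) (hab : a < b) (x : E3) :
    bump a b x ^ 2 ≤ (ball (0 : E3) b).indicator (fun _ => (1 : ℝ)) x := by
  by_cases hx : x ∈ ball (0 : E3) b
  · rw [indicator_of_mem hx]
    exact pow_le_one₀ (bump_nonneg x) (bump_le_one x)
  · rw [indicator_of_notMem hx]
    rw [mem_ball_zero_iff, not_lt] at hx
    rw [bump_zero ha hab hx]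
    norm_num

lemma bump_mass_le (ha : 0 < a) (hab : a < b) : mass (bump a b) ≤ v1 * b ^ 3 := by
  have e : v1 * b ^ 3 = ∫ x, (ball (0 : E3) b).indicator (fun _ => (1 : ℝ)) x := by
    rw [integral_indicator measurableSet_ball, setIntegral_const, vol_ball _ (ha.trans hab).le,
      smul_eq_mul, mul_one]
  rw [e]
  unfold mass
  apply integral_mono (sq_integrable' (bump_adm ha hab).l2)
  · rw [integrable_indicator_iff measurableSet_ball]
    exact integrableOn_const measure_ball_lt_top.ne enorm_ne_top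
  · intro x
    exact bump_sq_le ha hab x

lemma le_bump_mass (ha : 0 < a) (hab : a < b) : v1 * a ^ 3 ≤ mass (bump a b) := by
  have e : v1 * a ^ 3 = ∫ x, (ball (0 : E3) a).indicator (fun _ => (1 : ℝ)) x := by
    rw [integral_indicator measurableSet_ball, setIntegral_const, vol_ball _ ha.le,
      smul_eq_mul, mul_one]
  rw [e]
  unfold mass
  apply integral_mono _ (sq_integrable' (bump_adm ha hab).l2)
  · intro x
    show (ball (0 : E3) a).indicator (fun _ => (1 : ℝ)) x ≤ bump a b x ^ 2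
    by_cases hx : x ∈ ball (0 : E3) a
    · rw [indicator_of_mem hx, bump_one ha hab (mem_ball_zero_iff.1 hx).le]
      norm_num
    · rw [indicator_of_notMem hx]
      positivity
  · rw [integrable_indicator_iff measurableSet_ball]
    exact integrableOn_const measure_ball_lt_top.ne enorm_ne_top

lemma bump_pot_le (ha : 0 < a) (hab : a < b) {x : E3} (hx : ‖x‖ < b) :
    pot (fun y => bump a b y ^ 2) x ≤ c3 * (2 * b) ^ 2 := by
  have hb : 0 < b := ha.trans hab
  have hK : Integrable (fun y => K1 (2 * b) (x - y)) := (K1_integrable (2 * b)).comp_sub_left x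
  have e : ∫ y, K1 (2 * b) (x - y) ≤ c3 * (2 * b) ^ 2 := by
    rw [integral_sub_left_eq_self (fun y => K1 (2 * b) y) volume x]
    exact K1_integral_le (by positivity)
  refine le_trans ?_ e
  unfold pot
  apply integral_mono (pot_integrable (sq_integrable' (bump_adm ha hab).l2)
    (sqsq_integrable (bump_adm ha hab).l4) x) hK
  intro y
  show bump a b y ^ 2 / ‖x - y‖ ≤ K1 (2 * b) (x - y)
  by_cases hy : ‖y‖ < b
  · have h1 : ‖x - y‖ < 2 * b := by
      have := norm_sub_le x y
      linarith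
    unfold K1
    rw [indicator_of_mem (mem_ball_zero_iff.2 h1), ← one_div]
    apply div_le_div_of_nonneg_right _ (norm_nonneg _)
    exact pow_le_one₀ (bump_nonneg y) (bump_le_one y)
  · rw [bump_zero ha hab (not_lt.1 hy)]
    have := K1_nonneg (2 * b) (x - y)
    simpa using this

lemma bump_coul_le (ha : 0 < a) (hab : a < b) :
    coul (bump a b) ≤ 1 / 2 * (v1 * b ^ 3 * (c3 * (2 * b) ^ 2)) := by
  have hb : 0 < b := ha.trans hab
  have i1 := sq_integrable' (bump_adm ha hab).l2
  have i2 := sqsq_integrable (bump_adm ha hab).l4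
  have hc := c3_pos
  unfold coul BB
  apply mul_le_mul_of_nonneg_left _ (by norm_num)
  calc ∫ x, bump a b x ^ 2 * pot (fun y => bump a b y ^ 2) x
      ≤ ∫ x, bump a b x ^ 2 * (c3 * (2 * b) ^ 2) := by
        apply integral_mono (mul_pot_integrable i1 i1 i2) (i1.mul_const _)
        intro x
        show bump a b x ^ 2 * pot (fun y => bump a b y ^ 2) x ≤ bump a b x ^ 2 * (c3 * (2 * b) ^ 2)
        by_cases hx : ‖x‖ < b
        · exact mul_le_mul_of_nonneg_left (bump_pot_le ha hab hx) (sq_nonneg _)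
        · rw [bump_zero ha hab (not_lt.1 hx)]
          simp
    _ = mass (bump a b) * (c3 * (2 * b) ^ 2) := by rw [integral_mul_const]; rfl
    _ ≤ v1 * b ^ 3 * (c3 * (2 * b) ^ 2) :=
        mul_le_mul_of_nonneg_right (bump_mass_le ha hab) (by positivity)

end

theorem trial : ∃ C1 : ℝ, 0 < C1 ∧ ∀ a : ℝ, 0 < a → a ≤ 1 → 8 * v1 * a ^ 3 ≤ 1 →
    ∃ (k : E3 → ℝ) (g : E3 → E3), Adm k g ∧ 0 < mass k ∧ mass k ≤ 1 ∧
      Gf (a ^ 6) k g ≤ C1 * a ^ 2 * mass k := by
  obtain ⟨C, hC0, hC⟩ := exists_deriv_bound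
  have hv := v1_pos
  have hc := c3_pos
  refine ⟨48 * C ^ 2 + 24 + 64 * c3, by positivity, ?_⟩
  intro a ha ha1 hav
  set b := a + a ^ 3 with hb
  have ha3 : 0 < a ^ 3 := by positivity
  have hab : a < b := by linarith
  have hb2 : b ≤ 2 * a := by
    have : a ^ 3 ≤ a := by
      calc a ^ 3 = a * a ^ 2 := by ring
        _ ≤ a * 1 := mul_le_mul_of_nonneg_left (pow_le_one₀ ha.le ha1) ha.le
        _ = a := mul_one a
    linarith
  have hb0 : 0 < b := ha.trans hab
  have hdiff : b ^ 3 - a ^ 3 ≤ 12 * a ^ 5 := by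
    have e : b ^ 3 - a ^ 3 = a ^ 3 * (b ^ 2 + b * a + a ^ 2) := by rw [hb]; ring
    rw [e]
    have h1 : b ^ 2 + b * a + a ^ 2 ≤ 12 * a ^ 2 := by nlinarith
    calc _ ≤ a ^ 3 * (12 * a ^ 2) := mul_le_mul_of_nonneg_left h1 ha3.le
      _ = _ := by ring
  have hlow := le_bump_mass ha hab
  have hup := bump_mass_le ha hab
  have hb3 : b ^ 3 ≤ 8 * a ^ 3 := by
    calc b ^ 3 ≤ (2 * a) ^ 3 := pow_le_pow_left₀ hb0.le hb2 3
      _ = _ := by ring
  have hb5 : b ^ 5 ≤ 32 * a ^ 5 := by
    calc b ^ 5 ≤ (2 * a) ^ 5 := pow_le_pow_left₀ hb0.le hb2 5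
      _ = _ := by ring
  refine ⟨bump a b, fun x => gradient (bump a b) x, bump_adm ha hab, ?_, ?_, ?_⟩
  · exact lt_of_lt_of_le (by positivity) hlow
  · have : v1 * b ^ 3 ≤ v1 * (8 * a ^ 3) := mul_le_mul_of_nonneg_left hb3 hv.le
    linarith
  · have k1 := bump_kin_le hC0 hC ha hab
    have k2 := bump_wint_le ha hab
    have k3 := bump_coul_le ha hab
    have e1 : b - a = a ^ 3 := by rw [hb]; ring
    rw [e1] at k1
    have m1 : v1 * (b ^ 3 - a ^ 3) ≤ v1 * (12 * a ^ 5) := mul_le_mul_of_nonneg_left hdiff hv.le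
    have k1' : a ^ 6 * kin (fun x => gradient (bump a b) x) ≤ 4 * C ^ 2 * (v1 * (12 * a ^ 5)) := by
      calc _ ≤ a ^ 6 * ((2 * C / a ^ 3) ^ 2 * (v1 * (b ^ 3 - a ^ 3))) :=
            mul_le_mul_of_nonneg_left k1 (by positivity)
        _ = 4 * C ^ 2 * (v1 * (b ^ 3 - a ^ 3)) := by
            field_simp
            ring
        _ ≤ _ := mul_le_mul_of_nonneg_left m1 (by positivity)
    have k3' : coul (bump a b) ≤ 64 * c3 * (v1 * a ^ 5) := by
      refine k3.trans ?_
      have e2 : 1 / 2 * (v1 * b ^ 3 * (c3 * (2 * b) ^ 2)) = 2 * c3 * v1 * b ^ 5 := by ring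
      rw [e2]
      calc 2 * c3 * v1 * b ^ 5 ≤ 2 * c3 * v1 * (32 * a ^ 5) :=
            mul_le_mul_of_nonneg_left hb5 (by positivity)
        _ = _ := by ring
    have hfin : (48 * C ^ 2 + 24 + 64 * c3) * a ^ 2 * (v1 * a ^ 3)
        ≤ (48 * C ^ 2 + 24 + 64 * c3) * a ^ 2 * mass (bump a b) :=
      mul_le_mul_of_nonneg_left hlow (by positivity)
    have e3 : (48 * C ^ 2 + 24 + 64 * c3) * a ^ 2 * (v1 * a ^ 3)
      = 4 * C ^ 2 * (v1 * (12 * a ^ 5)) + 2 * (v1 * (12 * a ^ 5)) + 64 * c3 * (v1 * a ^ 5) := by ring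
    unfold Gf
    linarith

end Pool.Agent.W_b91f46_p2
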