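import Mathlib
import Pool.Agent.W_b91f46_p2.Trial
import Pool.Agent.W_b91f46_p2.Avg
import Pool.Agent.W_b91f46_p2.Exist

/-!
Radially nonincreasing functions of small energy are close to a ball.
-/

open MeasureTheory Metric Set Filter Topology
open scoped ENNReal

namespace Pool.Agent.W_b91f46_p2

section
variable {f : ℝ → ℝ}

lemma radial_measurable (hf : AntitoneOn f (Ioi 0)) : Measurable (fun x : E3 => f ‖x‖) := by
  -- approximations
  have hn : ∀ n : ℕ, (0 : ℝ) < 1 / ((n : ℝ) + 1) := fun n => by positivity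
  have h1 : ∀ n : ℕ, Measurable (fun t : ℝ => f (max t (1 / ((n : ℝ) + 1)))) := by
    intro n
    apply Antitone.measurable
    intro s t hst
    exact hf (mem_Ioi.2 (lt_max_of_lt_right (hn n))) (mem_Ioi.2 (lt_max_of_lt_right (hn n)))
      (max_le_max_right _ hst)
  have h2 : ∀ n : ℕ, Measurable (fun x : E3 => if x = 0 then f 0
      else f (max ‖x‖ (1 / ((n : ℝ) + 1)))) := fun n =>
    Measurable.ite (measurableSet_singleton 0) measurable_const ((h1 n).comp measurable_norm)
  refine measurable_of_tendsto_metrizable h2 (tendsto_pi_nhds.2 fun x => ?_)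
  by_cases hx : x = 0
  · simp [hx]
  · have hx' : 0 < ‖x‖ := norm_pos_iff.2 hx
    have h3 : ∀ᶠ n : ℕ in atTop, 1 / ((n : ℝ) + 1) < ‖x‖ :=
      tendsto_one_div_add_atTop_nhds_zero_nat.eventually (gt_mem_nhds hx')
    apply tendsto_const_nhds.congr'
    filter_upwards [h3] with n hn
    rw [if_neg hx, max_eq_left hn.le]

/-- a drop of a radial function costs kinetic energy. -/
lemma radial_kin (hf : AntitoneOn f (Ioi 0)) {g : E3 → E3} (H : Adm (fun x => f ‖x‖) g) {s t : ℝ}
    (ht : 0 < t) (hts : t ≤ s) : v1 * s ^ 2 * (f s - f (s + t)) ^ 2 ≤ 1024 * t * kin g := by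
  have hv := v1_pos
  have hs : 0 < s := ht.trans_le hts
  obtain ⟨i1, b1⟩ := avg_main (radial_measurable hf) H.l2 (K := kin g) kin_nonneg
    (fun a => translation_estimate H.l2 H.g2 H.weak a) (show 0 < 4 * t by positivity)
  set Δ := f s - f (s + t) with hΔ
  have hΔ0 : 0 ≤ Δ := by
    have := hf (mem_Ioi.2 hs) (mem_Ioi.2 (show 0 < s + t by positivity)) (by linarith)
    linarith
  have key : ∀ x ∈ ball (0 : E3) s \ ball 0 (s - t), x ≠ 0 → v1 * t ^ 3 * Δ ^ 2 ≤
      ∫ h in ball (0 : E3) (4 * t), (f ‖x + h‖ - f ‖x‖) ^ 2 := by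
    intro x hx hx0
    have hx1 : ‖x‖ < s := mem_ball_zero_iff.1 hx.1
    have hx2 : s - t ≤ ‖x‖ := by
      by_contra hcon
      push Not at hcon
      exact hx.2 (mem_ball_zero_iff.2 hcon)
    have hnx : 0 < ‖x‖ := norm_pos_iff.2 hx0
    set q : E3 := (3 * t / ‖x‖) • x with hq
    have hnq : ‖q‖ = 3 * t := by
      rw [hq, norm_smul, Real.norm_of_nonneg (by positivity), div_mul_cancel₀ _ hnx.ne']
    have hsub : ball q t ⊆ ball (0 : E3) (4 * t) := by
      intro h hh
      rw [mem_ball, dist_eq_norm] at hh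
      rw [mem_ball_zero_iff]
      have := norm_add_le q (h - q)
      rw [show q + (h - q) = h by abel] at this
      linarith
    have i2 := local_diff_integrable H.l2 (4 * t) x
    calc v1 * t ^ 3 * Δ ^ 2 = ∫ _ in ball q t, Δ ^ 2 := by
          rw [setIntegral_const, vol_ball _ ht.le, smul_eq_mul]
      _ ≤ ∫ h in ball q t, (f ‖x + h‖ - f ‖x‖) ^ 2 := by
          apply setIntegral_mono_on (integrableOn_const measure_ball_lt_top.ne enorm_ne_top)
            (i2.mono_set hsub) measurableSet_ball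
          intro h hh
          rw [mem_ball, dist_eq_norm] at hh
          have h1 : s + t ≤ ‖x + h‖ := by
            have e : x + q = ((‖x‖ + 3 * t) / ‖x‖) • x := by
              rw [hq, add_div, add_smul, div_self hnx.ne', one_smul]
            have n1 : ‖x + q‖ = ‖x‖ + 3 * t := by
              rw [e, norm_smul, Real.norm_of_nonneg (by positivity), div_mul_cancel₀ _ hnx.ne']
            have n2 : ‖x + q‖ ≤ ‖x + h‖ + ‖h - q‖ := by
              have := norm_sub_le (x + h) (h - q)
              rwa [show x + h - (h - q) = x + q by abel] at this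
            linarith
          have h2 : f ‖x + h‖ ≤ f (s + t) :=
            hf (mem_Ioi.2 (show 0 < s + t by positivity))
              (mem_Ioi.2 (lt_of_lt_of_le (by positivity) h1)) h1
          have h3 : f s ≤ f ‖x‖ := hf (mem_Ioi.2 hnx) (mem_Ioi.2 hs) hx1.le
          have h4 : Δ ≤ f ‖x‖ - f ‖x + h‖ := by linarith
          calc Δ ^ 2 ≤ (f ‖x‖ - f ‖x + h‖) ^ 2 := pow_le_pow_left₀ hΔ0 h4 2
            _ = _ := by ring
      _ ≤ ∫ h in ball (0 : E3) (4 * t), (f ‖x + h‖ - f ‖x‖) ^ 2 := by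
          apply setIntegral_mono_set i2 _ (HasSubset.Subset.eventuallyLE hsub)
          filter_upwards with h
          exact sq_nonneg _
  have hS : MeasurableSet (ball (0 : E3) s \ ball 0 (s - t)) :=
    measurableSet_ball.diff measurableSet_ball
  have hfin : (volume : Measure E3) (ball 0 s \ ball 0 (s - t)) ≠ ∞ :=
    ((measure_mono sdiff_subset).trans_lt measure_ball_lt_top).ne
  have h5 : v1 * (s ^ 3 - (s - t) ^ 3) * (v1 * t ^ 3 * Δ ^ 2)
      ≤ ∫ x, ∫ h in ball (0 : E3) (4 * t), (f ‖x + h‖ - f ‖x‖) ^ 2 := by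
    calc v1 * (s ^ 3 - (s - t) ^ 3) * (v1 * t ^ 3 * Δ ^ 2)
        = ∫ _ in ball (0 : E3) s \ ball 0 (s - t), v1 * t ^ 3 * Δ ^ 2 := by
          rw [setIntegral_const, vol_shell (by linarith) (by linarith), smul_eq_mul]
      _ ≤ ∫ x in ball (0 : E3) s \ ball 0 (s - t),
            ∫ h in ball (0 : E3) (4 * t), (f ‖x + h‖ - f ‖x‖) ^ 2 := by
          apply setIntegral_mono_on_ae (integrableOn_const hfin enorm_ne_top) i1.integrableOn hS
          filter_upwards [Measure.ae_ne volume (0 : E3)] with x hx0 hx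
          exact key x hx hx0
      _ ≤ _ := by
          apply setIntegral_le_integral i1
          filter_upwards with x
          exact integral_nonneg fun h => sq_nonneg _
  have h6 := h5.trans b1
  have h7 : s ^ 2 * t ≤ s ^ 3 - (s - t) ^ 3 := by
    have e : s ^ 3 - (s - t) ^ 3 = s ^ 2 * t + t * ((s - t) * (2 * s - t)) := by ring
    rw [e]
    have : 0 ≤ t * ((s - t) * (2 * s - t)) := by
      apply mul_nonneg ht.le
      apply mul_nonneg <;> linarith
    linarith
  have h8 : v1 * (s ^ 2 * t) * (v1 * t ^ 3 * Δ ^ 2) ≤ v1 * (4 * t) ^ 3 * ((4 * t) ^ 2 * kin g) := by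
    refine le_trans ?_ h6
    apply mul_le_mul_of_nonneg_right _ (by positivity)
    exact mul_le_mul_of_nonneg_left h7 hv.le
  have e1 : v1 * (s ^ 2 * t) * (v1 * t ^ 3 * Δ ^ 2) = (v1 * t ^ 4) * (v1 * s ^ 2 * Δ ^ 2) := by ring
  have e2 : v1 * (4 * t) ^ 3 * ((4 * t) ^ 2 * kin g) = (v1 * t ^ 4) * (1024 * t * kin g) := by ring
  rw [e1, e2] at h8
  exact le_of_mul_le_mul_left h8 (by positivity)

/-- lower bound for the local energy on a shell. -/
lemma shell_wint {g : E3 → E3} (H : Adm (fun x => f ‖x‖) g) {s t : ℝ} (hs : 0 ≤ s) (hst : s ≤ t)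
    (h : ∀ τ, s ≤ τ → τ < t → (7 / 10) ^ 3 ≤ f τ ∧ f τ < (19 / 20) ^ 3) :
    v1 * (t ^ 3 - s ^ 3) / 600 ≤ wint (fun x => f ‖x‖) := by
  have hfin : (volume : Measure E3) (ball 0 t \ ball 0 s) ≠ ∞ :=
    ((measure_mono sdiff_subset).trans_lt measure_ball_lt_top).ne
  have i1 := wv_integrable H.l2 H.l4
  unfold wint
  calc v1 * (t ^ 3 - s ^ 3) / 600 = ∫ _ in ball (0 : E3) t \ ball 0 s, (1 / 600 : ℝ) := by
        rw [setIntegral_const, vol_shell hs hst, smul_eq_mul]
        ring
    _ ≤ ∫ x in ball (0 : E3) t \ ball 0 s, wv (f ‖x‖) := by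
        apply setIntegral_mono_on (integrableOn_const hfin enorm_ne_top) i1.integrableOn
          (measurableSet_ball.diff measurableSet_ball)
        intro x hx
        have hx1 : ‖x‖ < t := mem_ball_zero_iff.1 hx.1
        have hx2 : s ≤ ‖x‖ := by
          by_contra hcon
          push Not at hcon
          exact hx.2 (mem_ball_zero_iff.2 hcon)
        obtain ⟨a1, a2⟩ := h ‖x‖ hx2 hx1
        exact wv_ge_const a2 a1
    _ ≤ _ := by
        apply setIntegral_le_integral i1
        filter_upwards with x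
        exact wv_nonneg _

/-- mass inside a ball. -/
lemma ball_mass {g : E3 → E3} (H : Adm (fun x => f ‖x‖) g) (hf : AntitoneOn f (Ioi 0)) {s : ℝ}
    (hs : 0 < s) (hfs : 0 ≤ f s) : v1 * s ^ 3 * f s ^ 2 ≤ mass (fun x => f ‖x‖) := by
  have i1 := sq_integrable' H.l2
  unfold mass
  calc v1 * s ^ 3 * f s ^ 2 = ∫ _ in ball (0 : E3) s, f s ^ 2 := by
        rw [setIntegral_const, vol_ball _ hs.le, smul_eq_mul]
    _ ≤ ∫ x in ball (0 : E3) s, f ‖x‖ ^ 2 := by
        apply setIntegral_mono_on_ae (integrableOn_const measure_ball_lt_top.ne enorm_ne_top)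
          i1.integrableOn measurableSet_ball
        filter_upwards [Measure.ae_ne volume (0 : E3)] with x hx0 hx
        have hx1 : ‖x‖ < s := mem_ball_zero_iff.1 hx
        have := hf (mem_Ioi.2 (norm_pos_iff.2 hx0)) (mem_Ioi.2 hs) hx1.le
        exact pow_le_pow_left₀ hfs this 2
    _ ≤ _ := by
        apply setIntegral_le_integral i1
        filter_upwards with x
        exact sq_nonneg _

/-- the shape of radially nonincreasing functions of small energy. -/
theorem radial_shape {C2 : ℝ} (hC2 : 0 < C2) {a : ℝ} (ha : 0 < a)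
    (hsmall : 8000000 * (C2 * a ^ 2) ≤ 1)
    (hf0 : ∀ t, 0 ≤ t → 0 ≤ f t) (hf : AntitoneOn f (Ioi 0)) {g : E3 → E3}
    (H : Adm (fun x => f ‖x‖) g) (hm0 : 0 < mass (fun x : E3 => f ‖x‖))
    (hm1 : mass (fun x : E3 => f ‖x‖) ≤ 1)
    (hG : Gf (a ^ 6) (fun x => f ‖x‖) g ≤ C2 * a ^ 2 * mass (fun x : E3 => f ‖x‖)) :
    ∃ r : ℝ, 0 < r ∧ (∀ t, 0 < t → t < r → (19 / 20) ^ 3 ≤ f t) ∧
      (∀ t, 23 / 20 * r ≤ t → f t ≤ (7 / 10) ^ 3) ∧
      mass (fun x : E3 => f ‖x‖) ≤ 128 * v1 * r ^ 3 ∧
      a ≤ 4000000 * C2 * r ∧ f (r / 8) ≤ 256 := by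
  have hv := v1_pos
  set m := mass (fun x : E3 => f ‖x‖) with hm
  set A := a ^ 6 with hA
  have hApos : 0 < A := by positivity
  have hCa : 0 < C2 * a ^ 2 := by positivity
  have hw := wint_le_Gf hApos (ψ := fun x : E3 => f ‖x‖) (g := g)
  -- the radius
  set S : Set ℝ := {t | 0 < t ∧ (19 / 20) ^ 3 ≤ f t} with hS
  have hbdd : BddAbove S := by
    refine ⟨2 / v1 + 1, ?_⟩
    rintro t ⟨ht0, ht⟩
    by_contra hcon
    push Not at hcon
    have h1 := ball_mass H hf ht0 (hf0 t ht0.le)
    have h2 : 1 / 2 ≤ f t ^ 2 := by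
      have : ((19 / 20 : ℝ) ^ 3) ^ 2 ≤ f t ^ 2 := pow_le_pow_left₀ (by norm_num) ht 2
      norm_num at this ⊢
      linarith
    have h3 : 1 ≤ t := by
      have : 0 < 2 / v1 := by positivity
      linarith
    have h4 : t ≤ t ^ 3 := le_self_pow₀ h3 (by norm_num)
    have h5 : 2 / v1 * v1 = 2 := div_mul_cancel₀ _ hv.ne'
    have h6 : 2 < v1 * t ^ 3 := by nlinarith
    nlinarith
  have hpos : ∃ t ∈ S, 0 < t := by
    by_contra hcon
    push Not at hcon
    have h1 : ∀ t, 0 < t → f t < (19 / 20) ^ 3 := by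
      intro t ht
      by_contra h2
      push Not at h2
      exact absurd (hcon t ⟨ht, h2⟩) (not_le.2 ht)
    have h2 : m ≤ 60 * wint (fun x : E3 => f ‖x‖) := by
      rw [hm]
      unfold mass wint
      rw [← integral_const_mul]
      apply integral_mono_ae (sq_integrable' H.l2) ((wv_integrable H.l2 H.l4).const_mul 60)
      filter_upwards [Measure.ae_ne volume (0 : E3)] with x hx
      exact wv_ge_mid (hf0 _ (norm_nonneg _)) (h1 _ (norm_pos_iff.2 hx))
    have h3 : 60 * (C2 * a ^ 2 * m) ≤ m / 2 := by nlinarith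
    linarith
  set r := sSup S with hr
  obtain ⟨t0, ht0S, ht0⟩ := hpos
  have hr0 : 0 < r := ht0.trans_le (le_csSup hbdd ht0S)
  have hin : ∀ t, 0 < t → t < r → (19 / 20) ^ 3 ≤ f t := by
    intro t h0 h1
    obtain ⟨s, hs, hts⟩ := exists_lt_of_lt_csSup ⟨t0, ht0S⟩ h1
    exact hs.2.trans (hf (mem_Ioi.2 h0) (mem_Ioi.2 hs.1) hts.le)
  have hout : ∀ t, r < t → f t < (19 / 20) ^ 3 := by
    intro t h1
    by_contra h2
    push Not at h2
    exact absurd (le_csSup hbdd ⟨hr0.trans h1, h2⟩) (not_le.2 h1)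
  -- the mass
  have hmass : m ≤ 128 * v1 * r ^ 3 := by
    have h1 : m ≤ 8 * (v1 * (2 * r) ^ 3) + 60 * wint (fun x : E3 => f ‖x‖) := by
      have hi : Integrable (fun x => (ball (0 : E3) (2 * r)).indicator (fun _ => (8 : ℝ)) x) := by
        rw [integrable_indicator_iff measurableSet_ball]
        exact integrableOn_const measure_ball_lt_top.ne enorm_ne_top
      have e : 8 * (v1 * (2 * r) ^ 3)
          = ∫ x, (ball (0 : E3) (2 * r)).indicator (fun _ => (8 : ℝ)) x := by
        rw [integral_indicator measurableSet_ball, setIntegral_const,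
          vol_ball _ (by positivity), smul_eq_mul, mul_comm]
      rw [e, hm]
      unfold mass wint
      rw [← integral_const_mul, ← integral_add hi ((wv_integrable H.l2 H.l4).const_mul 60)]
      apply integral_mono (sq_integrable' H.l2) (hi.add ((wv_integrable H.l2 H.l4).const_mul 60))
      intro x
      show f ‖x‖ ^ 2 ≤ (ball (0 : E3) (2 * r)).indicator (fun _ => (8 : ℝ)) x + 60 * wv (f ‖x‖)
      have hw0 := wv_nonneg (f ‖x‖)
      by_cases hx : x ∈ ball (0 : E3) (2 * r)
      · rw [indicator_of_mem hx]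
        have := wv_ge_large (f ‖x‖)
        linarith
      · rw [indicator_of_notMem hx]
        have hx' : 2 * r ≤ ‖x‖ := by
          rw [mem_ball_zero_iff, not_lt] at hx
          exact hx
        have := wv_ge_mid (hf0 _ (norm_nonneg x)) (hout ‖x‖ (by linarith))
        linarith
    have h3 : 60 * (C2 * a ^ 2 * m) ≤ m / 2 := by nlinarith
    nlinarith
  have hGr : Gf A (fun x => f ‖x‖) g ≤ C2 * a ^ 2 * (128 * v1 * r ^ 3) :=
    hG.trans (mul_le_mul_of_nonneg_left hmass hCa.le)
  -- a lower bound for the energy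
  set t := min (a ^ 3) (r / 2) with ht
  have ht0 : 0 < t := lt_min (by positivity) (by positivity)
  have hta : t ≤ a ^ 3 := min_le_left _ _
  have htr : t ≤ r / 2 := min_le_right _ _
  have hGlow : v1 * r ^ 2 * t / 16384 ≤ Gf A (fun x => f ‖x‖) g := by
    have hcoul := coul_nonneg (ψ := fun x : E3 => f ‖x‖)
    have hkin := kin_nonneg (g := g)
    have hwint := wint_nonneg (ψ := fun x : E3 => f ‖x‖)
    by_cases hcase : f (r - t / 2 + t) ≤ (7 / 10) ^ 3
    · have h2 : f (r - t / 2) ≥ (19 / 20) ^ 3 := hin _ (by linarith) (by linarith)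
      have h3 := radial_kin hf H (s := r - t / 2) (t := t) ht0 (by linarith)
      have h4 : 1 / 4 ≤ (f (r - t / 2) - f (r - t / 2 + t)) ^ 2 := by
        have : 1 / 2 ≤ f (r - t / 2) - f (r - t / 2 + t) := by
          norm_num at h2 hcase ⊢
          linarith
        nlinarith
      have h5 : r ^ 2 / 4 ≤ (r - t / 2) ^ 2 := by nlinarith
      have h6 : v1 * r ^ 2 / 16 ≤ 1024 * t * kin g := by
        refine le_trans ?_ h3
        calc v1 * r ^ 2 / 16 = v1 * (r ^ 2 / 4) * (1 / 4) := by ring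
          _ ≤ v1 * (r - t / 2) ^ 2 * (f (r - t / 2) - f (r - t / 2 + t)) ^ 2 := by
              apply mul_le_mul _ h4 (by norm_num) (by positivity)
              exact mul_le_mul_of_nonneg_left h5 hv.le
      have h7 : v1 * r ^ 2 * t / 16384 ≤ t ^ 2 * kin g := by nlinarith
      have h8 : t ^ 2 * kin g ≤ A * kin g := by
        apply mul_le_mul_of_nonneg_right _ hkin
        calc t ^ 2 ≤ (a ^ 3) ^ 2 := pow_le_pow_left₀ ht0.le hta 2
          _ = A := by rw [hA]; ring
      unfold Gf
      linarith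
    · push Not at hcase
      have h1 := shell_wint H (f := f) (s := r + t / 4) (t := r + t / 2) (by positivity)
        (by linarith) (by
          intro τ hτ1 hτ2
          constructor
          · refine hcase.le.trans ?_
            apply hf (mem_Ioi.2 (by linarith)) (mem_Ioi.2 (by linarith))
            linarith
          · exact hout τ (by linarith))
      have h2 : r ^ 2 * t * (3 / 4) ≤ (r + t / 2) ^ 3 - (r + t / 4) ^ 3 := by
        have e : (r + t / 2) ^ 3 - (r + t / 4) ^ 3 = r ^ 2 * t * (3 / 4)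
          + (9 / 16 * r * t ^ 2 + 7 / 64 * t ^ 3) := by ring
        rw [e]
        have : 0 ≤ 9 / 16 * r * t ^ 2 + 7 / 64 * t ^ 3 := by positivity
        linarith
      have h3 : v1 * (r ^ 2 * t * (3 / 4)) / 600 ≤ wint (fun x : E3 => f ‖x‖) := by
        refine le_trans ?_ h1
        apply div_le_div_of_nonneg_right _ (by norm_num)
        exact mul_le_mul_of_nonneg_left h2 hv.le
      have h4 : 0 ≤ v1 * (r ^ 2 * t) := by positivity
      have h5 : 0 ≤ A * kin g := by positivity
      unfold Gf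
      linarith
  have htle : t ≤ 4000000 * (C2 * a ^ 2) * r := by
    have h1 : v1 * r ^ 2 * t / 16384 ≤ C2 * a ^ 2 * (128 * v1 * r ^ 3) := hGlow.trans hGr
    have h2 : (v1 * r ^ 2) * t ≤ (v1 * r ^ 2) * (4000000 * (C2 * a ^ 2) * r) := by
      have h3 : 0 ≤ C2 * a ^ 2 * (v1 * r ^ 3) := by positivity
      nlinarith
    exact le_of_mul_le_mul_left h2 (by positivity)
  have hra : a ≤ 4000000 * C2 * r := by
    rcases le_total (a ^ 3) (r / 2) with h | h
    · have e : t = a ^ 3 := min_eq_left h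
      rw [e] at htle
      have h1 : a ^ 2 * a ≤ a ^ 2 * (4000000 * C2 * r) := by nlinarith
      exact le_of_mul_le_mul_left h1 (by positivity)
    · exfalso
      have e : t = r / 2 := min_eq_right h
      have h2 := hGlow.trans hGr
      rw [e] at h2
      have h17 : 0 < v1 * r ^ 3 := by positivity
      have h18 : C2 * a ^ 2 * (128 * v1 * r ^ 3) ≤ (1 / 8000000) * (128 * v1 * r ^ 3) := by
        apply mul_le_mul_of_nonneg_right _ (by positivity)
        linarith
      have h19 : v1 * r ^ 2 * (r / 2) / 16384 = v1 * r ^ 3 * (1 / 32768) := by ring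
      rw [h19] at h2
      linarith
  refine ⟨r, hr0, hin, ?_, hmass, hra, ?_⟩
  · have h0 : f (23 / 20 * r) ≤ (7 / 10) ^ 3 := by
      by_contra hcon
      push Not at hcon
      have h1 := shell_wint H (f := f) (s := 21 / 20 * r) (t := 23 / 20 * r) (by positivity)
        (by linarith) (by
          intro τ hτ1 hτ2
          constructor
          · refine hcon.le.trans ?_
            exact hf (mem_Ioi.2 (by linarith)) (mem_Ioi.2 (by linarith)) hτ2.le
          · exact hout τ (by linarith))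
      have h2 : (23 / 20 * r) ^ 3 - (21 / 20 * r) ^ 3 = 2906 / 8000 * r ^ 3 := by ring
      rw [h2] at h1
      have h17 : 0 < v1 * r ^ 3 := by positivity
      have h18 : C2 * a ^ 2 * (128 * v1 * r ^ 3) ≤ (1 / 8000000) * (128 * v1 * r ^ 3) := by
        apply mul_le_mul_of_nonneg_right _ (by positivity)
        linarith
      nlinarith
    intro τ hτ
    exact (hf (mem_Ioi.2 (by positivity)) (mem_Ioi.2 (lt_of_lt_of_le (by positivity) hτ)) hτ).trans h0
  · have h1 := ball_mass H hf (s := r / 8) (by positivity) (hf0 _ (by positivity))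
    rw [← hm] at h1
    have h2 : v1 * r ^ 3 * f (r / 8) ^ 2 ≤ v1 * r ^ 3 * 65536 := by nlinarith
    have h3 : f (r / 8) ^ 2 ≤ 65536 := le_of_mul_le_mul_left h2 (by positivity)
    have h4 := hf0 (r / 8) (by positivity)
    nlinarith

end

end Pool.Agent.W_b91f46_p2
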