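import Mathlib
import Pool.Agent.W_b91f46_p2.Kernel

/-!
Potentials of radially nonincreasing densities, by reflection.
-/

open MeasureTheory Metric Set Filter Topology
open scoped ENNReal

namespace Pool.Agent.W_b91f46_p2

/-- reflection in the hyperplane through `m` orthogonal to `d`. -/
noncomputable def refl (m d y : E3) : E3 := y - (2 * inner ℝ (y - m) d / ‖d‖ ^ 2) • d

lemma refl_eq (m d y : E3) : refl m d y = m + (ℝ ∙ d)ᗮ.reflection (y - m) := by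
  rw [Submodule.reflection_orthogonal_apply, Submodule.reflection_singleton_apply]
  unfold refl
  rw [real_inner_comm d (y - m)]
  simp only [RCLike.ofReal_real_eq_id, id_eq]
  rw [← Nat.cast_smul_eq_nsmul ℝ, smul_smul, Nat.cast_ofNat, mul_div_assoc]
  abel

lemma refl_integral (m d : E3) (F : E3 → ℝ) : ∫ y, F (refl m d y) = ∫ y, F y := by
  simp only [refl_eq]
  rw [integral_sub_right_eq_self (fun y => F (m + (ℝ ∙ d)ᗮ.reflection y)) m]
  rw [((ℝ ∙ d)ᗮ.reflection.measurePreserving).integral_comp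
    ((ℝ ∙ d)ᗮ.reflection.toHomeomorph.measurableEmbedding) (fun y => F (m + y))]
  exact integral_add_left_eq_self F m

lemma refl_integrable (m d : E3) {F : E3 → ℝ} (hF : Integrable F) :
    Integrable (fun y => F (refl m d y)) := by
  simp only [refl_eq]
  have h1 : Integrable (fun y => F (m + y)) := hF.comp_add_left m
  have h2 : Integrable (fun y => F (m + (ℝ ∙ d)ᗮ.reflection y)) :=
    (((ℝ ∙ d)ᗮ.reflection.measurePreserving).integrable_comp_emb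
      ((ℝ ∙ d)ᗮ.reflection.toHomeomorph.measurableEmbedding)).2 h1
  exact h2.comp_sub_right m

lemma refl_norm_sq (m : E3) {d : E3} (hd : d ≠ 0) (y : E3) :
    ‖refl m d y‖ ^ 2 = ‖y‖ ^ 2 - 4 * inner ℝ (y - m) d * inner ℝ m d / ‖d‖ ^ 2 := by
  have hd' : ‖d‖ ^ 2 ≠ 0 := pow_ne_zero 2 (norm_ne_zero_iff.2 hd)
  unfold refl
  rw [norm_sub_sq_real, norm_smul, mul_pow, Real.norm_eq_abs, sq_abs, inner_smul_right,
    inner_sub_left]
  field_simp
  ring

lemma refl_dist_sq {x x' : E3} (hne : x ≠ x') (y : E3) :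
    ‖x - refl ((1 / 2 : ℝ) • (x + x')) (x' - x) y‖ = ‖x' - y‖ ∧
    ‖x' - refl ((1 / 2 : ℝ) • (x + x')) (x' - x) y‖ = ‖x - y‖ := by
  have hd : x' - x ≠ 0 := sub_ne_zero.2 hne.symm
  have hd' : ‖x' - x‖ ^ 2 ≠ 0 := pow_ne_zero 2 (norm_ne_zero_iff.2 hd)
  set d := x' - x with hdd
  set m := (1 / 2 : ℝ) • (x + x') with hm
  have hx' : x' = x + d := by rw [hdd]; abel
  have hmx : m = x + (1 / 2 : ℝ) • d := by
    rw [hm, hx']
    module
  set c := inner ℝ (y - m) d with hc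
  set s := 2 * c / ‖d‖ ^ 2 with hs
  have hs' : s * ‖d‖ ^ 2 = 2 * c := by rw [hs]; field_simp
  have hσ : refl m d y = y - s • d := rfl
  have hcx : inner ℝ (x - y) d = -(1 / 2) * ‖d‖ ^ 2 - c := by
    rw [hc, hmx]
    simp only [inner_sub_left, inner_add_left, real_inner_smul_left, real_inner_self_eq_norm_sq]
    ring
  have e1 : ‖x' - y‖ ^ 2 = ‖x - y‖ ^ 2 - 2 * c := by
    rw [hx', show x + d - y = (x - y) + d by abel, norm_add_sq_real, hcx]
    ring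
  have e2 : ‖x - refl m d y‖ ^ 2 = ‖x - y‖ ^ 2 - 2 * c := by
    rw [hσ, show x - (y - s • d) = (x - y) + s • d by abel, norm_add_sq_real, norm_smul,
      inner_smul_right, hcx, mul_pow, Real.norm_eq_abs, sq_abs]
    have : s ^ 2 * ‖d‖ ^ 2 = s * (2 * c) := by rw [← hs']; ring
    rw [this]
    have h3 : 2 * (s * (-(1 / 2) * ‖d‖ ^ 2 - c)) = -(s * ‖d‖ ^ 2) - 2 * s * c := by ring
    rw [h3, hs']
    ring
  have e3 : ‖x' - refl m d y‖ ^ 2 = ‖x - y‖ ^ 2 := by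
    rw [hσ, hx', show x + d - (y - s • d) = (x - y) + (1 + s) • d by
      rw [add_smul, one_smul]; abel, norm_add_sq_real, norm_smul, inner_smul_right, hcx, mul_pow,
      Real.norm_eq_abs, sq_abs]
    have h4 : (1 + s) ^ 2 * ‖d‖ ^ 2 = (1 + s) * (‖d‖ ^ 2 + 2 * c) := by
      rw [← hs']; ring
    rw [h4]
    ring
  constructor
  · have : ‖x - refl m d y‖ ^ 2 = ‖x' - y‖ ^ 2 := by rw [e2, e1]
    exact (pow_left_inj₀ (norm_nonneg _) (norm_nonneg _) two_ne_zero).1 this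
  · exact (pow_left_inj₀ (norm_nonneg _) (norm_nonneg _) two_ne_zero).1 e3

lemma refl_order {x x' : E3} (hne : x ≠ x') (hle : ‖x‖ ≤ ‖x'‖) (y : E3) :
    (‖x - y‖ ≤ ‖x' - y‖ → ‖y‖ ≤ ‖refl ((1 / 2 : ℝ) • (x + x')) (x' - x) y‖) ∧
    (‖x' - y‖ ≤ ‖x - y‖ → ‖refl ((1 / 2 : ℝ) • (x + x')) (x' - x) y‖ ≤ ‖y‖) := by
  have hd : x' - x ≠ 0 := sub_ne_zero.2 hne.symm
  have hd' : 0 < ‖x' - x‖ ^ 2 := by
    have := norm_pos_iff.2 hd
    positivity
  have h1 := refl_norm_sq ((1 / 2 : ℝ) • (x + x')) hd y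
  have h2 : inner ℝ ((1 / 2 : ℝ) • (x + x')) (x' - x) = 1 / 2 * (‖x'‖ ^ 2 - ‖x‖ ^ 2) := by
    rw [real_inner_smul_left, inner_sub_right, inner_add_left, inner_add_left,
      real_inner_self_eq_norm_sq, real_inner_self_eq_norm_sq, real_inner_comm x x']
    ring
  have h3 : ‖x' - y‖ ^ 2 - ‖x - y‖ ^ 2
      = -2 * inner ℝ (y - (1 / 2 : ℝ) • (x + x')) (x' - x) := by
    rw [inner_sub_left, h2, norm_sub_sq_real, norm_sub_sq_real, inner_sub_right,
      real_inner_comm x' y, real_inner_comm x y]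
    ring
  have h4 : 0 ≤ inner ℝ ((1 / 2 : ℝ) • (x + x')) (x' - x) := by
    rw [h2]
    have := norm_nonneg x
    nlinarith
  set c := inner ℝ (y - (1 / 2 : ℝ) • (x + x')) (x' - x) with hc
  set q := inner ℝ ((1 / 2 : ℝ) • (x + x')) (x' - x) with hq
  constructor
  · intro h
    have h5 : c ≤ 0 := by
      have : ‖x - y‖ ^ 2 ≤ ‖x' - y‖ ^ 2 := pow_le_pow_left₀ (norm_nonneg _) h 2
      linarith
    have h6 : 4 * c * q / ‖x' - x‖ ^ 2 ≤ 0 := by
      apply div_nonpos_of_nonpos_of_nonneg _ hd'.le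
      nlinarith
    have h7 : ‖y‖ ^ 2 ≤ ‖refl ((1 / 2 : ℝ) • (x + x')) (x' - x) y‖ ^ 2 := by linarith
    exact (pow_le_pow_iff_left₀ (norm_nonneg _) (norm_nonneg _) two_ne_zero).1 h7
  · intro h
    have h5 : 0 ≤ c := by
      have : ‖x' - y‖ ^ 2 ≤ ‖x - y‖ ^ 2 := pow_le_pow_left₀ (norm_nonneg _) h 2
      linarith
    have h6 : 0 ≤ 4 * c * q / ‖x' - x‖ ^ 2 := by
      apply div_nonneg _ hd'.le
      positivity
    have h7 : ‖refl ((1 / 2 : ℝ) • (x + x')) (x' - x) y‖ ^ 2 ≤ ‖y‖ ^ 2 := by linarith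
    exact (pow_le_pow_iff_left₀ (norm_nonneg _) (norm_nonneg _) two_ne_zero).1 h7

lemma pot_diff_refl {ρ : E3 → ℝ} (h1 : Integrable ρ) (h2 : Integrable (fun y => ρ y ^ 2))
    {x x' : E3} (hne : x ≠ x') :
    Integrable (fun y => (ρ y - ρ (refl ((1 / 2 : ℝ) • (x + x')) (x' - x) y))
      * (1 / ‖x - y‖ - 1 / ‖x' - y‖)) ∧
    2 * (pot ρ x - pot ρ x') = ∫ y, (ρ y - ρ (refl ((1 / 2 : ℝ) • (x + x')) (x' - x) y))
      * (1 / ‖x - y‖ - 1 / ‖x' - y‖) := by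
  set σ := refl ((1 / 2 : ℝ) • (x + x')) (x' - x) with hσ
  have i1 : Integrable (fun y => ρ y * (1 / ‖x - y‖ - 1 / ‖x' - y‖)) := by
    refine ((pot_integrable h1 h2 x).sub (pot_integrable h1 h2 x')).congr ?_
    filter_upwards with y
    simp only [Pi.sub_apply]
    ring
  have e1 : pot ρ x - pot ρ x' = ∫ y, ρ y * (1 / ‖x - y‖ - 1 / ‖x' - y‖) := by
    unfold pot
    rw [← integral_sub (pot_integrable h1 h2 x) (pot_integrable h1 h2 x')]
    congr 1; funext y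
    ring
  have e2 : ∀ y, ρ (σ y) * (1 / ‖x - y‖ - 1 / ‖x' - y‖)
      = -(ρ (σ y) * (1 / ‖x - σ y‖ - 1 / ‖x' - σ y‖)) := by
    intro y
    obtain ⟨k1, k2⟩ := refl_dist_sq hne y
    rw [← hσ] at k1 k2
    rw [k1, k2]
    ring
  have i2 : Integrable (fun y => ρ (σ y) * (1 / ‖x - y‖ - 1 / ‖x' - y‖)) := by
    have := (refl_integrable ((1 / 2 : ℝ) • (x + x')) (x' - x) i1).neg
    refine this.congr ?_
    filter_upwards with y
    rw [e2 y]
    rfl
  have e3 : ∫ y, ρ (σ y) * (1 / ‖x - y‖ - 1 / ‖x' - y‖)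
      = -∫ y, ρ y * (1 / ‖x - y‖ - 1 / ‖x' - y‖) := by
    rw [← refl_integral ((1 / 2 : ℝ) • (x + x')) (x' - x)
      (fun y => ρ y * (1 / ‖x - y‖ - 1 / ‖x' - y‖)), ← integral_neg]
    congr 1; funext y
    exact e2 y
  constructor
  · refine (i1.sub i2).congr ?_
    filter_upwards with y
    simp only [Pi.sub_apply]
    ring
  · have e4 : ∫ y, (ρ y - ρ (σ y)) * (1 / ‖x - y‖ - 1 / ‖x' - y‖)
        = (∫ y, ρ y * (1 / ‖x - y‖ - 1 / ‖x' - y‖))
          - ∫ y, ρ (σ y) * (1 / ‖x - y‖ - 1 / ‖x' - y‖) := by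
      rw [← integral_sub i1 i2]
      congr 1; funext y
      ring
    rw [e4, e3, e1]
    ring

lemma refl_ne_zero (m d : E3) {y : E3} (hy : y ≠ refl m d 0) : refl m d y ≠ 0 := by
  intro h
  apply hy
  rw [refl_eq] at h ⊢
  have h1 : (ℝ ∙ d)ᗮ.reflection (y - m) = 0 - m := by
    rw [← h]; abel
  rw [← h1, Submodule.reflection_reflection]
  abel

section
variable {f : ℝ → ℝ}

lemma refl_integrand_nonneg (hf0 : ∀ t, 0 ≤ t → 0 ≤ f t) (hf : AntitoneOn f (Ioi 0))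
    {x x' : E3} (hne : x ≠ x') (hle : ‖x‖ ≤ ‖x'‖) (y : E3) (hyx : y ≠ x) (hyx' : y ≠ x')
    (hy0 : y ≠ 0) (hy0' : y ≠ refl ((1 / 2 : ℝ) • (x + x')) (x' - x) 0) :
    0 ≤ (f ‖y‖ ^ 2 - f ‖refl ((1 / 2 : ℝ) • (x + x')) (x' - x) y‖ ^ 2)
      * (1 / ‖x - y‖ - 1 / ‖x' - y‖) := by
  have hx : 0 < ‖x - y‖ := norm_pos_iff.2 (sub_ne_zero.2 hyx.symm)
  have hx' : 0 < ‖x' - y‖ := norm_pos_iff.2 (sub_ne_zero.2 hyx'.symm)
  obtain ⟨k1, k2⟩ := refl_order hne hle y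
  have hσ0 := refl_ne_zero _ _ hy0'
  set σy := refl ((1 / 2 : ℝ) • (x + x')) (x' - x) y with hσ
  have hny : 0 < ‖y‖ := norm_pos_iff.2 hy0
  have hnσ : 0 < ‖σy‖ := norm_pos_iff.2 hσ0
  rcases le_total ‖x - y‖ ‖x' - y‖ with h | h
  · apply mul_nonneg
    · have := hf (mem_Ioi.2 hny) (mem_Ioi.2 hnσ) (k1 h)
      have h0 := hf0 _ (norm_nonneg σy)
      nlinarith
    · have := one_div_le_one_div_of_le hx h
      linarith
  · apply mul_nonneg_of_nonpos_of_nonpos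
    · have := hf (mem_Ioi.2 hnσ) (mem_Ioi.2 hny) (k2 h)
      have h0 := hf0 _ (norm_nonneg y)
      nlinarith
    · have := one_div_le_one_div_of_le hx' h
      linarith

lemma pot_antitone (hf0 : ∀ t, 0 ≤ t → 0 ≤ f t) (hf : AntitoneOn f (Ioi 0))
    (h1 : Integrable (fun y : E3 => f ‖y‖ ^ 2)) (h2 : Integrable (fun y : E3 => (f ‖y‖ ^ 2) ^ 2))
    {x x' : E3} (hle : ‖x‖ ≤ ‖x'‖) :
    pot (fun y => f ‖y‖ ^ 2) x' ≤ pot (fun y => f ‖y‖ ^ 2) x := by
  by_cases hne : x = x'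
  · rw [hne]
  · obtain ⟨_, e⟩ := pot_diff_refl h1 h2 hne
    have h3 : 0 ≤ 2 * (pot (fun y => f ‖y‖ ^ 2) x - pot (fun y => f ‖y‖ ^ 2) x') := by
      rw [e]
      apply integral_nonneg_of_ae
      filter_upwards [Measure.ae_ne volume x, Measure.ae_ne volume x', Measure.ae_ne volume 0,
        Measure.ae_ne volume (refl ((1 / 2 : ℝ) • (x + x')) (x' - x) 0)] with y hy1 hy2 hy3 hy4
      exact refl_integrand_nonneg hf0 hf hne hle y hy1 hy2 hy3 hy4
    linarith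

/-- a quantitative decrease of the potential. -/
lemma pot_gap (hf0 : ∀ t, 0 ≤ t → 0 ≤ f t) (hf : AntitoneOn f (Ioi 0))
    (h1 : Integrable (fun y : E3 => f ‖y‖ ^ 2)) (h2 : Integrable (fun y : E3 => (f ‖y‖ ^ 2) ^ 2))
    {r : ℝ} (hr : 0 < r) (hin : ∀ t, 0 < t → t < r → (19 / 20) ^ 3 ≤ f t)
    (hout : ∀ t, 23 / 20 * r ≤ t → f t ≤ (7 / 10) ^ 3)
    {x x' : E3} (hx : ‖x‖ ≤ r / 4) (hx' : 9 / 10 * r ≤ ‖x'‖) :
    pot (fun y => f ‖y‖ ^ 2) x' + v1 * r ^ 2 / 2500 ≤ pot (fun y => f ‖y‖ ^ 2) x := by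
  obtain ⟨e, he⟩ : ∃ e : E3, ‖e‖ = 1 := ⟨EuclideanSpace.single 0 1, by simp⟩
  set x₁ : E3 := (-(r / 4)) • e with hx₁
  set x₂ : E3 := (9 / 10 * r) • e with hx₂
  have n1 : ‖x₁‖ = r / 4 := by
    rw [hx₁, norm_smul, he, mul_one, Real.norm_eq_abs, abs_neg, abs_of_pos (by positivity)]
  have n2 : ‖x₂‖ = 9 / 10 * r := by
    rw [hx₂, norm_smul, he, mul_one, Real.norm_eq_abs, abs_of_pos (by positivity)]
  have hle : ‖x₁‖ ≤ ‖x₂‖ := by rw [n1, n2]; linarith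
  have hne : x₁ ≠ x₂ := by
    intro h
    have : ‖x₁‖ = ‖x₂‖ := by rw [h]
    rw [n1, n2] at this
    linarith
  have a1 := pot_antitone hf0 hf h1 h2 (x := x) (x' := x₁) (by rw [n1]; exact hx)
  have a2 := pot_antitone hf0 hf h1 h2 (x := x₂) (x' := x') (by rw [n2]; exact hx')
  obtain ⟨hi, heq⟩ := pot_diff_refl h1 h2 hne
  set F : E3 → ℝ := fun y => (f ‖y‖ ^ 2 - f ‖refl ((1 / 2 : ℝ) • (x₁ + x₂)) (x₂ - x₁) y‖ ^ 2)
      * (1 / ‖x₁ - y‖ - 1 / ‖x₂ - y‖) with hF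
  have hF0 : 0 ≤ᵐ[volume] F := by
    filter_upwards [Measure.ae_ne volume x₁, Measure.ae_ne volume x₂, Measure.ae_ne volume 0,
      Measure.ae_ne volume (refl ((1 / 2 : ℝ) • (x₁ + x₂)) (x₂ - x₁) 0)] with y hy1 hy2 hy3 hy4
    exact refl_integrand_nonneg hf0 hf hne hle y hy1 hy2 hy3 hy4
  set p : E3 := (-(3 / 4 * r)) • e with hp
  have hS : ∀ y ∈ ball p (r / 8), 9 / (20 * r) ≤ F y := by
    intro y hy
    rw [mem_ball, dist_eq_norm] at hy
    set w := y - p with hw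
    have hyp : y = p + w := by rw [hw]; abel
    have np : ‖p‖ = 3 / 4 * r := by
      rw [hp, norm_smul, he, mul_one, Real.norm_eq_abs, abs_neg, abs_of_pos (by positivity)]
    have hny : ‖y‖ < r := by
      have := norm_add_le p w
      rw [hyp]
      linarith
    have hy1 : inner ℝ y e ≤ -(5 / 8 * r) := by
      rw [hyp, inner_add_left, hp, real_inner_smul_left, real_inner_self_eq_norm_sq, he]
      have := real_inner_le_norm w e
      rw [he] at this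
      linarith
    have hsq1 : (5 / 8 * r) ^ 2 ≤ ‖y‖ ^ 2 := by
      have h5 := abs_real_inner_le_norm y e
      rw [he, mul_one] at h5
      have h6 : 5 / 8 * r ≤ |inner ℝ y e| := by
        rw [abs_of_neg (by linarith)]
        linarith
      exact pow_le_pow_left₀ (by positivity) (h6.trans h5) 2
    have hd : x₂ - x₁ = (23 / 20 * r) • e := by
      rw [hx₁, hx₂, ← sub_smul]
      congr 1; ring
    have hd0 : x₂ - x₁ ≠ 0 := sub_ne_zero.2 hne.symm
    have hmm : (1 / 2 : ℝ) • (x₁ + x₂) = (13 / 40 * r) • e := by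
      rw [hx₁, hx₂, ← add_smul, smul_smul]
      congr 1; ring
    have hσ : (23 / 20 * r) ^ 2 ≤ ‖refl ((1 / 2 : ℝ) • (x₁ + x₂)) (x₂ - x₁) y‖ ^ 2 := by
      rw [refl_norm_sq _ hd0, hmm, hd, norm_smul, he, mul_one, Real.norm_eq_abs, sq_abs,
        inner_smul_right, inner_smul_right, inner_sub_left, real_inner_smul_left,
        real_inner_self_eq_norm_sq, he]
      have e5 : 4 * (23 / 20 * r * (inner ℝ y e - 13 / 40 * r * 1 ^ 2)) *
          (23 / 20 * r * (13 / 40 * r * 1 ^ 2)) / (23 / 20 * r) ^ 2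
          = 13 / 10 * r * (inner ℝ y e - 13 / 40 * r) := by
        field_simp
        ring
      rw [e5]
      nlinarith
    have hσ' : 23 / 20 * r ≤ ‖refl ((1 / 2 : ℝ) • (x₁ + x₂)) (x₂ - x₁) y‖ :=
      (pow_le_pow_iff_left₀ (by positivity) (norm_nonneg _) two_ne_zero).1 hσ
    have hny0 : 0 < ‖y‖ := by
      have h7 : 0 < ‖y‖ ^ 2 := lt_of_lt_of_le (by positivity) hsq1
      exact lt_of_le_of_ne (norm_nonneg y) (fun h => by rw [← h] at h7; norm_num at h7)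
    have b1 := hin ‖y‖ hny0 hny
    have b2 := hout _ hσ'
    have b3 := hf0 _ (norm_nonneg (refl ((1 / 2 : ℝ) • (x₁ + x₂)) (x₂ - x₁) y))
    have hρ : 1 / 2 ≤ f ‖y‖ ^ 2 - f ‖refl ((1 / 2 : ℝ) • (x₁ + x₂)) (x₂ - x₁) y‖ ^ 2 := by
      have c1 : ((19 / 20 : ℝ) ^ 3) ^ 2 ≤ f ‖y‖ ^ 2 := pow_le_pow_left₀ (by norm_num) b1 2
      have c2 : f ‖refl ((1 / 2 : ℝ) • (x₁ + x₂)) (x₂ - x₁) y‖ ^ 2 ≤ ((7 / 10 : ℝ) ^ 3) ^ 2 :=
        pow_le_pow_left₀ b3 b2 2
      norm_num at c1 c2 ⊢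
      linarith
    have g1 : ‖x₁ - p‖ = 1 / 2 * r := by
      rw [hx₁, hp, ← sub_smul, norm_smul, he, mul_one, Real.norm_eq_abs]
      rw [show -(r / 4) - -(3 / 4 * r) = 1 / 2 * r by ring, abs_of_pos (by positivity)]
    have g2 : ‖x₂ - p‖ = 33 / 20 * r := by
      rw [hx₂, hp, ← sub_smul, norm_smul, he, mul_one, Real.norm_eq_abs]
      rw [show 9 / 10 * r - -(3 / 4 * r) = 33 / 20 * r by ring, abs_of_pos (by positivity)]
    have u1 : ‖x₁ - y‖ ≤ 5 / 8 * r := by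
      have := norm_sub_le (x₁ - p) w
      rw [hyp, show x₁ - (p + w) = (x₁ - p) - w by abel]
      linarith
    have l1 : 0 < ‖x₁ - y‖ := by
      have := norm_sub_norm_le (x₁ - p) w
      rw [hyp, show x₁ - (p + w) = (x₁ - p) - w by abel]
      linarith
    have l2 : 61 / 40 * r ≤ ‖x₂ - y‖ := by
      have := norm_sub_norm_le (x₂ - p) w
      rw [hyp, show x₂ - (p + w) = (x₂ - p) - w by abel]
      linarith
    have k1 := one_div_le_one_div_of_le l1 u1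
    have k2 := one_div_le_one_div_of_le (show 0 < 61 / 40 * r by positivity) l2
    have k3 : 9 / (10 * r) ≤ 1 / ‖x₁ - y‖ - 1 / ‖x₂ - y‖ := by
      have e6 : 1 / (5 / 8 * r) - 1 / (61 / 40 * r) = (8 / 5 - 40 / 61) / r := by
        field_simp
      have e7 : 9 / (10 * r) = (9 / 10) / r := by
        field_simp
      have e8 : (9 / 10) / r ≤ (8 / 5 - 40 / 61) / r := by
        apply div_le_div_of_nonneg_right _ hr.le
        norm_num
      linarith
    have k4 : 0 ≤ 9 / (10 * r) := by positivity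
    calc 9 / (20 * r) = 1 / 2 * (9 / (10 * r)) := by field_simp; try norm_num
      _ ≤ F y := mul_le_mul hρ k3 k4 (by linarith)
  have hint : 9 / (20 * r) * (v1 * (r / 8) ^ 3) ≤ ∫ y, F y := by
    calc 9 / (20 * r) * (v1 * (r / 8) ^ 3) = ∫ _ in ball p (r / 8), 9 / (20 * r) := by
          rw [setIntegral_const, vol_ball _ (by positivity), smul_eq_mul, mul_comm]
      _ ≤ ∫ y in ball p (r / 8), F y := by
          apply setIntegral_mono_on (integrableOn_const measure_ball_lt_top.ne enorm_ne_top)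
            hi.integrableOn measurableSet_ball
          exact hS
      _ ≤ ∫ y, F y := setIntegral_le_integral hi hF0
  rw [← heq] at hint
  have hv := v1_pos
  have e9 : 9 / (20 * r) * (v1 * (r / 8) ^ 3) = v1 * r ^ 2 * (9 / 10240) := by
    field_simp
    norm_num
  rw [e9] at hint
  have hpos : 0 ≤ v1 * r ^ 2 := by positivity
  linarith

end

end Pool.Agent.W_b91f46_p2
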