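import Mathlib
import Pool.Agent.W_b91f46_p2.Split2

/-!
The first variation inequality for minimizers.
-/

open MeasureTheory Metric Set Filter Topology
open scoped ENNReal

namespace Pool.Agent.W_b91f46_p2

/-- convexity of the power `8/3`. -/
lemma rpow83_convex {a : ℝ} (ha : 0 ≤ a) (y : ℝ) :
    |a| ^ (8 / 3 : ℝ) + 8 / 3 * |a| ^ (5 / 3 : ℝ) * (y - a) ≤ |y| ^ (8 / 3 : ℝ) := by
  obtain ⟨t, ht, rfl⟩ := exists_cube_root ha
  have hy : y ≤ |y| := le_abs_self y
  obtain ⟨s, hs, hsy⟩ := exists_cube_root (abs_nonneg y)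
  rw [abs_of_nonneg ha, rpow_83 ht, rpow_53 ht]
  have h1 : 8 / 3 * t ^ 5 * (y - t ^ 3) ≤ 8 / 3 * t ^ 5 * (|y| - t ^ 3) := by
    apply mul_le_mul_of_nonneg_left _ (by positivity)
    linarith
  rw [← hsy] at h1 ⊢
  rw [rpow_83 hs]
  have h2 : 0 ≤ (s - t) ^ 2 * (3 * s ^ 6 + 6 * t * s ^ 5 + 9 * t ^ 2 * s ^ 4 + 12 * t ^ 3 * s ^ 3
    + 15 * t ^ 4 * s ^ 2 + 10 * t ^ 5 * s + 5 * t ^ 6) := by positivity
  have e : (s - t) ^ 2 * (3 * s ^ 6 + 6 * t * s ^ 5 + 9 * t ^ 2 * s ^ 4 + 12 * t ^ 3 * s ^ 3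
    + 15 * t ^ 4 * s ^ 2 + 10 * t ^ 5 * s + 5 * t ^ 6) = 3 * s ^ 8 - 8 * t ^ 5 * s ^ 3 + 5 * t ^ 8 := by
    ring
  rw [e] at h2
  linarith

lemma wv_taylor {a : ℝ} (ha : 0 ≤ a) (b : ℝ) {ε : ℝ} (h0 : 0 ≤ ε) (h1 : ε ≤ 1) :
    wv (a + ε * b) ≤ wv a + 2 * ε * (Pv a * b) + ε ^ 2 * (2 * b ^ 2 + 4 * a ^ 4 + 7 * b ^ 4) := by
  have hc := rpow83_convex ha (a + ε * b)
  rw [show a + ε * b - a = ε * b by ring] at hc
  have h2 : (a + ε * b) ^ 4 ≤ a ^ 4 + 4 * ε * (a ^ 3 * b) + ε ^ 2 * (4 * a ^ 4 + 7 * b ^ 4) := by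
    have e : (a + ε * b) ^ 4 = a ^ 4 + 4 * ε * (a ^ 3 * b)
      + ε ^ 2 * (6 * (a ^ 2 * b ^ 2) + 4 * (ε * (a * b ^ 3)) + ε ^ 2 * b ^ 4) := by ring
    rw [e]
    have h3 : 6 * (a ^ 2 * b ^ 2) ≤ 3 * a ^ 4 + 3 * b ^ 4 := by nlinarith [sq_nonneg (a ^ 2 - b ^ 2)]
    have h4 : 4 * (ε * (a * b ^ 3)) ≤ a ^ 4 + 3 * b ^ 4 := by
      have h5 : ε * (a * b ^ 3) ≤ |a * b ^ 3| := by
        calc ε * (a * b ^ 3) ≤ |ε * (a * b ^ 3)| := le_abs_self _
          _ = ε * |a * b ^ 3| := by rw [abs_mul, abs_of_nonneg h0]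
          _ ≤ 1 * |a * b ^ 3| := mul_le_mul_of_nonneg_right h1 (abs_nonneg _)
          _ = _ := one_mul _
      have h6 : 4 * |a * b ^ 3| ≤ a ^ 4 + 3 * b ^ 4 := by
        rw [abs_mul, abs_pow, abs_of_nonneg ha]
        have eb4 : |b| ^ 4 = b ^ 4 := by rw [← abs_pow]; exact abs_of_nonneg (by positivity)
        rw [← eb4]
        have hb := abs_nonneg b
        nlinarith [sq_nonneg (a ^ 2 - |b| ^ 2), mul_nonneg (sq_nonneg (a - |b|)) (sq_nonneg |b|),
          sq_nonneg (a - |b|), sq_nonneg (a * |b| - |b| ^ 2), sq_nonneg (a * a - |b| * |b|),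
          sq_nonneg (a * |b| - |b| * |b|)]
      linarith
    have h7 : ε ^ 2 * b ^ 4 ≤ b ^ 4 := by
      have : ε ^ 2 ≤ 1 := pow_le_one₀ h0 h1
      have hb4 : 0 ≤ b ^ 4 := by positivity
      nlinarith
    have h8 : 0 ≤ ε ^ 2 := by positivity
    nlinarith [mul_le_mul_of_nonneg_left (show 6 * (a ^ 2 * b ^ 2) + 4 * (ε * (a * b ^ 3))
      + ε ^ 2 * b ^ 4 ≤ 4 * a ^ 4 + 7 * b ^ 4 by linarith) h8]
  unfold wv Pv
  have e2 : 2 * (a + ε * b) ^ 2 = 2 * a ^ 2 + 4 * ε * (a * b) + ε ^ 2 * (2 * b ^ 2) := by ring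
  rw [e2]
  nlinarith

lemma continuous_Pv : Continuous Pv := by
  unfold Pv
  have h : Continuous (fun u : ℝ => |u| ^ (5 / 3 : ℝ)) :=
    continuous_abs.rpow_const (fun x => Or.inr (by norm_num))
  fun_prop

lemma abs_Pv_le (u : ℝ) : |Pv u| ≤ 6 * |u| ^ 3 + 6 * |u| := by
  have h1 : |u| ^ (5 / 3 : ℝ) ≤ |u| + |u| ^ 3 := by
    obtain ⟨t, ht, htu⟩ := exists_cube_root (abs_nonneg u)
    rw [← htu, rpow_53 ht]
    have e : t ^ 3 + (t ^ 3) ^ 3 - t ^ 5 = t ^ 3 * (1 - t ^ 2 + (t ^ 2) ^ 3) := by ring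
    have h5 : 0 ≤ 1 - t ^ 2 + (t ^ 2) ^ 3 := by
      nlinarith [sq_nonneg (t ^ 2 - 1), sq_nonneg t, mul_nonneg (sq_nonneg t) (sq_nonneg (t ^ 2 - 1))]
    have h6 : 0 ≤ t ^ 3 * (1 - t ^ 2 + (t ^ 2) ^ 3) := by positivity
    linarith
  have h2 : 0 ≤ |u| ^ (5 / 3 : ℝ) := Real.rpow_nonneg (abs_nonneg _) _
  have h3 : |u ^ 3| = |u| ^ 3 := abs_pow u 3
  have h4 := neg_abs_le (u ^ 3)
  have h5 := le_abs_self (u ^ 3)
  have h6 := neg_abs_le u
  have h7 := le_abs_self u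
  rw [h3] at h4 h5
  unfold Pv
  rw [abs_le]
  constructor <;> linarith

section
variable {ψ η : E3 → ℝ}

lemma Pv_mul_integrable (h2 : MemLp ψ 2) (h4 : MemLp ψ 4) (e2 : MemLp η 2) (e4 : MemLp η 4) :
    Integrable (fun x => Pv (ψ x) * η x) := by
  refine ((((four_integrable h4).add (four_integrable e4)).const_mul 6).add
    (((sq_integrable' h2).add (sq_integrable' e2)).const_mul 6)).mono'
    ((continuous_Pv.comp_aestronglyMeasurable h2.aestronglyMeasurable).mul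
      e2.aestronglyMeasurable) ?_
  filter_upwards with x
  rw [norm_mul, Real.norm_eq_abs, Real.norm_eq_abs]
  show |Pv (ψ x)| * |η x| ≤ 6 * (ψ x ^ 4 + η x ^ 4) + 6 * (ψ x ^ 2 + η x ^ 2)
  have h1 := mul_le_mul_of_nonneg_right (abs_Pv_le (ψ x)) (abs_nonneg (η x))
  set a := |ψ x| with ha
  set b := |η x| with hb
  have ha0 : 0 ≤ a := abs_nonneg _
  have hb0 : 0 ≤ b := abs_nonneg _
  have ea2 : ψ x ^ 2 = a ^ 2 := (sq_abs _).symm
  have eb2 : η x ^ 2 = b ^ 2 := (sq_abs _).symm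
  have ea4 : ψ x ^ 4 = a ^ 4 := by rw [ha, ← abs_pow]; exact (abs_of_nonneg (by positivity)).symm
  have eb4 : η x ^ 4 = b ^ 4 := by rw [hb, ← abs_pow]; exact (abs_of_nonneg (by positivity)).symm
  rw [ea2, eb2, ea4, eb4]
  have h3 : a ^ 3 * b ≤ a ^ 4 + b ^ 4 := by
    rcases le_total a b with h | h
    · calc a ^ 3 * b ≤ b ^ 3 * b :=
            mul_le_mul_of_nonneg_right (pow_le_pow_left₀ ha0 h 3) hb0
        _ = b ^ 4 := by ring
        _ ≤ _ := by have : 0 ≤ a ^ 4 := by positivity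
                    linarith
    · calc a ^ 3 * b ≤ a ^ 3 * a := mul_le_mul_of_nonneg_left h (by positivity)
        _ = a ^ 4 := by ring
        _ ≤ _ := by have : 0 ≤ b ^ 4 := by positivity
                    linarith
  have h4 : a * b ≤ a ^ 2 + b ^ 2 := by nlinarith [sq_nonneg (a - b)]
  linarith

lemma BB_add_sq {f m : E3 → ℝ} (f1 : Integrable f) (f2 : Integrable (fun y => f y ^ 2))
    (m1 : Integrable m) (m2 : Integrable (fun y => m y ^ 2)) :
    BB (fun x => f x + m x) (fun x => f x + m x) = BB f f + 2 * (∫ x, m x * pot f x) + BB m m := by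
  have i1 := mul_pot_integrable f1 f1 f2
  have i2 := mul_pot_integrable f1 m1 m2
  have i3 := mul_pot_integrable m1 f1 f2
  have i4 := mul_pot_integrable m1 m1 m2
  have i12 : Integrable (fun x => f x * pot f x + f x * pot m x) := i1.add i2
  have i34 : Integrable (fun x => m x * pot f x + m x * pot m x) := i3.add i4
  have hs : BB f m = BB m f := BB_symm f1 m1 m2
  have e : BB (fun x => f x + m x) (fun x => f x + m x)
      = (BB f f + BB f m) + (BB m f + BB m m) := by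
    unfold BB
    rw [← integral_add i1 i2, ← integral_add i3 i4, ← integral_add i12 i34]
    congr 1; funext x
    rw [pot_add f1 f2 m1 m2]
    ring
  rw [e, hs]
  unfold BB
  ring

/-- second order bound for the Coulomb energy. -/
lemma coul_taylor (h2 : MemLp ψ 2) (h4 : MemLp ψ 4) (e2 : MemLp η 2) (e4 : MemLp η 4) :
    ∃ C : ℝ, ∀ ε : ℝ, 0 ≤ ε → ε ≤ 1 → coul (fun x => ψ x + ε * η x)
      ≤ coul ψ + 2 * ε * (∫ x, pot (fun y => ψ y ^ 2) x * (ψ x * η x)) + ε ^ 2 * C := by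
  have a1 := sq_integrable' h2
  have a2 := sqsq_integrable h4
  have b1 := sq_integrable' e2
  have b2 := sqsq_integrable e4
  have p1 : Integrable (fun x => ψ x * η x) := mul_integrable h2 e2
  have p2 : Integrable (fun x => (ψ x * η x) ^ 2) := by
    have := (cross_sq_integrable h4 e4).const_mul (1 / 4)
    refine this.congr ?_
    filter_upwards with x
    ring
  -- majorant
  set Q : E3 → ℝ := fun x => 2 * |ψ x * η x| + η x ^ 2 with hQ
  have hQ0 : ∀ x, 0 ≤ Q x := fun x => by positivity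
  have q1 : Integrable Q := (p1.abs.const_mul 2).add b1
  have q2 : Integrable (fun x => Q x ^ 2) := by
    refine ((p2.const_mul 8).add (b2.const_mul 2)).mono' (q1.aestronglyMeasurable.pow 2) ?_
    filter_upwards with x
    rw [Real.norm_of_nonneg (sq_nonneg _)]
    show (2 * |ψ x * η x| + η x ^ 2) ^ 2 ≤ 8 * (ψ x * η x) ^ 2 + 2 * (η x ^ 2) ^ 2
    rw [← sq_abs (ψ x * η x)]
    nlinarith [sq_nonneg (2 * |ψ x * η x| - η x ^ 2)]
  set K : ℝ := (∫ y, Q y ^ 2) + c3 + ∫ y, |Q y| with hK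
  refine ⟨(∫ x, η x ^ 2 * pot (fun y => ψ y ^ 2) x) + 1 / 2 * (K * ∫ x, Q x), ?_⟩
  intro ε hε0 hε1
  set m : E3 → ℝ := fun x => 2 * ε * (ψ x * η x) + ε ^ 2 * η x ^ 2 with hm
  have hε2 : ε ^ 2 ≤ ε := by nlinarith
  have m1 : Integrable m := (p1.const_mul (2 * ε)).add (b1.const_mul (ε ^ 2))
  have hmQ : ∀ x, |m x| ≤ ε * Q x := by
    intro x
    have h5 : |m x| ≤ |2 * ε * (ψ x * η x)| + |ε ^ 2 * η x ^ 2| := abs_add_le _ _
    have h6 : |2 * ε * (ψ x * η x)| = ε * (2 * |ψ x * η x|) := by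
      rw [abs_mul, abs_of_nonneg (show 0 ≤ 2 * ε by positivity)]
      ring
    have h7 : |ε ^ 2 * η x ^ 2| ≤ ε * η x ^ 2 := by
      rw [abs_of_nonneg (by positivity)]
      exact mul_le_mul_of_nonneg_right hε2 (sq_nonneg _)
    rw [hQ]
    simp only
    linarith
  have m2 : Integrable (fun x => m x ^ 2) := by
    refine (q2.const_mul (ε ^ 2)).mono' (m1.aestronglyMeasurable.pow 2) ?_
    filter_upwards with x
    rw [Real.norm_of_nonneg (sq_nonneg _), ← sq_abs]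
    calc |m x| ^ 2 ≤ (ε * Q x) ^ 2 := pow_le_pow_left₀ (abs_nonneg _) (hmQ x) 2
      _ = _ := by ring
  have efun : (fun x => (ψ x + ε * η x) ^ 2) = fun x => ψ x ^ 2 + m x := by
    funext x
    rw [hm]
    ring
  have hBB := BB_add_sq a1 a2 m1 m2
  have hlin : ∫ x, m x * pot (fun y => ψ y ^ 2) x
      = 2 * ε * (∫ x, pot (fun y => ψ y ^ 2) x * (ψ x * η x))
        + ε ^ 2 * ∫ x, η x ^ 2 * pot (fun y => ψ y ^ 2) x := by
    have j1 := mul_pot_integrable p1 a1 a2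
    have j2 := mul_pot_integrable b1 a1 a2
    have j1' : Integrable (fun x => pot (fun y => ψ y ^ 2) x * (ψ x * η x)) := by
      refine j1.congr ?_
      filter_upwards with x
      ring
    rw [← integral_const_mul, ← integral_const_mul,
      ← integral_add (j1'.const_mul _) (j2.const_mul _)]
    congr 1; funext x
    rw [hm]
    ring
  have hpm : ∀ x, |pot m x| ≤ ε * K := by
    intro x
    have k1 : |pot m x| ≤ pot (fun y => ε * Q y) x := by
      unfold pot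
      calc |∫ y, m y / ‖x - y‖| ≤ ∫ y, |m y / ‖x - y‖| := abs_integral_le_integral_abs
        _ ≤ ∫ y, ε * Q y / ‖x - y‖ := by
            apply integral_mono (pot_integrable m1 m2 x).abs
              (pot_integrable (q1.const_mul ε) (by
                refine (q2.const_mul (ε ^ 2)).congr ?_
                filter_upwards with y
                ring) x)
            intro y
            show |m y / ‖x - y‖| ≤ ε * Q y / ‖x - y‖
            rw [abs_div, abs_norm]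
            exact div_le_div_of_nonneg_right (hmQ y) (norm_nonneg _)
    rw [pot_const_mul] at k1
    have k2 : pot Q x ≤ K := (le_abs_self _).trans (abs_pot_le q1 q2 x)
    exact k1.trans (mul_le_mul_of_nonneg_left k2 hε0)
  have hquad : BB m m ≤ ε ^ 2 * (K * ∫ x, Q x) := by
    unfold BB
    rw [← mul_assoc, ← integral_const_mul]
    apply integral_mono (mul_pot_integrable m1 m1 m2) (q1.const_mul _)
    intro x
    show m x * pot m x ≤ ε ^ 2 * K * Q x
    calc m x * pot m x ≤ |m x * pot m x| := le_abs_self _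
      _ = |m x| * |pot m x| := abs_mul _ _
      _ ≤ (ε * Q x) * (ε * K) :=
          mul_le_mul (hmQ x) (hpm x) (abs_nonneg _) (mul_nonneg hε0 (hQ0 x))
      _ = _ := by ring
  unfold coul
  rw [efun, hBB, hlin]
  nlinarith

/-- **First variation inequality.** -/
theorem first_variation {A v z : ℝ} (hz : 0 ≤ z) {g h : E3 → E3} (H : Adm ψ g) (Hη : Adm η h)
    (hpos : ∀ x, 0 ≤ ψ x) (hm : mass ψ ≤ 1)
    (hmin : ∀ (φ : E3 → ℝ) (k : E3 → E3), Adm φ k → mass φ ≤ 1 → Ff A v z ψ g ≤ Ff A v z φ k)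
    (hneg : ∫ x, η x * ψ x < 0) :
    0 ≤ A * (∫ x, inner ℝ (h x) (g x)) + (∫ x, Pv (ψ x) * η x) - v * (∫ x, η x * ψ x)
      + (∫ x, pot (fun y => ψ y ^ 2) x * (ψ x * η x)) - z * pot (fun y => ψ y * η y) 0 := by
  obtain ⟨C1, hC1⟩ := coul_taylor H.l2 H.l4 Hη.l2 Hη.l4
  set L := A * (∫ x, inner ℝ (h x) (g x)) + (∫ x, Pv (ψ x) * η x) - v * (∫ x, η x * ψ x)
      + (∫ x, pot (fun y => ψ y ^ 2) x * (ψ x * η x)) - z * pot (fun y => ψ y * η y) 0 with hL
  set W := ∫ x, (2 * η x ^ 2 + 4 * ψ x ^ 4 + 7 * η x ^ 4) with hW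
  set C := A * kin h + W + C1 - v * mass η with hC
  have hu : ∀ ε : ℝ, Adm (fun x => ε * η x) (fun x => ε • h x) := fun ε => Hη.const_mul ε
  have hmass : ∀ ε : ℝ, mass (fun x => ψ x + ε * η x)
      = mass ψ + ε ^ 2 * mass η + 2 * ε * ∫ x, η x * ψ x := by
    intro ε
    rw [mass_add H.l2 (hu ε).l2]
    have e1 : mass (fun x => ε * η x) = ε ^ 2 * mass η := by
      unfold mass
      rw [← integral_const_mul]
      congr 1; funext x; ring
    have e2 : ∫ x, ε * η x * ψ x = ε * ∫ x, η x * ψ x := by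
      rw [← integral_const_mul]
      congr 1; funext x; ring
    rw [e1, e2]; ring
  have hkin : ∀ ε : ℝ, kin (fun x => g x + ε • h x)
      = kin g + ε ^ 2 * kin h + 2 * ε * ∫ x, inner ℝ (h x) (g x) := by
    intro ε
    rw [kin_add H.g2 (hu ε).g2]
    have e1 : kin (fun x => ε • h x) = ε ^ 2 * kin h := by
      unfold kin
      rw [← integral_const_mul]
      congr 1; funext x
      rw [norm_smul, mul_pow, Real.norm_eq_abs, sq_abs]
    have e2 : ∫ x, inner ℝ (ε • h x) (g x) = ε * ∫ x, inner ℝ (h x) (g x) := by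
      rw [← integral_const_mul]
      congr 1; funext x
      rw [real_inner_smul_left]
    rw [e1, e2]; ring
  have hwint : ∀ ε : ℝ, 0 ≤ ε → ε ≤ 1 → wint (fun x => ψ x + ε * η x)
      ≤ wint ψ + 2 * ε * (∫ x, Pv (ψ x) * η x) + ε ^ 2 * W := by
    intro ε h0 h1
    have i0 : Integrable (fun x => wv (ψ x + ε * η x)) :=
      wv_integrable (H.add (hu ε)).l2 (H.add (hu ε)).l4
    have i1 := wv_integrable H.l2 H.l4
    have i2 : Integrable (fun x => 2 * ε * (Pv (ψ x) * η x)) :=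
      (Pv_mul_integrable H.l2 H.l4 Hη.l2 Hη.l4).const_mul _
    have i3' : Integrable (fun x => 2 * η x ^ 2 + 4 * ψ x ^ 4 + 7 * η x ^ 4) :=
      (((sq_integrable' Hη.l2).const_mul 2).add ((four_integrable H.l4).const_mul 4)).add
        ((four_integrable Hη.l4).const_mul 7)
    have i3 := i3'.const_mul (ε ^ 2)
    have i12 : Integrable (fun x => wv (ψ x) + 2 * ε * (Pv (ψ x) * η x)) := i1.add i2
    have i123 : Integrable (fun x => wv (ψ x) + 2 * ε * (Pv (ψ x) * η x)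
        + ε ^ 2 * (2 * η x ^ 2 + 4 * ψ x ^ 4 + 7 * η x ^ 4)) := i12.add i3
    rw [hW, ← integral_const_mul, ← integral_const_mul]
    unfold wint
    rw [← integral_add i1 i2, ← integral_add i12 i3]
    exact integral_mono i0 i123 (fun x => wv_taylor (hpos x) (η x) h0 h1)
  have hnuc : ∀ ε : ℝ, nuc ψ + 2 * ε * pot (fun y => ψ y * η y) 0
      ≤ nuc (fun x => ψ x + ε * η x) := by
    intro ε
    rw [nuc_add H.l2 H.l4 (hu ε).l2 (hu ε).l4]
    have e1 : pot (fun y => 2 * (ψ y * (ε * η y))) 0 = 2 * ε * pot (fun y => ψ y * η y) 0 := by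
      rw [← pot_const_mul]
      congr 1; funext y; ring
    have e2 := nuc_nonneg (ψ := fun x => ε * η x)
    rw [e1]; linarith
  have hFf : ∀ ε : ℝ, 0 ≤ ε → ε ≤ 1 →
      Ff A v z (fun x => ψ x + ε * η x) (fun x => g x + ε • h x)
        ≤ Ff A v z ψ g + 2 * ε * L + ε ^ 2 * C := by
    intro ε h0 h1
    have k1 := hwint ε h0 h1
    have k2 := hC1 ε h0 h1
    have k3 := mul_le_mul_of_nonneg_left (hnuc ε) hz
    unfold Ff Gf
    rw [hkin, hmass, hL, hC]
    nlinarith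
  -- conclusion
  by_contra hcon
  push Not at hcon
  set M0 := ∫ x, η x * ψ x with hM0
  have hmη := mass_nonneg (ψ := η)
  obtain ⟨ε, hε0, hε1, hε2, hε3⟩ : ∃ ε : ℝ, 0 < ε ∧ ε ≤ 1 ∧ ε * mass η ≤ -M0 ∧ ε * C < -(2 * L) := by
    have hCabs : C ≤ |C| := le_abs_self C
    refine ⟨min 1 (min (-M0 / (mass η + 1)) (-L / (|C| + 1))), ?_, min_le_left _ _, ?_, ?_⟩
    · apply lt_min one_pos
      apply lt_min
      · apply div_pos (by linarith) (by linarith)
      · apply div_pos (by linarith) (by positivity)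
    · have h5 : min 1 (min (-M0 / (mass η + 1)) (-L / (|C| + 1))) ≤ -M0 / (mass η + 1) :=
        (min_le_right _ _).trans (min_le_left _ _)
      calc _ ≤ -M0 / (mass η + 1) * mass η := mul_le_mul_of_nonneg_right h5 hmη
        _ ≤ -M0 := by
          rw [div_mul_eq_mul_div, div_le_iff₀ (by linarith)]
          nlinarith
    · have h5 : min 1 (min (-M0 / (mass η + 1)) (-L / (|C| + 1))) ≤ -L / (|C| + 1) :=
        (min_le_right _ _).trans (min_le_right _ _)
      have h6 : 0 < min 1 (min (-M0 / (mass η + 1)) (-L / (|C| + 1))) := by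
        apply lt_min one_pos
        apply lt_min
        · apply div_pos (by linarith) (by linarith)
        · apply div_pos (by linarith) (by positivity)
      have hCabs0 : 0 ≤ |C| := abs_nonneg C
      calc _ ≤ min 1 (min (-M0 / (mass η + 1)) (-L / (|C| + 1))) * |C| :=
            mul_le_mul_of_nonneg_left hCabs h6.le
        _ ≤ -L / (|C| + 1) * |C| := mul_le_mul_of_nonneg_right h5 hCabs0
        _ < -(2 * L) := by
          rw [div_mul_eq_mul_div, div_lt_iff₀ (by linarith)]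
          nlinarith
  have hmε : mass (fun x => ψ x + ε * η x) ≤ 1 := by
    rw [hmass]
    nlinarith
  have h7 := hmin _ _ (H.add (hu ε)) hmε
  have h8 := hFf ε hε0.le hε1
  nlinarith

end

end Pool.Agent.W_b91f46_p2
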