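import Mathlib
import Pool.Agent.W_b91f46_p2.Radial
import Pool.Agent.W_b91f46_p2.Reflect
import Pool.Agent.W_b91f46_p2.Variation

/-!
Minimizers of small energy and small nuclear charge are not radially nonincreasing.
-/

open MeasureTheory Metric Set Filter Topology
open scoped ENNReal

namespace Pool.Agent.W_b91f46_p2

section
variable {a b : ℝ}

lemma bump_shift_le (ha : 0 < a) (hab : a < b) (p : E3) {w : E3 → ℝ} {M : ℝ}
    (hi : Integrable (fun x => w x * bump a b (x + -p))) (h : ∀ x, ‖x - p‖ < b → w x ≤ M) :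
    ∫ x, w x * bump a b (x + -p) ≤ M * ∫ x, bump a b x := by
  have hk : Integrable (bump a b) :=
    (bump_contDiff.continuous).integrable_of_hasCompactSupport (bump_support ha hab)
  rw [← integral_add_right_eq_self (bump a b) (-p), ← integral_const_mul]
  apply integral_mono hi ((hk.comp_add_right (-p)).const_mul M)
  intro x
  show w x * bump a b (x + -p) ≤ M * bump a b (x + -p)
  by_cases hx : ‖x - p‖ < b
  · exact mul_le_mul_of_nonneg_right (h x hx) (bump_nonneg _)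
  · rw [bump_zero ha hab (by rw [← sub_eq_add_neg]; exact not_lt.1 hx)]
    simp

lemma le_bump_shift (ha : 0 < a) (hab : a < b) (p : E3) {w : E3 → ℝ} {M : ℝ}
    (hi : Integrable (fun x => w x * bump a b (x + -p))) (h : ∀ x, ‖x - p‖ < b → M ≤ w x) :
    M * ∫ x, bump a b x ≤ ∫ x, w x * bump a b (x + -p) := by
  have hk : Integrable (bump a b) :=
    (bump_contDiff.continuous).integrable_of_hasCompactSupport (bump_support ha hab)
  rw [← integral_add_right_eq_self (bump a b) (-p), ← integral_const_mul]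
  apply integral_mono ((hk.comp_add_right (-p)).const_mul M) hi
  intro x
  show M * bump a b (x + -p) ≤ w x * bump a b (x + -p)
  by_cases hx : ‖x - p‖ < b
  · exact mul_le_mul_of_nonneg_right (h x hx) (bump_nonneg _)
  · rw [bump_zero ha hab (by rw [← sub_eq_add_neg]; exact not_lt.1 hx)]
    simp

lemma le_bump_integral (ha : 0 < a) (hab : a < b) : v1 * a ^ 3 ≤ ∫ x, bump a b x := by
  have hk : Integrable (bump a b) :=
    (bump_contDiff.continuous).integrable_of_hasCompactSupport (bump_support ha hab)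
  have e : v1 * a ^ 3 = ∫ x, (ball (0 : E3) a).indicator (fun _ => (1 : ℝ)) x := by
    rw [integral_indicator measurableSet_ball, setIntegral_const, vol_ball _ ha.le,
      smul_eq_mul, mul_one]
  rw [e]
  apply integral_mono _ hk
  · intro x
    show (ball (0 : E3) a).indicator (fun _ => (1 : ℝ)) x ≤ bump a b x
    by_cases hx : x ∈ ball (0 : E3) a
    · rw [indicator_of_mem hx, bump_one ha hab (mem_ball_zero_iff.1 hx).le]
    · rw [indicator_of_notMem hx]
      exact bump_nonneg x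
  · rw [integrable_indicator_iff measurableSet_ball]
    exact integrableOn_const measure_ball_lt_top.ne enorm_ne_top

end

lemma integral_inner_le {g h : E3 → E3} (hg : MemLp g 2) (hh : MemLp h 2) {t : ℝ} (ht : 0 < t) :
    ∫ x, inner ℝ (h x) (g x) ≤ t / 2 * kin h + 1 / (2 * t) * kin g := by
  unfold kin
  rw [← integral_const_mul, ← integral_const_mul,
    ← integral_add ((sq_integrable hh).const_mul _) ((sq_integrable hg).const_mul _)]
  apply integral_mono (inner_integrable hh hg)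
    (((sq_integrable hh).const_mul _).add ((sq_integrable hg).const_mul _))
  intro x
  show inner ℝ (h x) (g x) ≤ t / 2 * ‖h x‖ ^ 2 + 1 / (2 * t) * ‖g x‖ ^ 2
  have h1 := real_inner_le_norm (h x) (g x)
  have h4 : 0 ≤ (t * ‖h x‖ - ‖g x‖) ^ 2 / (2 * t) := by positivity
  have h5 : (t * ‖h x‖ - ‖g x‖) ^ 2 / (2 * t)
      = t / 2 * ‖h x‖ ^ 2 + 1 / (2 * t) * ‖g x‖ ^ 2 - ‖h x‖ * ‖g x‖ := by
    field_simp
    ring
  rw [h5] at h4
  linarith

lemma kin_arith {a r C C2 V K1' K2' I : ℝ} (ha : 0 < a) (hr : 0 < r) (hC : 0 < C) (hC2 : 0 < C2)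
    (hV : 0 < V) (h1 : K1' ≤ 10 * (7 / 10 * (C ^ 2 * V * r)))
    (h2 : a ^ 6 * K2' ≤ C2 * a ^ 2 * (128 * V * r ^ 3))
    (h3 : I ≤ r / a ^ 2 / 2 * K1' + 1 / (2 * (r / a ^ 2)) * K2') :
    a ^ 6 * I ≤ (4 * C ^ 2 + 64 * C2) * V * a ^ 4 * r ^ 2 := by
  have e1 : a ^ 6 * (r / a ^ 2 / 2 * K1' + 1 / (2 * (r / a ^ 2)) * K2')
      = a ^ 4 * r / 2 * K1' + a ^ 2 / (2 * r) * (a ^ 6 * K2') := by
    field_simp
  have h4 : a ^ 4 * r / 2 * K1' ≤ a ^ 4 * r / 2 * (10 * (7 / 10 * (C ^ 2 * V * r))) :=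
    mul_le_mul_of_nonneg_left h1 (by positivity)
  have h5 : a ^ 2 / (2 * r) * (a ^ 6 * K2') ≤ a ^ 2 / (2 * r) * (C2 * a ^ 2 * (128 * V * r ^ 3)) :=
    mul_le_mul_of_nonneg_left h2 (by positivity)
  have e2 : a ^ 2 / (2 * r) * (C2 * a ^ 2 * (128 * V * r ^ 3)) = 64 * C2 * V * a ^ 4 * r ^ 2 := by
    field_simp
    ring
  have e3 : a ^ 4 * r / 2 * (10 * (7 / 10 * (C ^ 2 * V * r))) = 7 / 2 * (C ^ 2 * V * a ^ 4 * r ^ 2) := by
    ring
  have h6 : 0 ≤ C ^ 2 * V * a ^ 4 * r ^ 2 := by positivity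
  calc a ^ 6 * I ≤ a ^ 6 * (r / a ^ 2 / 2 * K1' + 1 / (2 * (r / a ^ 2)) * K2') :=
        mul_le_mul_of_nonneg_left h3 (by positivity)
    _ = _ := e1
    _ ≤ 7 / 2 * (C ^ 2 * V * a ^ 4 * r ^ 2) + 64 * C2 * V * a ^ 4 * r ^ 2 := by
        rw [← e2, ← e3]
        exact add_le_add h4 h5
    _ ≤ _ := by linarith

lemma final_arith {a r C C2 V τ z β F m : ℝ} (ha : 0 < a) (hr : 0 < r) (hC : 0 < C) (hC2 : 0 < C2)
    (hV : 0 < V) (hτ : τ ≤ V * r ^ 2 / 80000) (hz : 0 < z)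
    (hβ : V * (r / 40) ^ 3 ≤ β) (hF : (19 / 20) ^ 3 ≤ F) (hm : m ≤ 128 * V * r ^ 3)
    (hzm : 10 ^ 11 * z ≤ m) (hra : a ≤ 4000000 * C2 * r)
    (hs : 10 ^ 29 * (4 * C ^ 2 + 64 * C2) * C2 ^ 3 * a ≤ V) :
    (4 * C ^ 2 + 64 * C2) * V * a ^ 4 * r ^ 2 + 4 * τ * β - V * r ^ 2 / 2500 * F * β
      + 4096 * z * β / r < 0 := by
  have hβ0 : 0 < β := lt_of_lt_of_le (by positivity) hβ
  set X := V * r ^ 2 * β with hX
  have hX0 : 0 < X := by positivity
  have h1 : 4 * τ * β ≤ X / 20000 := by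
    have := mul_le_mul_of_nonneg_right hτ hβ0.le
    rw [hX]
    linarith
  have h2 : X * (34 / 100000) ≤ V * r ^ 2 / 2500 * F * β := by
    have e : V * r ^ 2 / 2500 * F * β = X * (F / 2500) := by rw [hX]; ring
    rw [e]
    apply mul_le_mul_of_nonneg_left _ hX0.le
    norm_num at hF ⊢
    linarith
  have h3 : 4096 * z * β / r ≤ X / 100000 := by
    have h4 : z ≤ V * r ^ 3 / 500000000 := by
      have h5 : 0 < V * r ^ 3 := by positivity
      norm_num at hzm
      linarith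
    have e : X / 100000 = 4096 * (V * r ^ 3 / 409600000) * β / r := by
      rw [hX]
      field_simp
      norm_num
    rw [e]
    apply div_le_div_of_nonneg_right _ hr.le
    apply mul_le_mul_of_nonneg_right _ hβ0.le
    have h5 : 0 < V * r ^ 3 := by positivity
    linarith
  have h6 : V ^ 2 * r ^ 5 / 64000 ≤ X := by
    have := mul_le_mul_of_nonneg_left hβ (show 0 ≤ V * r ^ 2 by positivity)
    have e : V * r ^ 2 * (V * (r / 40) ^ 3) = V ^ 2 * r ^ 5 / 64000 := by ring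
    rw [e] at this
    exact this
  have h7 : (4 * C ^ 2 + 64 * C2) * V * a ^ 4 * r ^ 2 ≤ V ^ 2 * r ^ 5 / 1000000000 := by
    have h8 : a ^ 3 ≤ (4000000 * C2 * r) ^ 3 := pow_le_pow_left₀ ha.le hra 3
    have h9 : (4 * C ^ 2 + 64 * C2) * V * a ^ 4 * r ^ 2
        ≤ (4 * C ^ 2 + 64 * C2) * V * a * r ^ 2 * (4000000 * C2 * r) ^ 3 := by
      have e : (4 * C ^ 2 + 64 * C2) * V * a ^ 4 * r ^ 2
        = (4 * C ^ 2 + 64 * C2) * V * a * r ^ 2 * a ^ 3 := by ring
      rw [e]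
      exact mul_le_mul_of_nonneg_left h8 (by positivity)
    have e : (4 * C ^ 2 + 64 * C2) * V * a * r ^ 2 * (4000000 * C2 * r) ^ 3
        = (10 ^ 29 * (4 * C ^ 2 + 64 * C2) * C2 ^ 3 * a) * (V * r ^ 5 * (64 / 10 ^ 11)) := by
      ring
    rw [e] at h9
    have h10 : (10 ^ 29 * (4 * C ^ 2 + 64 * C2) * C2 ^ 3 * a) * (V * r ^ 5 * (64 / 10 ^ 11))
        ≤ V * (V * r ^ 5 * (64 / 10 ^ 11)) := mul_le_mul_of_nonneg_right hs (by positivity)
    have h11 : 0 < V ^ 2 * r ^ 5 := by positivity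
    have e2 : V * (V * r ^ 5 * (64 / 10 ^ 11)) = V ^ 2 * r ^ 5 * (64 / 10 ^ 11) := by ring
    rw [e2] at h10
    norm_num at h9 h10 ⊢
    linarith
  have h11 : 0 < V ^ 2 * r ^ 5 := by positivity
  linarith

theorem no_radial {C : ℝ} (hC0 : 0 < C) (hC : ∀ t, |deriv Real.smoothTransition t| ≤ C)
    {C2 : ℝ} (hC2 : 0 < C2) {a : ℝ} (ha : 0 < a) (hsmall : 8000000 * (C2 * a ^ 2) ≤ 1)
    (hsmall2 : 10 ^ 29 * (4 * C ^ 2 + 64 * C2) * C2 ^ 3 * a ≤ v1)
    {v z : ℝ} (hv : v ≤ 1 / 10) (hz : 0 < z) {f : ℝ → ℝ} (hf0 : ∀ t, 0 ≤ t → 0 ≤ f t)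
    (hf : AntitoneOn f (Ioi 0)) {g : E3 → E3} (H : Adm (fun x => f ‖x‖) g)
    (hm0 : 0 < mass (fun x : E3 => f ‖x‖)) (hm1 : mass (fun x : E3 => f ‖x‖) ≤ 1)
    (hG : Gf (a ^ 6) (fun x => f ‖x‖) g ≤ C2 * a ^ 2 * mass (fun x : E3 => f ‖x‖))
    (hzm : 10 ^ 11 * z ≤ mass (fun x : E3 => f ‖x‖))
    (hmin : ∀ (φ : E3 → ℝ) (k : E3 → E3), Adm φ k → mass φ ≤ 1 →
      Ff (a ^ 6) v z (fun x => f ‖x‖) g ≤ Ff (a ^ 6) v z φ k) : False := by
  obtain ⟨r, hr, hin, hout, hmass, hra, hf8⟩ := radial_shape hC2 ha hsmall hf0 hf H hm0 hm1 hG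
  have hv1 := v1_pos
  obtain ⟨e, he⟩ : ∃ e : E3, ‖e‖ = 1 := ⟨EuclideanSpace.single 0 1, by simp⟩
  set ψ : E3 → ℝ := fun x => f ‖x‖ with hψ
  have hψ0 : ∀ x, 0 ≤ ψ x := fun x => hf0 _ (norm_nonneg x)
  -- the small parameter of the test function
  set τ : ℝ := min 1 (v1 * r ^ 2 / 80000) with hτ
  have hτ0 : 0 < τ := lt_min one_pos (by positivity)
  have hτ1 : τ ≤ 1 := min_le_left _ _
  have hτ2 : τ ≤ v1 * r ^ 2 / 80000 := min_le_right _ _
  -- bumps
  have ha' : 0 < r / 40 := by positivity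
  have hab' : r / 40 < r / 20 := by linarith
  set k : E3 → ℝ := bump (r / 40) (r / 20) with hk
  set G : E3 → E3 := fun x => gradient k x with hGdef
  have Hk : Adm k G := bump_adm ha' hab'
  set po : E3 := (19 / 20 * r) • e with hpo
  set pi : E3 := (3 / 16 * r) • e with hpi
  have npo : ‖po‖ = 19 / 20 * r := by
    rw [hpo, norm_smul, he, mul_one, Real.norm_of_nonneg (by positivity)]
  have npi : ‖pi‖ = 3 / 16 * r := by
    rw [hpi, norm_smul, he, mul_one, Real.norm_of_nonneg (by positivity)]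
  have Ho : Adm (fun x => k (x + -po)) (fun x => G (x + -po)) := Hk.translate (-po)
  have Hi : Adm (fun x => k (x + -pi)) (fun x => G (x + -pi)) := Hk.translate (-pi)
  have Hη := Ho.sub (Hi.const_mul (1 + τ))
  set η : E3 → ℝ := fun x => k (x + -po) - (1 + τ) * k (x + -pi) with hη
  set h : E3 → E3 := fun x => G (x + -po) - (1 + τ) • G (x + -pi) with hh
  set β := ∫ x, k x with hβ
  have hβlow : v1 * (r / 40) ^ 3 ≤ β := le_bump_integral ha' hab'
  have hβ0 : 0 < β := lt_of_lt_of_le (by positivity) hβlow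
  -- norms on the supports
  have so : ∀ x : E3, ‖x - po‖ < r / 20 → 9 / 10 * r ≤ ‖x‖ ∧ ‖x‖ < r := by
    intro x hx
    have h1 := norm_sub_norm_le po (po - x)
    rw [show po - (po - x) = x by abel, norm_sub_rev po x] at h1
    have h2 := norm_sub_norm_le x po
    constructor <;> linarith
  have si : ∀ x : E3, ‖x - pi‖ < r / 20 → r / 8 ≤ ‖x‖ ∧ ‖x‖ ≤ r / 4 := by
    intro x hx
    have h1 := norm_sub_norm_le pi (pi - x)
    rw [show pi - (pi - x) = x by abel, norm_sub_rev pi x] at h1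
    have h2 := norm_sub_norm_le x pi
    constructor <;> linarith
  set F := f (9 / 10 * r) with hF
  have hFθ : (19 / 20) ^ 3 ≤ F := hin _ (by positivity) (by linarith)
  have hF0 : 0 < F := lt_of_lt_of_le (by norm_num) hFθ
  have fo : ∀ x : E3, ‖x - po‖ < r / 20 → (19 / 20) ^ 3 ≤ ψ x ∧ ψ x ≤ F := by
    intro x hx
    obtain ⟨h1, h2⟩ := so x hx
    have h3 : 0 < ‖x‖ := lt_of_lt_of_le (by positivity) h1
    exact ⟨hin _ h3 h2, hf (mem_Ioi.2 (by positivity)) (mem_Ioi.2 h3) h1⟩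
  have fi : ∀ x : E3, ‖x - pi‖ < r / 20 → F ≤ ψ x := by
    intro x hx
    obtain ⟨h1, h2⟩ := si x hx
    have h3 : 0 < ‖x‖ := lt_of_lt_of_le (by positivity) h1
    exact hf (mem_Ioi.2 h3) (mem_Ioi.2 (by positivity)) (by linarith)
  have fi' : ∀ x : E3, ‖x - pi‖ < r / 20 → ψ x ≤ 256 := by
    intro x hx
    obtain ⟨h1, h2⟩ := si x hx
    have h3 : 0 < ‖x‖ := lt_of_lt_of_le (by positivity) h1
    exact (hf (mem_Ioi.2 (by positivity)) (mem_Ioi.2 h3) h1).trans hf8
  -- splitting of weighted integrals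
  have hsplit : ∀ w : E3 → ℝ, Integrable (fun x => w x * k (x + -po)) →
      Integrable (fun x => w x * k (x + -pi)) →
      ∫ x, w x * η x = (∫ x, w x * k (x + -po)) - (1 + τ) * ∫ x, w x * k (x + -pi) := by
    intro w i1 i2
    rw [← integral_const_mul, ← integral_sub i1 (i2.const_mul _)]
    congr 1; funext x
    rw [hη]; ring
  -- (1) the mass
  have i1o : Integrable (fun x => ψ x * k (x + -po)) := mul_integrable H.l2 Ho.l2
  have i1i : Integrable (fun x => ψ x * k (x + -pi)) := mul_integrable H.l2 Hi.l2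
  have m1 := hsplit ψ i1o i1i
  have m1o := bump_shift_le ha' hab' po i1o (fun x hx => (fo x hx).2)
  have m1i := le_bump_shift ha' hab' pi i1i fi
  have emass : ∫ x, η x * ψ x = ∫ x, ψ x * η x := by
    congr 1; funext x; ring
  have hneg : ∫ x, η x * ψ x < 0 := by
    rw [emass, m1]
    have h1 : 0 < τ * (F * β) := by positivity
    have h2 : (1 + τ) * (F * β) ≤ (1 + τ) * ∫ x, ψ x * k (x + -pi) :=
      mul_le_mul_of_nonneg_left m1i (by positivity)
    linarith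
  have hvar := first_variation hz.le H Hη hψ0 hm1 hmin hneg
  -- (2) the local term
  set w2 : E3 → ℝ := fun x => Pv (ψ x) - v * ψ x with hw2
  have j2 : ∀ {ζ : E3 → ℝ}, MemLp ζ 2 → MemLp ζ 4 → Integrable (fun x => w2 x * ζ x) := by
    intro ζ z2 z4
    have h1 := (Pv_mul_integrable H.l2 H.l4 z2 z4).sub ((mul_integrable H.l2 z2).const_mul v)
    refine h1.congr ?_
    filter_upwards with x
    simp only [Pi.sub_apply, hw2]
    ring
  have m2 := hsplit w2 (j2 Ho.l2 Ho.l4) (j2 Hi.l2 Hi.l4)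
  have m2o := bump_shift_le ha' hab' po (M := Pv F - v * F) (j2 Ho.l2 Ho.l4)
    (fun x hx => Pv_mono hv (fo x hx).1 (fo x hx).2)
  have m2i := le_bump_shift ha' hab' pi (M := Pv F - v * F) (j2 Hi.l2 Hi.l4)
    (fun x hx => Pv_mono hv hFθ (fi x hx))
  have m2i' := le_bump_shift ha' hab' pi (M := -4) (j2 Hi.l2 Hi.l4)
    (fun x hx => Pv_ge hv (hψ0 x))
  have t2 : ∫ x, w2 x * η x ≤ 4 * τ * β := by
    rw [m2]
    have h1 := mul_le_mul_of_nonneg_left m2i' hτ0.le
    linarith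
  have e2 : (∫ x, Pv (ψ x) * η x) - v * (∫ x, η x * ψ x) = ∫ x, w2 x * η x := by
    have h1 := Pv_mul_integrable H.l2 H.l4 Hη.l2 Hη.l4
    have h2 : Integrable (fun x => η x * ψ x) := mul_integrable Hη.l2 H.l2
    rw [← integral_const_mul, ← integral_sub h1 (h2.const_mul v)]
    congr 1; funext x
    rw [hw2]; ring
  -- (3) the Coulomb term
  have r1 : Integrable (fun y : E3 => f ‖y‖ ^ 2) := sq_integrable' H.l2
  have r2 : Integrable (fun y : E3 => (f ‖y‖ ^ 2) ^ 2) := sqsq_integrable H.l4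
  set V : E3 → ℝ := pot (fun y => f ‖y‖ ^ 2) with hV
  have hV0 : ∀ x, 0 ≤ V x := fun x => pot_nonneg (fun y => sq_nonneg _) x
  set Vo := V ((9 / 10 * r) • e) with hVo
  set Vi := V ((r / 4) • e) with hVi
  have nvo : ‖(9 / 10 * r) • e‖ = 9 / 10 * r := by
    rw [norm_smul, he, mul_one, Real.norm_of_nonneg (by positivity)]
  have nvi : ‖(r / 4) • e‖ = r / 4 := by
    rw [norm_smul, he, mul_one, Real.norm_of_nonneg (by positivity)]
  have hgap : Vo + v1 * r ^ 2 / 2500 ≤ Vi :=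
    pot_gap hf0 hf r1 r2 hr hin hout nvi.le nvo.ge
  set w3 : E3 → ℝ := fun x => V x * ψ x with hw3
  have j3 : ∀ {ζ : E3 → ℝ}, MemLp ζ 2 → Integrable (fun x => w3 x * ζ x) := by
    intro ζ z2
    have h1 := mul_pot_integrable (mul_integrable H.l2 z2) r1 r2
    refine h1.congr ?_
    filter_upwards with x
    rw [hw3]; ring
  have m3 := hsplit w3 (j3 Ho.l2) (j3 Hi.l2)
  have m3o := bump_shift_le ha' hab' po (M := Vo * F) (j3 Ho.l2) (by
    intro x hx
    have h1 : V x ≤ Vo := pot_antitone hf0 hf r1 r2 (by rw [nvo]; exact (so x hx).1)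
    exact mul_le_mul h1 (fo x hx).2 (hψ0 x) (hV0 _))
  have m3i := le_bump_shift ha' hab' pi (M := Vi * F) (j3 Hi.l2) (by
    intro x hx
    have h1 : Vi ≤ V x := pot_antitone hf0 hf r1 r2 (by rw [nvi]; exact (si x hx).2)
    exact mul_le_mul h1 (fi x hx) hF0.le (hV0 x))
  have t3 : ∫ x, w3 x * η x ≤ -(v1 * r ^ 2 / 2500 * F * β) := by
    rw [m3]
    have h0 : 0 ≤ Vi * F * β := mul_nonneg (mul_nonneg (hV0 _) hF0.le) hβ0.le
    have h1 : 0 ≤ ∫ x, w3 x * k (x + -pi) := h0.trans m3i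
    have h2 : 0 ≤ τ * ∫ x, w3 x * k (x + -pi) := mul_nonneg hτ0.le h1
    have h3 : (Vo + v1 * r ^ 2 / 2500) * (F * β) ≤ Vi * (F * β) :=
      mul_le_mul_of_nonneg_right hgap (by positivity)
    linarith
  have e3 : ∫ x, V x * (ψ x * η x) = ∫ x, w3 x * η x := by
    congr 1; funext x
    rw [hw3]; ring
  -- (4) the nuclear term
  set w4 : E3 → ℝ := fun x => ψ x / ‖(0 : E3) - x‖ with hw4
  have j4 : ∀ {ζ : E3 → ℝ}, MemLp ζ 2 → MemLp ζ 4 → Integrable (fun x => w4 x * ζ x) := by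
    intro ζ z2 z4
    have p2 : Integrable (fun x => (ψ x * ζ x) ^ 2) := by
      have := (cross_sq_integrable H.l4 z4).const_mul (1 / 4)
      refine this.congr ?_
      filter_upwards with x
      ring
    have h1 := pot_integrable (mul_integrable H.l2 z2) p2 0
    refine h1.congr ?_
    filter_upwards with x
    rw [hw4]; ring
  have m4 := hsplit w4 (j4 Ho.l2 Ho.l4) (j4 Hi.l2 Hi.l4)
  have m4o := le_bump_shift ha' hab' po (M := 0) (j4 Ho.l2 Ho.l4)
    (fun x _ => div_nonneg (hψ0 x) (norm_nonneg _))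
  have m4i := bump_shift_le ha' hab' pi (M := 2048 / r) (j4 Hi.l2 Hi.l4) (by
    intro x hx
    rw [hw4]
    simp only [zero_sub, norm_neg]
    have h1 := (si x hx).1
    have h2 : 0 < ‖x‖ := lt_of_lt_of_le (by positivity) h1
    rw [div_le_div_iff₀ h2 hr]
    have h3 := mul_le_mul_of_nonneg_right (fi' x hx) hr.le
    linarith)
  have t4 : -(4096 * z * β / r) ≤ z * ∫ x, w4 x * η x := by
    rw [m4]
    have h1 : (1 + τ) * ∫ x, w4 x * k (x + -pi) ≤ 2 * (2048 / r * β) := by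
      have h0 : 0 ≤ 2048 / r * β := by positivity
      calc (1 + τ) * ∫ x, w4 x * k (x + -pi) ≤ (1 + τ) * (2048 / r * β) :=
            mul_le_mul_of_nonneg_left m4i (by positivity)
        _ ≤ 2 * (2048 / r * β) := mul_le_mul_of_nonneg_right (by linarith) h0
    have h2 : -(2 * (2048 / r * β))
        ≤ (∫ x, w4 x * k (x + -po)) - (1 + τ) * ∫ x, w4 x * k (x + -pi) := by
      rw [zero_mul] at m4o
      linarith
    calc -(4096 * z * β / r) = z * (-(2 * (2048 / r * β))) := by ring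
      _ ≤ _ := mul_le_mul_of_nonneg_left h2 hz.le
  have e4 : pot (fun y => ψ y * η y) 0 = ∫ x, w4 x * η x := by
    unfold pot
    congr 1; funext x
    rw [hw4]; ring
  -- (5) the kinetic term
  have hkinG := bump_kin_le hC0 hC ha' hab'
  have hkinG' : kin G ≤ 7 / 10 * (C ^ 2 * v1 * r) := by
    refine hkinG.trans ?_
    have e5 : (2 * C / (r / 20 - r / 40)) ^ 2 * (v1 * ((r / 20) ^ 3 - (r / 40) ^ 3))
        = 7 / 10 * (C ^ 2 * v1 * r) := by
      field_simp
      ring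
    rw [e5]
  have hkinh : kin h ≤ 10 * kin G := by
    have h1 := integral_norm_sq_sub_le Ho.g2 (Hi.const_mul (1 + τ)).g2
    have h2 : kin (fun x => G (x + -po)) = kin G := kin_translate (-po)
    have h3 : kin (fun x => (1 + τ) • G (x + -pi)) = (1 + τ) ^ 2 * kin G := by
      rw [← kin_translate (g := G) (-pi)]
      unfold kin
      rw [← integral_const_mul]
      congr 1; funext x
      rw [norm_smul, mul_pow, Real.norm_eq_abs, sq_abs]
    have h4 : kin h ≤ 2 * kin (fun x => G (x + -po)) + 2 * kin (fun x => (1 + τ) • G (x + -pi)) := h1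
    rw [h2, h3] at h4
    have h5 : (1 + τ) ^ 2 ≤ 4 := by
      calc (1 + τ) ^ 2 ≤ 2 ^ 2 := pow_le_pow_left₀ (by positivity) (by linarith) 2
        _ = 4 := by norm_num
    have h6 := mul_le_mul_of_nonneg_right h5 (kin_nonneg (g := G))
    linarith
  have hA0 : 0 < a ^ 6 := by positivity
  have hAkin : a ^ 6 * kin g ≤ C2 * a ^ 2 * (128 * v1 * r ^ 3) := by
    have h1 := wint_nonneg (ψ := ψ)
    have h2 := coul_nonneg (ψ := ψ)
    have h3 : Gf (a ^ 6) ψ g ≤ C2 * a ^ 2 * (128 * v1 * r ^ 3) :=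
      hG.trans (mul_le_mul_of_nonneg_left hmass (by positivity))
    unfold Gf at h3
    linarith
  have t5 : a ^ 6 * (∫ x, inner ℝ (h x) (g x)) ≤ (4 * C ^ 2 + 64 * C2) * v1 * a ^ 4 * r ^ 2 := by
    have h1 := integral_inner_le H.g2 Hη.g2 (t := r / a ^ 2) (by positivity)
    exact kin_arith ha hr hC0 hC2 hv1 (hkinh.trans (mul_le_mul_of_nonneg_left hkinG' (by norm_num)))
      hAkin h1
  have hfin := final_arith (m := mass (fun x : E3 => f ‖x‖)) ha hr hC0 hC2 hv1 hτ2 hz hβlow hFθ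
    hmass hzm hra hsmall2
  rw [e3, e4] at hvar
  have e5 := e2
  linarith

end Pool.Agent.W_b91f46_p2
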