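import Mathlib
import Pool.Agent.W_b91f46_p2.NoRadial

/-!
Assembly: minimizers that are not symmetric decreasing.
-/

open MeasureTheory Metric Set Filter Topology
open scoped ENNReal

namespace Pool.Agent.W_b91f46_p2

lemma wv_neg (u : ℝ) : wv (-u) = wv u := by
  rw [← wv_abs, abs_neg, wv_abs]

lemma Gf_neg (A : ℝ) (ψ : E3 → ℝ) (g : E3 → E3) :
    Gf A (fun x => -ψ x) (fun x => -g x) = Gf A ψ g := by
  unfold Gf kin wint coul
  simp only [wv_neg, norm_neg, neg_sq]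

lemma mass_neg (ψ : E3 → ℝ) : mass (fun x => -ψ x) = mass ψ := by
  unfold mass
  simp only [neg_sq]

lemma Ff_neg (A v z : ℝ) (ψ : E3 → ℝ) (g : E3 → E3) :
    Ff A v z (fun x => -ψ x) (fun x => -g x) = Ff A v z ψ g := by
  unfold Ff nuc
  rw [Gf_neg, mass_neg]
  simp only [neg_sq]

/-- minimizers of the shifted problem are not symmetric decreasing. -/
lemma not_symm {C : ℝ} (hC0 : 0 < C) (hC : ∀ t, |deriv Real.smoothTransition t| ≤ C)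
    {C2 : ℝ} (hC2 : 0 < C2) {a : ℝ} (ha : 0 < a) (hsmall : 8000000 * (C2 * a ^ 2) ≤ 1)
    (hsmall2 : 10 ^ 29 * (4 * C ^ 2 + 64 * C2) * C2 ^ 3 * a ≤ v1)
    {v z : ℝ} (hv : v ≤ 1 / 10) (hz : 0 < z) {ψ : E3 → ℝ} {g : E3 → E3} (H : Adm ψ g)
    (hm0 : 0 < mass ψ) (hm1 : mass ψ ≤ 1)
    (hG : Gf (a ^ 6) ψ g ≤ C2 * a ^ 2 * mass ψ) (hzm : 10 ^ 11 * z ≤ mass ψ)
    (hmin : ∀ (φ : E3 → ℝ) (k : E3 → E3), Adm φ k → mass φ ≤ 1 →
      Ff (a ^ 6) v z ψ g ≤ Ff (a ^ 6) v z φ k) : ¬ IsSymmDecreasing ψ := by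
  rintro ⟨f, hf0, hf, hψ⟩
  -- change the value at the origin
  set F : ℝ → ℝ := fun t => if t = 0 then 0 else f t with hF
  have hF1 : ∀ t : ℝ, 0 < t → F t = f t := fun t ht => by
    rw [hF]; simp only [if_neg ht.ne']
  have hF0 : ∀ t, 0 ≤ t → 0 ≤ F t := by
    intro t ht
    rcases ht.eq_or_lt with h | h
    · rw [hF, ← h]; simp
    · rw [hF1 t h]; exact hf0 t h
  have hFa : AntitoneOn F (Ioi 0) := by
    intro s hs t ht hst
    rw [hF1 s hs, hF1 t ht]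
    exact hf hs ht hst
  have hψF : ψ =ᵐ[volume] fun x => F ‖x‖ := by
    filter_upwards [hψ, Measure.ae_ne volume (0 : E3)] with x hx h0
    rw [hx, hF1 _ (norm_pos_iff.2 h0)]
  have em : mass ψ = mass (fun x => F ‖x‖) := mass_congr hψF
  have eG : Gf (a ^ 6) ψ g = Gf (a ^ 6) (fun x => F ‖x‖) g := Gf_congr hψF
  refine no_radial hC0 hC hC2 ha hsmall hsmall2 hv hz hF0 hFa (H.congr_ae hψF) ?_ ?_ ?_ ?_ ?_
  · rwa [← em]
  · rwa [← em]
  · rwa [← em, ← eG]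
  · rwa [← em]
  · intro φ k Hφ hφ
    rw [← Ff_congr hψF]
    exact hmin φ k Hφ hφ

theorem main : ∃ A₀ : ℝ, 0 < A₀ ∧ ∀ A : ℝ, 0 < A → A ≤ A₀ →
    ∃ z₀ : ℝ, 0 < z₀ ∧ ∀ z : ℝ, 0 < z → z ≤ z₀ →
      ∃ lam : ℝ, z < lam ∧ (∃ ψ, IsMinimizer A 2 4 2 z lam ψ) ∧
        ∀ ψ, IsMinimizer A 2 4 2 z lam ψ →
          ¬ IsSymmDecreasing ψ ∧ ¬ IsSymmDecreasing (fun x => -ψ x) := by
  obtain ⟨C, hC0, hC⟩ := exists_deriv_bound
  obtain ⟨C1, hC1, htrial⟩ := trial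
  have hv1 := v1_pos
  set C2 : ℝ := C1 + 1 with hC2def
  have hC2 : 0 < C2 := by positivity
  set D : ℝ := 10 ^ 29 * (4 * C ^ 2 + 64 * C2) * C2 ^ 3 with hD
  have hD0 : 0 < D := by positivity
  set a₀ : ℝ := min 1 (min (1 / (8 * v1)) (min (1 / (8000000 * C2)) (v1 / D))) with ha₀
  have ha₀pos : 0 < a₀ := by
    apply lt_min one_pos
    apply lt_min (by positivity)
    apply lt_min <;> positivity
  refine ⟨a₀ ^ 6, by positivity, ?_⟩
  intro A hA hAA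
  obtain ⟨a, ha, haA⟩ : ∃ a : ℝ, 0 < a ∧ a ^ 6 = A := by
    refine ⟨A ^ (1 / 6 : ℝ), by positivity, ?_⟩
    rw [← Real.rpow_natCast, ← Real.rpow_mul hA.le]
    norm_num
  have haa₀ : a ≤ a₀ := by
    rw [← haA] at hAA
    exact (pow_le_pow_iff_left₀ ha.le ha₀pos.le (by norm_num)).1 hAA
  have b1 : a ≤ 1 := haa₀.trans (min_le_left _ _)
  have b2 : a ≤ 1 / (8 * v1) := haa₀.trans ((min_le_right _ _).trans (min_le_left _ _))
  have b3 : a ≤ 1 / (8000000 * C2) :=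
    haa₀.trans ((min_le_right _ _).trans ((min_le_right _ _).trans (min_le_left _ _)))
  have b4 : a ≤ v1 / D :=
    haa₀.trans ((min_le_right _ _).trans ((min_le_right _ _).trans (min_le_right _ _)))
  have ha2 : a ^ 2 ≤ a := by
    calc a ^ 2 = a * a := by ring
      _ ≤ a * 1 := mul_le_mul_of_nonneg_left b1 ha.le
      _ = a := mul_one a
  have ha3 : a ^ 3 ≤ a := by
    calc a ^ 3 = a * a ^ 2 := by ring
      _ ≤ a * 1 := mul_le_mul_of_nonneg_left (ha2.trans b1) ha.le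
      _ = a := mul_one a
  have s1 : 8 * v1 * a ^ 3 ≤ 1 := by
    rw [le_div_iff₀ (by positivity)] at b2
    calc 8 * v1 * a ^ 3 ≤ 8 * v1 * a := mul_le_mul_of_nonneg_left ha3 (by positivity)
      _ ≤ 1 := by linarith
  have s2 : 8000000 * (C2 * a ^ 2) ≤ 1 := by
    rw [le_div_iff₀ (by positivity)] at b3
    calc 8000000 * (C2 * a ^ 2) = 8000000 * C2 * a ^ 2 := by ring
      _ ≤ 8000000 * C2 * a := mul_le_mul_of_nonneg_left ha2 (by positivity)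
      _ ≤ 1 := by linarith
  have s3 : 10 ^ 29 * (4 * C ^ 2 + 64 * C2) * C2 ^ 3 * a ≤ v1 := by
    rw [le_div_iff₀ hD0] at b4
    rw [← hD]
    linarith
  obtain ⟨k, gk, Hk, hk0, hk1, hkG⟩ := htrial a ha b1 s1
  obtain ⟨v, hvC, hV⟩ := exists_V (A := a ^ 6) (by positivity) Hk hk0 hk1 hkG
  have hva : C1 * a ^ 2 ≤ 1 / 10 := by
    have h1 : C1 * a ^ 2 ≤ C2 * a ^ 2 := by
      apply mul_le_mul_of_nonneg_right _ (by positivity)
      linarith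
    linarith
  have hv10 : v ≤ 1 / 10 := hvC.trans hva
  have e6 : (a ^ 3) ^ 2 = a ^ 6 := by ring
  obtain ⟨lam0, K, hlam0, hK, hquant⟩ := exists_min_quant (ℓ := a ^ 3) (v := v) (by positivity)
    (by rw [e6]; exact hV) (by linarith)
  rw [e6] at hquant
  refine ⟨min (1 / 4) (min (a ^ 2 * lam0 / K) (lam0 / 10 ^ 11)), ?_, ?_⟩
  · apply lt_min (by norm_num)
    apply lt_min <;> positivity
  intro z hz hzz
  have z1 : z ≤ 1 / 4 := hzz.trans (min_le_left _ _)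
  have z2 : z ≤ a ^ 2 * lam0 / K := hzz.trans ((min_le_right _ _).trans (min_le_left _ _))
  have z3 : z ≤ lam0 / 10 ^ 11 := hzz.trans ((min_le_right _ _).trans (min_le_right _ _))
  rw [le_div_iff₀ hK] at z2
  rw [le_div_iff₀ (by positivity)] at z3
  obtain ⟨⟨ψ, g, H, hm, hmin⟩, hall⟩ := hquant z hz z1
  obtain ⟨q1, _⟩ := hall ψ g H hm hmin
  -- comparison of the two functionals
  have hcomp : ∀ {φ : E3 → ℝ} {h : E3 → E3}, Adm φ h →
      energy A 2 4 2 z φ h = Ff (a ^ 6) v z φ h + (v - 2) * mass φ := by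
    intro φ h Hφ
    rw [energy_eq Hφ.l2 Hφ.l4, ← haA]
    unfold Ff
    ring
  refine ⟨mass ψ, ?_, ⟨ψ, g, isAdmissible_iff.2 H, rfl, ?_⟩, ?_⟩
  · norm_num at z3
    linarith
  · intro φ h Hφ hφ
    have Hφ' := isAdmissible_iff.1 Hφ
    have hφ' : mass φ = mass ψ := hφ
    rw [hcomp H, hcomp Hφ', hφ']
    have := hmin φ h Hφ' (by rw [hφ']; exact hm)
    linarith
  · rintro ψ₁ ⟨g₁, H₁, hm₁, hmin₁⟩
    have H₁' := isAdmissible_iff.1 H₁
    have hmass₁ : mass ψ₁ = mass ψ := hm₁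
    have hle : Ff (a ^ 6) v z ψ₁ g₁ ≤ Ff (a ^ 6) v z ψ g := by
      have h1 := hmin₁ ψ g (isAdmissible_iff.2 H) rfl
      rw [hcomp H, hcomp H₁', hmass₁] at h1
      linarith
    have hm₁' : mass ψ₁ ≤ 1 := by rw [hmass₁]; exact hm
    have hmin₁' : ∀ (φ : E3 → ℝ) (h : E3 → E3), Adm φ h → mass φ ≤ 1 →
        Ff (a ^ 6) v z ψ₁ g₁ ≤ Ff (a ^ 6) v z φ h := fun φ h Hφ hφ =>
      hle.trans (hmin φ h Hφ hφ)
    obtain ⟨p1, p2⟩ := hall ψ₁ g₁ H₁' hm₁' hmin₁'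
    have hpos₁ : 0 < mass ψ₁ := hlam0.trans_le p1
    have hGf : Gf (a ^ 6) ψ₁ g₁ ≤ C2 * a ^ 2 * mass ψ₁ := by
      refine p2.trans ?_
      have h1 : v * mass ψ₁ ≤ C1 * a ^ 2 * mass ψ₁ := mul_le_mul_of_nonneg_right hvC hpos₁.le
      have h2 : a ^ 2 * lam0 ≤ a ^ 2 * mass ψ₁ := mul_le_mul_of_nonneg_left p1 (by positivity)
      rw [hC2def]
      linarith
    have hz1 : 10 ^ 11 * z ≤ mass ψ₁ := by linarith
    constructor
    · exact not_symm hC0 hC hC2 ha s2 s3 hv10 hz H₁' hpos₁ hm₁' hGf hz1 hmin₁'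
    · apply not_symm hC0 hC hC2 ha s2 s3 hv10 hz H₁'.neg
      · rwa [mass_neg]
      · rwa [mass_neg]
      · rwa [Gf_neg, mass_neg]
      · rwa [mass_neg]
      · intro φ h Hφ hφ
        rw [Ff_neg]
        exact hmin₁' φ h Hφ hφ

end Pool.Agent.W_b91f46_p2
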