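import Pool.Agent.W_b91f46_p2.Main

/-!
# Atomic TFDW minimizers that are not symmetric decreasing

For `p = 2`, `γ = 2`, `C_e = 4`, every sufficiently small `A > 0` and every sufficiently small
nuclear charge `z > 0` there is a mass `lam > z` at which the TFDW functional has a minimizer,
and no minimizer `ψ` at this mass is symmetric decreasing, nor is `-ψ`.
-/

namespace Pool.Agent.W_b91f46_p2.NotSymmetric

open Pool.Agent.W_b91f46_p2

/-- The symmetry assertion fails: for `γ = 2`, `C_e = 4`, `p = 2`, small `A` and small `z` there is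
`lam > z` such that minimizers at `lam` exist and none of them is symmetric decreasing up to
sign. -/
theorem result : ∃ A₀ : ℝ, 0 < A₀ ∧ ∀ A : ℝ, 0 < A → A ≤ A₀ →
    ∃ z₀ : ℝ, 0 < z₀ ∧ ∀ z : ℝ, 0 < z → z ≤ z₀ →
      ∃ lam : ℝ, z < lam ∧ (∃ ψ : E3 → ℝ, IsMinimizer A 2 4 2 z lam ψ) ∧
        ∀ ψ : E3 → ℝ, IsMinimizer A 2 4 2 z lam ψ →
          ¬ IsSymmDecreasing ψ ∧ ¬ IsSymmDecreasing (fun x => -ψ x) :=
  main

end Pool.Agent.W_b91f46_p2.NotSymmetric
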